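import Pool.Agent.EG.LE.Defs

/-!
# EG LE Atl: the atlas of a family
-/

set_option autoImplicit false

open Topology Filter Metric Set

namespace Pool.Agent.EG.LE

open Pool.Agent.H36.BP (EN fs wd)
open Pool.Agent.H14.PP (IsCone Tan jac)
open Pool.Agent.H62.EF (MN pr)
open Pool.Agent.H62.EL (TForm)
open Pool.Agent.EG.RL (rot)

variable {N : ℕ} {Xb V U D : Set (EN N)} {Λ : AddSubgroup ℂ} {u : EN N → ℂ} {α : TForm V Λ u} {κ : Type}

/-- the charts, and the charts at the nodes with the coordinates exchanged -/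
def Ix (F : LFam Xb V U D α κ) : Type := {x : κ × Bool // x.2 = true → (F.c x.1).b = 1}

/-- the chart of an index -/
def LFam.ch (F : LFam Xb V U D α κ) (x : Ix F) : LCh Xb V U α := F.c x.1.1

/-- exchange the coordinates if `sw = true` -/
def swp (sw : Bool) (p : ℂ × ℂ) : ℂ × ℂ := if sw = true then p.swap else p

/-- the parametrization of an index -/
def LFam.sS (F : LFam Xb V U D α κ) (x : Ix F) (p : ℂ × ℂ) : EN N := (F.ch x).s (swp x.1.2 p)

/-- the atlas -/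
noncomputable def LFam.atl (F : LFam Xb V U D α κ) : Pool.Agent.EG.RL.Atl (Ix F) (MN N) where
  s := fun x p => pr (F.sS x p)
  ex := fun x => (F.ch x).ex
  a := fun _ => 1
  b := fun x => ((F.ch x).b : ℤ)
  k := fun x => (F.ch x).κ
  g := fun x t p => Lp (F.ch x).ex p * cf α (F.sS x) t p

instance (F : LFam Xb V U D α κ) : Finite (Ix F) := by
  have := F.fin
  exact Subtype.finite

theorem atl_L (F : LFam Xb V U D α κ) (x : Ix F) (p : ℂ × ℂ) : F.atl.L x p = Lp (F.ch x).ex p := rfl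

theorem atl_u (F : LFam Xb V U D α κ) (x : Ix F) (p : ℂ × ℂ) : F.atl.u x p = (F.ch x).κ * p.1 * p.2 ^ (F.ch x).b := by
  show (F.ch x).κ * p.1 ^ 1 * p.2 ^ ((F.ch x).b : ℤ) = _
  rw [pow_one, zpow_natCast]

theorem swp_ball (sw : Bool) {p : ℂ × ℂ} {r : ℝ} (hp : p ∈ ball (0 : ℂ × ℂ) r) : swp sw p ∈ ball (0 : ℂ × ℂ) r := by
  unfold swp
  split_ifs
  · rw [mem_ball_zero_iff, Prod.norm_def, max_lt_iff] at hp ⊢
    exact ⟨hp.2, hp.1⟩
  · exact hp

/-- the exchanged parametrization is in `V` exactly where the frame does not vanish -/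
theorem sS_V (F : LFam Xb V U D α κ) (x : Ix F) {p : ℂ × ℂ} (hp : p ∈ ball (0 : ℂ × ℂ) 3) : F.sS x p ∈ V ↔ Lp (F.ch x).ex p ≠ 0 := by
  unfold LFam.sS
  rw [(F.ch x).s_V _ (swp_ball _ hp)]
  unfold Lp swp
  by_cases he : (F.ch x).ex = true
  · rw [if_pos he]
    by_cases hs : x.1.2 = true
    · rw [if_pos hs]
      simp only [Prod.fst_swap, Prod.snd_swap]
      rw [mul_ne_zero_iff]
      exact ⟨fun h1 => ⟨h1.2 he, h1.1⟩, fun h1 => ⟨h1.2, fun _ => h1.1⟩⟩
    · rw [if_neg hs, mul_ne_zero_iff]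
      exact ⟨fun h1 => ⟨h1.1, h1.2 he⟩, fun h1 => ⟨h1.1, fun _ => h1.2⟩⟩
  · have hs : x.1.2 ≠ true := fun hs => he ((F.ch x).b_ex (x.2 hs))
    rw [if_neg he, if_neg hs, mul_one]
    exact ⟨fun h1 => h1.1, fun h1 => ⟨h1, fun h2 => absurd h2 he⟩⟩

theorem sS_u (F : LFam Xb V U D α κ) (x : Ix F) {p : ℂ × ℂ} (hp : p ∈ ball (0 : ℂ × ℂ) 3) (hV : F.sS x p ∈ V) :
    Complex.exp (u (F.sS x p)) = F.atl.u x p := by
  rw [atl_u]
  unfold LFam.sS at hV ⊢
  rw [(F.ch x).s_u _ (swp_ball _ hp) hV]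
  unfold swp
  split_ifs with hs
  · have hb := x.2 hs
    have hb' : (F.ch x).b = 1 := hb
    rw [hb', pow_one, pow_one, Prod.fst_swap, Prod.snd_swap]
    ring
  · rfl

end Pool.Agent.EG.LE
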