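import Pool.Agent.EG.LE.Der
import Pool.Agent.EG.LE.Atl

/-!
# EG LE CellC: a section is in one chart over large balls in the end

Proof (helper41):
Suppose not: for every n there are z n with Re (z n) ≤ - 2 n - 2 - X0 and F n, SecOn on ball (z n) (n + R + 2), such that no x works on ball (z n) R.  der_bound: fs ≤ L on ball (z n) n.  lim_const for
ζ ↦ F n (z n + ζ) (ρ n = n): x0 in D, pr (F n (z n + ζ)) -> pr x0, uniformly on closedBall 0 R (lim_unif).  F.cov x0: x0 = a • (c i).s p with CenS p (x := (i, false)) or b = 1 and CenS p.swap (x := (i, true)).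
{p | CenS p} is open: pt_open for A := {p | CenS (swp sw p)} ∩ ball 0 3: all y in Xb near x0 are in Pt A; in terms of pr: there is ε > 0 such that y in Xb, dist (pr y) (pr x0) < ε imply Pt A y
(pr y near pr x0 implies that a multiple of y is near x0; pt_smul; continuity / openness of pr: by contradiction with a compactness argument on the sphere, or Pool.Agent.H62.EF lemmas on pr).
So for 𝒰-almost all n the index x works on ball (z n) R: contradiction.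
pt_pr_nhds: the statement on pr neighbourhoods used above.
-/

set_option autoImplicit false

open Topology Filter Metric Set

namespace Pool.Agent.EG.LE

open Pool.Agent.H36.BP (EN fs wd)
open Pool.Agent.H14.PP (IsCone Tan jac)
open Pool.Agent.H62.EF (MN pr)
open Pool.Agent.H62.EL (TForm)

variable {N : ℕ} {Xb V U D : Set (EN N)} {Λ : AddSubgroup ℂ} {u : EN N → ℂ} {α : TForm V Λ u} {κ : Type}

private theorem cellC_cenS_ball {p : ℂ × ℂ} (hp : CenS p) : p ∈ ball (0 : ℂ × ℂ) 3 := by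
  rw [mem_ball_zero_iff, Prod.norm_def, max_lt_iff]
  exact ⟨by linarith [hp.1], by linarith [hp.2]⟩

private theorem cellC_isOpen_cenS : IsOpen {p : ℂ × ℂ | CenS p} := by
  have h1 : IsOpen {p : ℂ × ℂ | ‖p.1‖ < 3 / 8} := isOpen_lt continuous_fst.norm continuous_const
  have h2 : IsOpen {p : ℂ × ℂ | ‖p.2‖ < 7 / 8} := isOpen_lt continuous_snd.norm continuous_const
  exact h1.inter h2

theorem pt_pr_nhds (h : EndData Xb V U D Λ u α) (c : LCh Xb V U α) {A : Set (ℂ × ℂ)} (hA : IsOpen A) (hA3 : A ⊆ ball 0 3) {x : EN N}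
    (hx : c.Pt A x) : ∃ ε : ℝ, 0 < ε ∧ ∀ y ∈ Xb, dist (pr y) (pr x) < ε → c.Pt A y := by
  obtain ⟨p₀, hp₀, a₀, ha₀, hxa⟩ := hx
  obtain ⟨ε', hε', hball⟩ := Metric.isOpen_iff.1 hA p₀ hp₀
  have hp3 : ‖p₀‖ < 3 := by
    have := hA3 hp₀
    rwa [mem_ball_zero_iff] at this
  obtain ⟨δ, hδ, hcl⟩ := pt_close h c (half_pos hε') hp3
  have hprx : pr x = pr (c.s p₀) := by
    rw [hxa, Pool.Agent.H62.EF.pr_smul _ ha₀]
  refine ⟨δ, hδ, fun y hy hyd => ?_⟩
  rw [hprx] at hyd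
  obtain ⟨-, p', hp', hpp, a, ha, hya⟩ := hcl p₀ (by rw [mem_closedBall_zero_iff]) y hy hyd.le
  refine ⟨p', hball ?_, a, ha, hya⟩
  rw [mem_ball, dist_eq_norm]
  linarith

theorem cell_chart (h : EndData Xb V U D Λ u α) (F : LFam Xb V U D α κ) (R : ℝ) (hR : 0 < R) : ∃ r X₀ : ℝ, R < r ∧
    ∀ (z₀ : ℂ) (f : ℂ → EN N), z₀.re ≤ -X₀ → SecOn U Λ u (ball z₀ r) f →
      ∃ x : Ix F, ∀ z ∈ ball z₀ R, ∃ p, CenS p ∧ ∃ a : ℂ, a ≠ 0 ∧ f z = a • F.sS x p := by
  by_contra hcon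
  push Not at hcon
  have hds : ∀ n : ℕ, ∃ r X₀ : ℝ, 0 < r ∧ R < r ∧ ∀ (z₀ : ℂ) (F : ℂ → EN N), z₀.re ≤ -X₀ →
      SecOn U Λ u (ball z₀ r) F → ∀ z ∈ closedBall z₀ R, fs (F z) (deriv F z) < 1 / ((n : ℝ) + 1) ∧
        dist (pr (F z)) (pr (F z₀)) < 1 / ((n : ℝ) + 1) := fun n => der_small h R _ (by positivity)
  choose r X₀ hr hRr hsm using hds
  have hz : ∀ n : ℕ, ∃ (z₀ : ℂ) (f : ℂ → EN N), z₀.re ≤ -(max (X₀ n) n) ∧ SecOn U Λ u (ball z₀ (r n)) f ∧
      ∀ x : Ix F, ∃ z ∈ ball z₀ R, ∀ p, CenS p → ∀ a : ℂ, a ≠ 0 → f z ≠ a • F.sS x p := by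
    intro n
    obtain ⟨z₀, f, h1, h2, h3⟩ := hcon (r n) (max (X₀ n) n) (hRr n)
    exact ⟨z₀, f, h1, h2, h3⟩
  choose z f hzre hsec hno using hz
  have hU : ∀ n, ∀ w ∈ ball (z n) (r n), f n w ∈ U := fun n w hw => ((hsec n).2 w hw).1
  have hcen : ∀ n, z n ∈ ball (z n) (r n) := fun n => mem_ball_self (hr n)
  let 𝒰 : Ultrafilter ℕ := Filter.hyperfilter ℕ
  have h𝒰 : (𝒰 : Filter ℕ) ≤ atTop := by
    rw [← Nat.cofinite_eq_atTop]
    exact Filter.hyperfilter_le_cofinite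
  -- the limit point
  obtain ⟨q, ⟨x₀, hx₀, hq⟩, hlim⟩ := (Pool.Agent.H62.EF.isCompact_pr h.cone).ultrafilter_le_nhds
    (𝒰.map fun n => pr (f n (z n))) (by
      rw [Filter.le_principal_iff]
      refine Filter.mem_map.2 (Filter.univ_mem' fun n => ?_)
      exact ⟨f n (z n), h.V_sub (h.U_sub (hU n _ (hcen n))), rfl⟩)
  have hlim' : Tendsto (fun n => pr (f n (z n))) 𝒰 (𝓝 (pr x₀)) := by
    rw [hq]
    exact hlim
  have hx0 : x₀ ≠ 0 := fun e => h.cone.zero_notMem (e ▸ hx₀)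
  have hexp : ∀ n, ‖Complex.exp (u (f n (z n)))‖ ≤ Real.exp (-(n : ℝ)) := by
    intro n
    have h1 := (h.lat _).1 ((hsec n).2 _ (hcen n)).2
    have h2 : Complex.exp (u (f n (z n))) = Complex.exp (z n) := by
      have h3 : u (f n (z n)) = (u (f n (z n)) - z n) + z n := by ring
      rw [h3, Complex.exp_add, h1, one_mul]
    rw [h2, Complex.norm_exp]
    refine Real.exp_le_exp.2 ((hzre n).trans ?_)
    exact neg_le_neg (le_max_right _ _)
  have he : Tendsto (fun n => ‖Complex.exp (u (f n (z n)))‖) 𝒰 (𝓝 0) := by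
    have h1 : Tendsto (fun n : ℕ => Real.exp (-(n : ℝ))) atTop (𝓝 0) :=
      Real.tendsto_exp_neg_atTop_nhds_zero.comp tendsto_natCast_atTop_atTop
    exact squeeze_zero (fun n => norm_nonneg _) hexp (h1.mono_left h𝒰)
  have hD : x₀ ∈ D := tendsto_D h hx0 𝒰 (fun n => f n (z n))
    (Filter.Eventually.of_forall fun n => h.U_sub (hU n _ (hcen n))) hlim' he
  -- the points near the limit point are in one chart
  have hkey : ∀ ε : ℝ, 0 < ε → ∃ n, ∀ w ∈ ball (z n) R, f n w ∈ Xb ∧ dist (pr (f n w)) (pr x₀) < ε := by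
    intro ε hε
    have e1 : ∀ᶠ n in (𝒰 : Filter ℕ), dist (pr (f n (z n))) (pr x₀) < ε / 2 :=
      (Metric.tendsto_nhds.1 hlim') _ (half_pos hε)
    have e2 : ∀ᶠ n : ℕ in (𝒰 : Filter ℕ), 1 / ((n : ℝ) + 1) < ε / 2 := by
      have h1 : Tendsto (fun n : ℕ => 1 / ((n : ℝ) + 1)) atTop (𝓝 0) := tendsto_one_div_add_atTop_nhds_zero_nat
      exact (h1.mono_left h𝒰).eventually (gt_mem_nhds (half_pos hε))
    obtain ⟨n, h1, h2⟩ := (e1.and e2).exists
    refine ⟨n, fun w hw => ⟨h.V_sub (h.U_sub (hU n w (ball_subset_ball (hRr n).le hw))), ?_⟩⟩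
    have h3 := (hsm n (z n) (f n) ((hzre n).trans (neg_le_neg (le_max_left _ _))) (hsec n) w (ball_subset_closedBall hw)).2
    have h4 := dist_triangle (pr (f n w)) (pr (f n (z n))) (pr x₀)
    linarith
  obtain ⟨i, p, hp, a, ha, hxa⟩ := F.cov x₀ hD
  rcases hp with hp | ⟨hb, hp⟩
  · obtain ⟨ε, hε, hnear⟩ := pt_pr_nhds h (F.c i) cellC_isOpen_cenS (fun p hp => cellC_cenS_ball hp) (x := x₀)
      ⟨p, hp, a, ha, hxa⟩
    obtain ⟨n, hn⟩ := hkey ε hε
    obtain ⟨w, hw, hw'⟩ := hno n ⟨(i, false), fun e => absurd e (by simp)⟩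
    obtain ⟨p', hp', a', ha', hwa⟩ := hnear (f n w) (hn w hw).1 (hn w hw).2
    exact hw' p' hp' a' ha' hwa
  · have hop : IsOpen {p : ℂ × ℂ | CenS p.swap} := cellC_isOpen_cenS.preimage continuous_swap
    have hsub : {p : ℂ × ℂ | CenS p.swap} ⊆ ball (0 : ℂ × ℂ) 3 := by
      intro p hp
      have h1 := cellC_cenS_ball hp
      rw [mem_ball_zero_iff, Prod.norm_def, max_lt_iff] at h1 ⊢
      exact ⟨h1.2, h1.1⟩
    obtain ⟨ε, hε, hnear⟩ := pt_pr_nhds h (F.c i) hop hsub (x := x₀) ⟨p, hp, a, ha, hxa⟩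
    obtain ⟨n, hn⟩ := hkey ε hε
    obtain ⟨w, hw, hw'⟩ := hno n ⟨(i, true), fun _ => hb⟩
    obtain ⟨p', hp', a', ha', hwa⟩ := hnear (f n w) (hn w hw).1 (hn w hw).2
    refine hw' p'.swap hp' a' ha' ?_
    have h5 : F.sS ⟨(i, true), fun _ => hb⟩ p'.swap = (F.c i).s p' := by
      unfold LFam.sS LFam.ch swp
      simp
    rw [h5]
    exact hwa

end Pool.Agent.EG.LE
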