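import Pool.Agent.EG.LE.Defs
import Pool.Agent.H62.EF.PrA

/-!
# EG LE Pt: the points of a chart

Proof (helper41):
s_ne: s p in Xb and Xb is a cone without 0.
fib: if s p = a • s p', then q (s p) = q (s p') (q_smul), so p.1^k = p'.1^k, p.2^k = p'.2^k.  k = 1: p = p', zeta = 1.  Otherwise b = 1, ex = true.  If p'.1 = 0: then p.1 = 0; if also
p'.2 = 0 take zeta = 1, else zeta := p'.2 / p.2.  If p'.2 = 0, p'.1 ≠ 0: zeta := p.1 / p'.1.  If both are ≠ 0: s p, s p' in V, exp u agree (u_smul, lat), so p.1 p.2 = p'.1 p'.2,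
zeta := p.1 / p'.1.
pt_smul: clear.   pt_rot: s_rot.
pt_open: by contradiction with sequences, or: the set of bad points.  Let x0 = a • s p0, p0 in A (open).  If the claim is false there are x_n -> x0 in Xb (first countable), in W for large n,
x_n = a_n • s p_n (surj), not Pt A.  (p_n)^k = q x_n -> q x0 = p0^k, so ‖p_n‖ stays in a compact part of ball 0 3; a subsequence p_n -> p', pr (s p') = pr x0 = pr (s p0) (continuity of pr),
so s p' = c • s p0 (pr_eq), fib: p' = rot zeta p0, zeta^k = 1; then rot zeta⁻¹ p_n -> p0 is in A eventually and x_n = a' • s (rot zeta⁻¹ p_n) (s_rot): contradiction.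
pt_compact: the image of a compact A ⊆ ball 0 3 under pr ∘ s is compact; pr x ∈ the image iff Pt A x (pr x = pr y, x, y ≠ 0 iff x = c • y).
-/

set_option autoImplicit false

open Topology Filter Metric Set

namespace Pool.Agent.EG.LE

open Pool.Agent.H36.BP (EN fs wd)
open Pool.Agent.H14.PP (IsCone Tan jac)
open Pool.Agent.H62.EF (MN pr pr_smul pr_eq_iff continuousAt_pr)
open Pool.Agent.H62.EL (TForm)
open Pool.Agent.EG.RL (rot)

variable {N : ℕ} {Xb V U D : Set (EN N)} {Λ : AddSubgroup ℂ} {u : EN N → ℂ} {α : TForm V Λ u}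

theorem s_ne (h : EndData Xb V U D Λ u α) (c : LCh Xb V U α) {p : ℂ × ℂ} (hp : p ∈ ball (0 : ℂ × ℂ) 3) : c.s p ≠ 0 := by
  intro h0
  exact h.cone.zero_notMem (h0 ▸ (c.s_mem p hp).1)

private theorem pt_pow_zero {k : ℕ} (hk : 1 ≤ k) {a b : ℂ} (h : a ^ k = b ^ k) (hb : b = 0) : a = 0 := by
  rw [hb, zero_pow (by omega)] at h
  exact (pow_eq_zero_iff (by omega)).1 h

private theorem pt_pow_ne {k : ℕ} (hk : 1 ≤ k) {a b : ℂ} (h : a ^ k = b ^ k) (hb : b ≠ 0) : a ≠ 0 := by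
  intro ha
  exact hb (pt_pow_zero hk h.symm ha)

private theorem pt_pow_div {k : ℕ} {a b : ℂ} (h : a ^ k = b ^ k) (hb : b ≠ 0) : (a / b) ^ k = 1 := by
  rw [div_pow, h, div_self (pow_ne_zero k hb)]

theorem fib (h : EndData Xb V U D Λ u α) (c : LCh Xb V U α) {p p' : ℂ × ℂ} (hp : p ∈ ball (0 : ℂ × ℂ) 3) (hp' : p' ∈ ball (0 : ℂ × ℂ) 3)
    {a : ℂ} (ha : a ≠ 0) (he : c.s p = a • c.s p') : ∃ ζ : ℂ, ζ ^ c.k = 1 ∧ p = rot ζ p' := by
  have hq : ((p.1 ^ c.k, p.2 ^ c.k) : ℂ × ℂ) = (p'.1 ^ c.k, p'.2 ^ c.k) := by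
    rw [← (c.s_mem p hp).2.2, ← (c.s_mem p' hp').2.2, he, c.q_smul _ (c.s_mem p' hp').2.1 a ha]
  have hq1 : p.1 ^ c.k = p'.1 ^ c.k := congrArg Prod.fst hq
  have hq2 : p.2 ^ c.k = p'.2 ^ c.k := congrArg Prod.snd hq
  have hk := c.k_pos
  rcases c.k_eq with hk1 | hb1
  · refine ⟨1, one_pow _, ?_⟩
    rw [hk1, pow_one, pow_one] at hq1 hq2
    refine Prod.ext ?_ ?_
    · simp only [rot]
      rw [hq1, one_mul]
    · simp only [rot]
      rw [hq2, inv_one, one_mul]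
  · have hex := c.b_ex hb1
    by_cases h1 : p'.1 = 0
    · have h1' := pt_pow_zero hk hq1 h1
      by_cases h2 : p'.2 = 0
      · have h2' := pt_pow_zero hk hq2 h2
        refine ⟨1, one_pow _, ?_⟩
        refine Prod.ext ?_ ?_
        · simp only [rot]
          rw [h1, h1', mul_zero]
        · simp only [rot]
          rw [h2, h2', mul_zero]
      · have h2' := pt_pow_ne hk hq2 h2
        refine ⟨p'.2 / p.2, pt_pow_div hq2.symm h2', ?_⟩
        refine Prod.ext ?_ ?_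
        · simp only [rot]
          rw [h1, h1', mul_zero]
        · simp only [rot]
          field_simp
    · have h1' := pt_pow_ne hk hq1 h1
      by_cases h2 : p'.2 = 0
      · have h2' := pt_pow_zero hk hq2 h2
        refine ⟨p.1 / p'.1, pt_pow_div hq1 h1, ?_⟩
        refine Prod.ext ?_ ?_
        · simp only [rot]
          field_simp
        · simp only [rot]
          rw [h2, h2', mul_zero]
      · have h2' := pt_pow_ne hk hq2 h2
        have hV : c.s p ∈ V := (c.s_V p hp).2 ⟨h1', fun _ => h2'⟩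
        have hV' : c.s p' ∈ V := (c.s_V p' hp').2 ⟨h1, fun _ => h2⟩
        have e1 := c.s_u p hp hV
        have e2 := c.s_u p' hp' hV'
        have e3 : Complex.exp (u (c.s p) - u (c.s p')) = 1 := by
          rw [he]
          exact (h.lat _).1 (h.u_smul _ hV' a ha)
        rw [Complex.exp_sub, e1, e2, hb1, pow_one, pow_one] at e3
        have hκ := c.κ_ne
        have e4 : p.1 * p.2 = p'.1 * p'.2 := by
          have hne : c.κ * p'.1 * p'.2 ≠ 0 := mul_ne_zero (mul_ne_zero hκ h1) h2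
          rw [div_eq_one_iff_eq hne] at e3
          have e5 : c.κ * (p.1 * p.2) = c.κ * (p'.1 * p'.2) := by
            rw [← mul_assoc, ← mul_assoc]
            exact e3
          exact mul_left_cancel₀ hκ e5
        refine ⟨p.1 / p'.1, pt_pow_div hq1 h1, ?_⟩
        refine Prod.ext ?_ ?_
        · simp only [rot]
          field_simp
        · simp only [rot]
          rw [inv_div, div_mul_eq_mul_div, ← e4, mul_div_assoc, mul_comm, div_mul_cancel₀ _ h1']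

theorem pt_smul (c : LCh Xb V U α) {A : Set (ℂ × ℂ)} {x : EN N} (hx : c.Pt A x) {a : ℂ} (ha : a ≠ 0) : c.Pt A (a • x) := by
  obtain ⟨p, hp, b, hb, rfl⟩ := hx
  exact ⟨p, hp, a * b, mul_ne_zero ha hb, smul_smul a b _⟩

private theorem pt_norm_eq {k : ℕ} (hk : 1 ≤ k) {a b : ℂ} (h : a ^ k = b ^ k) : ‖a‖ = ‖b‖ := by
  have h1 : ‖a‖ ^ k = ‖b‖ ^ k := by
    rw [← norm_pow, ← norm_pow, h]
  exact (pow_left_inj₀ (norm_nonneg _) (norm_nonneg _) (by omega)).1 h1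

private theorem pt_rot_cont (ζ : ℂ) : Continuous (fun p : ℂ × ℂ => rot ζ p) := by
  unfold rot
  fun_prop

theorem pt_open (h : EndData Xb V U D Λ u α) (c : LCh Xb V U α) {A : Set (ℂ × ℂ)} (hA : IsOpen A) (hA3 : A ⊆ ball 0 3) {x : EN N}
    (hx : c.Pt A x) : ∀ᶠ y in 𝓝 x, y ∈ Xb → c.Pt A y := by
  by_contra hcon
  obtain ⟨p0, hp0, a0, ha0, hx0⟩ := hx
  have hp03 := hA3 hp0
  have hs0 := c.s_mem p0 hp03
  have hxW : x ∈ c.W := by
    rw [hx0]
    exact c.smul_W _ hs0.2.1 _ ha0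
  have hxX : x ∈ Xb := by
    rw [hx0]
    exact h.cone.smul_mem _ hs0.1 _ ha0
  have hxne : x ≠ 0 := fun h0 => h.cone.zero_notMem (h0 ▸ hxX)
  have hW : ∀ᶠ y in 𝓝 x, y ∈ c.W := c.isOpen_W.mem_nhds hxW
  have hfr : ∃ᶠ y in 𝓝 x, ¬ (y ∈ Xb → c.Pt A y) := Filter.not_eventually.1 hcon
  obtain ⟨X, hX, hXP⟩ := Filter.exists_seq_forall_of_frequently (hfr.and_eventually hW)
  have hXX : ∀ n, X n ∈ Xb := fun n => by
    by_contra h1
    exact (hXP n).1 fun h2 => absurd h2 h1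
  have hXn : ∀ n, ¬ c.Pt A (X n) := fun n h1 => (hXP n).1 fun _ => h1
  choose p hp b hb hXb using fun n => c.surj (X n) (hXX n) (hXP n).2
  obtain ⟨P, hP, φ, hφ, hlim⟩ := (isCompact_closedBall (0 : ℂ × ℂ) 3).tendsto_subseq (x := p)
    (fun n => ball_subset_closedBall (hp n))
  have hXφ : Tendsto (fun n => X (φ n)) atTop (𝓝 x) := hX.comp hφ.tendsto_atTop
  have hqX : ∀ n, c.q (X n) = ((p n).1 ^ c.k, (p n).2 ^ c.k) := fun n => by
    rw [hXb n, c.q_smul _ (c.s_mem _ (hp n)).2.1 _ (hb n), (c.s_mem _ (hp n)).2.2]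
  have hqx : c.q x = (p0.1 ^ c.k, p0.2 ^ c.k) := by
    rw [hx0, c.q_smul _ hs0.2.1 _ ha0, hs0.2.2]
  have hq1 : Tendsto (fun n => c.q (X (φ n))) atTop (𝓝 (c.q x)) := (c.q_an x hxW).continuousAt.tendsto.comp hXφ
  have hq2 : Tendsto (fun n => c.q (X (φ n))) atTop (𝓝 (P.1 ^ c.k, P.2 ^ c.k)) := by
    have h1 : Continuous (fun y : ℂ × ℂ => ((y.1 ^ c.k, y.2 ^ c.k) : ℂ × ℂ)) := by fun_prop
    have h2 := (h1.tendsto P).comp hlim
    refine h2.congr fun n => ?_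
    rw [hqX]
    rfl
  have hq3 := tendsto_nhds_unique hq2 hq1
  rw [hqx] at hq3
  have e1 : ‖P.1‖ = ‖p0.1‖ := pt_norm_eq c.k_pos (congrArg Prod.fst hq3)
  have e2 : ‖P.2‖ = ‖p0.2‖ := pt_norm_eq c.k_pos (congrArg Prod.snd hq3)
  have hP3 : P ∈ ball (0 : ℂ × ℂ) 3 := by
    rw [mem_ball_zero_iff, Prod.norm_def, e1, e2, ← Prod.norm_def, ← mem_ball_zero_iff]
    exact hp03
  have hsP := c.s_mem P hP3
  have hsP0 := s_ne h c hP3
  have hs00 := s_ne h c hp03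
  have t1 : Tendsto (fun n => pr (c.s (p (φ n)))) atTop (𝓝 (pr (c.s P))) :=
    (continuousAt_pr hsP0).tendsto.comp ((c.s_an P hP3).continuousAt.tendsto.comp hlim)
  have t2 : Tendsto (fun n => pr (c.s (p (φ n)))) atTop (𝓝 (pr (c.s p0))) := by
    have h1 : Tendsto (fun n => pr (X (φ n))) atTop (𝓝 (pr x)) := (continuousAt_pr hxne).tendsto.comp hXφ
    rw [hx0, pr_smul _ ha0] at h1
    refine h1.congr fun n => ?_
    rw [hXb, pr_smul _ (hb _)]
  obtain ⟨d, hd, hde⟩ := (pr_eq_iff hsP0 hs00).1 (tendsto_nhds_unique t1 t2)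
  obtain ⟨ζ, hζ, hζP⟩ := fib h c hP3 hp03 hd hde
  have hζ0 : ζ ≠ 0 := by
    intro h0
    rw [h0, zero_pow (by have := c.k_pos; omega)] at hζ
    exact zero_ne_one hζ
  have hζi : ζ⁻¹ ^ c.k = 1 := by rw [inv_pow, hζ, inv_one]
  have t3 : Tendsto (fun n => rot ζ⁻¹ (p (φ n))) atTop (𝓝 (rot ζ⁻¹ P)) := ((pt_rot_cont ζ⁻¹).tendsto P).comp hlim
  have e3 : rot ζ⁻¹ P = p0 := by
    rw [hζP]
    refine Prod.ext ?_ ?_
    · simp only [rot]
      field_simp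
    · simp only [rot]
      field_simp
  rw [e3] at t3
  obtain ⟨n, hn⟩ := (t3.eventually (hA.mem_nhds hp0)).exists
  obtain ⟨e, he, hes⟩ := c.s_rot ζ⁻¹ hζi (p (φ n)) (hp _)
  refine hXn (φ n) ⟨_, hn, b (φ n) * e⁻¹, mul_ne_zero (hb _) (inv_ne_zero he), ?_⟩
  rw [hes, smul_smul, mul_assoc, inv_mul_cancel₀ he, mul_one]
  exact hXb _

theorem pt_pr (h : EndData Xb V U D Λ u α) (c : LCh Xb V U α) {A : Set (ℂ × ℂ)} (hA3 : A ⊆ ball 0 3) {x : EN N} (hx : x ≠ 0) :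
    c.Pt A x ↔ pr x ∈ (fun p => pr (c.s p)) '' A := by
  constructor
  · rintro ⟨p, hp, a, ha, rfl⟩
    exact ⟨p, hp, (pr_smul _ ha).symm⟩
  · rintro ⟨p, hp, hpx⟩
    obtain ⟨a, ha, hax⟩ := (pr_eq_iff hx (s_ne h c (hA3 hp))).1 hpx.symm
    exact ⟨p, hp, a, ha, hax⟩

theorem isCompact_pt (h : EndData Xb V U D Λ u α) (c : LCh Xb V U α) {A : Set (ℂ × ℂ)} (hA : IsCompact A) (hA3 : A ⊆ ball 0 3) :
    IsCompact ((fun p => pr (c.s p)) '' A) := by
  refine hA.image_of_continuousOn fun p hp => ContinuousAt.continuousWithinAt ?_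
  exact ContinuousAt.comp (g := pr) (f := c.s) (continuousAt_pr (s_ne h c (hA3 hp))) (c.s_an p (hA3 hp)).continuousAt

/-- uniform version of `pt_open`: points of `Xb` near a point of the chart are in the chart, with near coordinates -/
theorem pt_close (h : EndData Xb V U D Λ u α) (c : LCh Xb V U α) {ε : ℝ} (hε : 0 < ε) {r : ℝ} (hr : r < 3) :
    ∃ δ : ℝ, 0 < δ ∧ ∀ p ∈ closedBall (0 : ℂ × ℂ) r, ∀ x ∈ Xb, dist (pr x) (pr (c.s p)) ≤ δ →
      x ∈ c.W ∧ ∃ p' ∈ ball (0 : ℂ × ℂ) 3, ‖p' - p‖ ≤ ε ∧ ∃ a : ℂ, a ≠ 0 ∧ x = a • c.s p' := by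
  by_contra hcon
  push Not at hcon
  have hcon' : ∀ n : ℕ, ∃ p ∈ closedBall (0 : ℂ × ℂ) r, ∃ x ∈ Xb, dist (pr x) (pr (c.s p)) ≤ 1 / ((n : ℝ) + 1) ∧
      (x ∈ c.W → ∀ p' ∈ ball (0 : ℂ × ℂ) 3, ‖p' - p‖ ≤ ε → ∀ a : ℂ, a ≠ 0 → x ≠ a • c.s p') := fun n => hcon _ (by positivity)
  choose p hp x hx hd hno using hcon'
  obtain ⟨P, hP, φ, hφ, hlim⟩ := (isCompact_closedBall (0 : ℂ × ℂ) r).tendsto_subseq (x := p) hp
  have hP3 : P ∈ ball (0 : ℂ × ℂ) 3 := closedBall_subset_ball hr hP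
  have hsP := c.s_mem P hP3
  have hsP0 := s_ne h c hP3
  have hA : IsOpen (ball P (ε / 2) ∩ ball (0 : ℂ × ℂ) 3) := isOpen_ball.inter isOpen_ball
  have hPA : c.Pt (ball P (ε / 2) ∩ ball (0 : ℂ × ℂ) 3) (c.s P) :=
    ⟨P, ⟨mem_ball_self (by positivity), hP3⟩, 1, one_ne_zero, (one_smul _ _).symm⟩
  have e1 := pt_open h c hA inter_subset_right hPA
  have e2 : ∀ᶠ y in 𝓝 (c.s P), y ∈ c.W := c.isOpen_W.mem_nhds hsP.2.1
  obtain ⟨δ, hδ, hδU⟩ := Pool.Agent.H62.EF.near_of_pr hsP0 (e1.and e2)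
  have t1 : Tendsto (fun n => pr (c.s (p (φ n)))) atTop (𝓝 (pr (c.s P))) :=
    (continuousAt_pr hsP0).tendsto.comp ((c.s_an P hP3).continuousAt.tendsto.comp hlim)
  have f1 : ∀ᶠ n in atTop, dist (pr (c.s (p (φ n)))) (pr (c.s P)) < δ / 2 := Metric.tendsto_nhds.1 t1 _ (by positivity)
  have hz : Tendsto (fun n : ℕ => 1 / ((φ n : ℝ) + 1)) atTop (𝓝 0) :=
    (tendsto_one_div_add_atTop_nhds_zero_nat (𝕜 := ℝ)).comp hφ.tendsto_atTop
  have f2 : ∀ᶠ n in atTop, 1 / ((φ n : ℝ) + 1) < δ / 2 := hz.eventually_lt_const (by positivity)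
  have f3 : ∀ᶠ n in atTop, dist (p (φ n)) P < ε / 2 := Metric.tendsto_nhds.1 hlim _ (by positivity)
  obtain ⟨n, g1, g2, g3⟩ := (f1.and (f2.and f3)).exists
  have hxn : x (φ n) ≠ 0 := fun h0 => h.cone.zero_notMem (h0 ▸ hx (φ n))
  have g4 : dist (pr (x (φ n))) (pr (c.s P)) < δ := by
    have g5 := dist_triangle (pr (x (φ n))) (pr (c.s (p (φ n)))) (pr (c.s P))
    have g6 := hd (φ n)
    linarith
  obtain ⟨d, hd0, hd1, hd2⟩ := hδU _ hxn g4
  have k1 : d⁻¹ • d • x (φ n) = x (φ n) := by rw [smul_smul, inv_mul_cancel₀ hd0, one_smul]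
  have hW : x (φ n) ∈ c.W := by
    have := c.smul_W _ hd2 _ (inv_ne_zero hd0)
    rwa [k1] at this
  have hPt : c.Pt (ball P (ε / 2) ∩ ball (0 : ℂ × ℂ) 3) (x (φ n)) := by
    have := pt_smul c (hd1 (h.cone.smul_mem _ (hx _) _ hd0)) (inv_ne_zero hd0)
    rwa [k1] at this
  obtain ⟨p', hp', a, ha, hxa⟩ := hPt
  refine hno (φ n) hW p' hp'.2 ?_ a ha hxa
  have g7 := dist_triangle p' P (p (φ n))
  have g8 : dist p' P < ε / 2 := hp'.1
  rw [dist_comm] at g3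
  rw [← dist_eq_norm]
  linarith

end Pool.Agent.EG.LE
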