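import Pool.Agent.EG.LE.PhiC
import Pool.Agent.EG.LE.Pt

/-!
# EG LE CellS: a section in one chart is a curve in the cell

Proof (helper41; formalised by helper35): c := F.ch x, k := c.k, b := c.b, sw := x.1.2.  For z in the ball f z = a • c.s (swp sw p), so f z in c.W (s_mem, smul_W) and c.q (f z) = ((swp sw p).1 ^ k, (swp sw p).2 ^ k) (q_smul, s_mem).
Q z := (swp sw (c.q (f z))).2 = p.2 ^ k: differentiable on the ball (q_an, f differentiable on the open ball).  f z in V, so sS x p in V (V_smul), Lp ex p ≠ 0 (sS_V), exp z = exp (u (f z)) = exp (u (sS x p))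
(u_smul, lat) = κ p.1 p.2 ^ b (sS_u, atl_u).
ex = false: then b = 0 (b_ex, b_le), k = 1 (k_eq), sw = false (x.2); g := Q, g z = p.2, XX_eq: XX x z (g z) = (κ⁻¹ exp z, p.2) = p.
ex = true: p.2 ≠ 0, Q z ≠ 0.  There is G differentiable on the ball with exp (G z) = Q z (for instance a primitive of Q'/Q on a ball: DifferentiableOn.isExactOn_ball or Complex.exists ... log; the same
was done in several modules: search for `exp (G` / `exists_log`), g := G / k + 2 π i m / k with m such that |Im (g z₀)| ≤ π (round).  Then exp (g z) ^ k = Q z = p.2 ^ k, zeta := p.2 / exp (g z), zeta ^ k = 1,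
XX x z (g z) = (κ⁻¹ exp (z - b g), exp g) = rot zeta p: rot zeta p = (zeta p.1, zeta⁻¹ p.2), zeta⁻¹ p.2 = exp g; first coordinate: b = 1: κ p.1 p.2 = exp z gives zeta p.1 = κ⁻¹ exp z / exp g;
b = 0: k = 1 (k_eq), zeta = 1, p.1 = κ⁻¹ exp z.
CenS (rot zeta p): ‖zeta‖ = 1 (RL rot_norm).  f z = a • sS x p and sS x (rot zeta p) = c' • sS x p (s_rot for swp sw p, with zeta⁻¹ if sw = true: swp (rot zeta p) = rot zeta⁻¹ (swp p)), so
f z = (a / c') • sS x (rot zeta p).
-/

set_option autoImplicit false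

open Topology Filter Metric Set

namespace Pool.Agent.EG.LE

open Pool.Agent.H36.BP (EN fs wd)
open Pool.Agent.H14.PP (IsCone Tan jac)
open Pool.Agent.H62.EF (MN pr)
open Pool.Agent.H62.EL (TForm)
open Pool.Agent.EG.RL (rot Cen Model Bphi)

variable {N : ℕ} {Xb V U D : Set (EN N)} {Λ : AddSubgroup ℂ} {u : EN N → ℂ} {α : TForm V Λ u} {κ : Type}

/-- a holomorphic logarithm on a ball -/
private theorem CellS_log {f : ℂ → ℂ} {t₁ : ℂ} {r₀ : ℝ} (hr : 0 < r₀) (hf : DifferentiableOn ℂ f (ball t₁ r₀)) (h0 : ∀ t ∈ ball t₁ r₀, f t ≠ 0) :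
    ∃ g : ℂ → ℂ, DifferentiableOn ℂ g (ball t₁ r₀) ∧ ∀ t ∈ ball t₁ r₀, f t = Complex.exp (g t) := by
  have hd : DifferentiableOn ℂ (fun t => deriv f t / f t) (ball t₁ r₀) := (hf.deriv isOpen_ball).div hf h0
  obtain ⟨G, hG⟩ := hd.isExactOn_ball
  have ht₁ : t₁ ∈ ball t₁ r₀ := mem_ball_self hr
  set c : ℂ := Complex.log (f t₁) - G t₁ with hc
  refine ⟨fun t => G t + c, fun t ht => ((hG t ht).differentiableAt.add_const c).differentiableWithinAt, fun t ht => ?_⟩
  have hd2 : DifferentiableOn ℂ (fun t => f t * Complex.exp (-(G t + c))) (ball t₁ r₀) := by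
    refine hf.mul (DifferentiableOn.cexp ?_)
    intro t ht
    exact ((hG t ht).differentiableAt.add_const c).neg.differentiableWithinAt
  have hderiv : ∀ t ∈ ball t₁ r₀, HasDerivAt (fun t => f t * Complex.exp (-(G t + c))) 0 t := by
    intro t ht
    have h1 : HasDerivAt f (deriv f t) t := (hf.differentiableAt (isOpen_ball.mem_nhds ht)).hasDerivAt
    have h2 : HasDerivAt (fun t => Complex.exp (-(G t + c))) (Complex.exp (-(G t + c)) * (-(deriv f t / f t))) t :=
      ((hG t ht).add_const c).neg.cexp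
    have h3 := h1.mul h2
    refine h3.congr_deriv ?_
    have h4 := h0 t ht
    field_simp
    ring
  have hconst := (convex_ball t₁ r₀).is_const_of_fderivWithin_eq_zero (𝕜 := ℂ) hd2 (fun t ht => by
    rw [fderivWithin_of_isOpen isOpen_ball ht]
    have h1 := (hderiv t ht).hasFDerivAt.fderiv
    rw [h1]
    ext
    simp) ht ht₁
  have h5 : f t₁ * Complex.exp (-(G t₁ + c)) = 1 := by
    rw [hc, add_sub_cancel, Complex.exp_neg, Complex.exp_log (h0 t₁ ht₁), mul_inv_cancel₀ (h0 t₁ ht₁)]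
  rw [h5, Complex.exp_neg, mul_inv_eq_iff_eq_mul₀ (Complex.exp_ne_zero _), one_mul] at hconst
  exact hconst

/-- a branch with small imaginary part at the centre -/
private theorem CellS_branch {f : ℂ → ℂ} {t₁ : ℂ} {r₀ : ℝ} (hr : 0 < r₀) (hf : DifferentiableOn ℂ f (ball t₁ r₀)) (h0 : ∀ t ∈ ball t₁ r₀, f t ≠ 0)
    {k : ℕ} (hk : 1 ≤ k) :
    ∃ g : ℂ → ℂ, DifferentiableOn ℂ g (ball t₁ r₀) ∧ |(g t₁).im| ≤ Real.pi ∧ ∀ t ∈ ball t₁ r₀, Complex.exp (g t) ^ k = f t := by
  obtain ⟨G, hG, hGe⟩ := CellS_log hr hf h0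
  have hk0 : (k : ℂ) ≠ 0 := by
    have : k ≠ 0 := by omega
    exact_mod_cast this
  have hkr : (1 : ℝ) ≤ k := by exact_mod_cast hk
  set m : ℤ := -round ((G t₁).im / (2 * Real.pi)) with hm
  refine ⟨fun t => (G t + m * (2 * Real.pi * Complex.I)) / k, (hG.add_const _).div_const _, ?_, fun t ht => ?_⟩
  · have h1 : ((G t₁ + m * (2 * Real.pi * Complex.I)) / k).im = ((G t₁).im + m * (2 * Real.pi)) / k := by
      have h2 : (k : ℂ) = ((k : ℝ) : ℂ) := by norm_cast
      rw [h2, Complex.div_ofReal_im]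
      congr 1
      have h3 : ((m : ℂ) * (2 * Real.pi * Complex.I)) = (((m : ℝ) * (2 * Real.pi) : ℝ) : ℂ) * Complex.I := by
        push_cast
        ring
      rw [h3, Complex.add_im, Complex.im_ofReal_mul, Complex.I_im, mul_one]
    show |((G t₁ + m * (2 * Real.pi * Complex.I)) / k).im| ≤ Real.pi
    rw [h1, abs_div, abs_of_pos (lt_of_lt_of_le one_pos hkr)]
    have hpi := Real.pi_pos
    have h4 := abs_sub_round ((G t₁).im / (2 * Real.pi))
    have h5 : (G t₁).im + m * (2 * Real.pi) = ((G t₁).im / (2 * Real.pi) - round ((G t₁).im / (2 * Real.pi))) * (2 * Real.pi) := by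
      rw [hm]
      push_cast
      field_simp
      ring
    rw [h5, abs_mul, abs_of_pos (by positivity : (0 : ℝ) < 2 * Real.pi), div_le_iff₀ (by linarith)]
    nlinarith
  · show Complex.exp ((G t + m * (2 * Real.pi * Complex.I)) / k) ^ k = f t
    rw [← Complex.exp_nat_mul, mul_div_cancel₀ _ hk0, Complex.exp_add, Complex.exp_int_mul_two_pi_mul_I, mul_one]
    exact (hGe t ht).symm

private theorem CellS_swp_rot (sw : Bool) (ζ : ℂ) (p : ℂ × ℂ) :
    swp sw (rot ζ p) = rot (if sw = true then ζ⁻¹ else ζ) (swp sw p) := by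
  unfold swp rot
  split_ifs
  · simp
  · rfl

private theorem CellS_pow {sw : Bool} {ζ : ℂ} {k : ℕ} (hζ : ζ ^ k = 1) : (if sw = true then ζ⁻¹ else ζ) ^ k = 1 := by
  split_ifs
  · rw [inv_pow, hζ, inv_one]
  · exact hζ

theorem exists_cell (h : EndData Xb V U D Λ u α) (F : LFam Xb V U D α κ) (x : Ix F) {z₀ : ℂ} {R : ℝ} (hR : 0 < R) {f : ℂ → EN N}
    (hf : DifferentiableOn ℂ f (ball z₀ R)) (hV : ∀ z ∈ ball z₀ R, f z ∈ V ∧ u (f z) - z ∈ Λ)
    (hp : ∀ z ∈ ball z₀ R, ∃ p, CenS p ∧ ∃ a : ℂ, a ≠ 0 ∧ f z = a • F.sS x p) :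
    ∃ g : ℂ → ℂ, DifferentiableOn ℂ g (ball z₀ R) ∧ ((F.ch x).ex = true → |(g z₀).im| ≤ Real.pi) ∧
      ∀ z ∈ ball z₀ R, CenS (F.XX x z (g z)) ∧ ∃ a : ℂ, a ≠ 0 ∧ f z = a • F.Phi x z (g z) := by
  choose! p hp1 a ha hfa using hp
  have hκ := (F.ch x).κ_ne
  have hk := (F.ch x).k_pos
  have hb3 : ∀ z ∈ ball z₀ R, p z ∈ ball (0 : ℂ × ℂ) 3 := by
    intro z hz
    rw [mem_ball_zero_iff, Prod.norm_def, max_lt_iff]
    have h1 := hp1 z hz
    exact ⟨by linarith [h1.1], by linarith [h1.2]⟩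
  have hsV : ∀ z ∈ ball z₀ R, F.sS x (p z) ∈ V := by
    intro z hz
    have h1 := h.V_smul _ (hV z hz).1 (a z)⁻¹ (inv_ne_zero (ha z hz))
    rwa [hfa z hz, smul_smul, inv_mul_cancel₀ (ha z hz), one_smul] at h1
  have hL : ∀ z ∈ ball z₀ R, Lp (F.ch x).ex (p z) ≠ 0 := fun z hz => (sS_V F x (hb3 z hz)).1 (hsV z hz)
  have hexp : ∀ z ∈ ball z₀ R, (F.ch x).κ * (p z).1 * (p z).2 ^ (F.ch x).b = Complex.exp z := by
    intro z hz
    have h1 := sS_u F x (hb3 z hz) (hsV z hz)
    rw [atl_u] at h1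
    have h2 := (h.lat _).1 (hV z hz).2
    have h3 := (h.lat _).1 (h.u_smul _ (hsV z hz) (a z) (ha z hz))
    rw [← hfa z hz] at h3
    rw [Complex.exp_sub, div_eq_one_iff_eq (Complex.exp_ne_zero _)] at h2 h3
    rw [← h1, ← h3, h2]
  have hmem : ∀ z ∈ ball z₀ R, f z ∈ (F.ch x).W ∧ (F.ch x).q (f z) = ((swp x.1.2 (p z)).1 ^ (F.ch x).k, (swp x.1.2 (p z)).2 ^ (F.ch x).k) := by
    intro z hz
    have h1 := (F.ch x).s_mem _ (swp_ball x.1.2 (hb3 z hz))
    have h2 : f z = a z • (F.ch x).s (swp x.1.2 (p z)) := hfa z hz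
    rw [h2]
    exact ⟨(F.ch x).smul_W _ h1.2.1 _ (ha z hz), by rw [(F.ch x).q_smul _ h1.2.1 _ (ha z hz), h1.2.2]⟩
  obtain ⟨Q, hQd, hQ⟩ : ∃ Q : ℂ → ℂ, DifferentiableOn ℂ Q (ball z₀ R) ∧ ∀ z ∈ ball z₀ R, Q z = (p z).2 ^ (F.ch x).k := by
    have hqd : DifferentiableOn ℂ (fun z => (F.ch x).q (f z)) (ball z₀ R) := by
      intro z hz
      have h1 := ((F.ch x).q_an _ (hmem z hz).1).differentiableAt
      have h2 := hf.differentiableAt (isOpen_ball.mem_nhds hz)
      exact (DifferentiableAt.comp (g := (F.ch x).q) z h1 h2).differentiableWithinAt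
    by_cases hs : x.1.2 = true
    · refine ⟨fun z => ((F.ch x).q (f z)).1, fun z hz => (hqd z hz).fst, fun z hz => ?_⟩
      have h1 := (hmem z hz).2
      rw [hs] at h1
      show ((F.ch x).q (f z)).1 = _
      rw [h1]
      rfl
    · refine ⟨fun z => ((F.ch x).q (f z)).2, fun z hz => (hqd z hz).snd, fun z hz => ?_⟩
      have h1 := (hmem z hz).2
      have hs' : x.1.2 = false := by simpa using hs
      rw [hs'] at h1
      show ((F.ch x).q (f z)).2 = _
      rw [h1]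
      rfl
  by_cases he : (F.ch x).ex = true
  · have hne : ∀ z ∈ ball z₀ R, (p z).1 ≠ 0 ∧ (p z).2 ≠ 0 := by
      intro z hz
      have h1 := hL z hz
      unfold Lp at h1
      rw [if_pos he, mul_ne_zero_iff] at h1
      exact h1
    obtain ⟨g, hgd, hgi, hge⟩ := CellS_branch hR hQd (fun z hz => by rw [hQ z hz]; exact pow_ne_zero _ (hne z hz).2) hk
    refine ⟨g, hgd, fun _ => hgi, fun z hz => ?_⟩
    have hE := Complex.exp_ne_zero (g z)
    have h2 := (hne z hz).2
    have hζ : ((p z).2 / Complex.exp (g z)) ^ (F.ch x).k = 1 := by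
      rw [div_pow, hge z hz, hQ z hz, div_self (pow_ne_zero _ h2)]
    have hXX : F.XX x z (g z) = rot ((p z).2 / Complex.exp (g z)) (p z) := by
      rw [XX_eq, if_pos he]
      unfold rot
      refine Prod.ext ?_ ?_
      · show (F.ch x).κ⁻¹ * Complex.exp (z - (F.ch x).b * g z) = (p z).2 / Complex.exp (g z) * (p z).1
        have h3 := hexp z hz
        rcases (F.ch x).k_eq with hk1 | hb1
        · rw [hk1, pow_one] at hζ
          rw [hζ, one_mul]
          rcases Nat.eq_zero_or_pos (F.ch x).b with hb | hb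
          · rw [hb, pow_zero, mul_one] at h3
            rw [hb, Nat.cast_zero, zero_mul, sub_zero, ← h3, inv_mul_cancel_left₀ hκ]
          · have hb1 : (F.ch x).b = 1 := le_antisymm (F.ch x).b_le hb
            rw [hb1, pow_one] at h3
            rw [div_eq_one_iff_eq hE] at hζ
            rw [hb1, Nat.cast_one, one_mul, Complex.exp_sub, ← h3, ← hζ]
            field_simp
        · rw [hb1, pow_one] at h3
          rw [hb1, Nat.cast_one, one_mul, Complex.exp_sub, ← h3]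
          field_simp
      · show Complex.exp (g z) = ((p z).2 / Complex.exp (g z))⁻¹ * (p z).2
        field_simp
    have hn := Pool.Agent.EG.RL.rot_norm hk hζ (p z)
    refine ⟨?_, ?_⟩
    · rw [hXX]
      have h4 := hp1 z hz
      exact ⟨by rw [hn.1]; exact h4.1, by rw [hn.2]; exact h4.2⟩
    · obtain ⟨c', hc', hs⟩ := (F.ch x).s_rot _ (CellS_pow (sw := x.1.2) hζ) _ (swp_ball x.1.2 (hb3 z hz))
      rw [← CellS_swp_rot, ← hXX] at hs
      refine ⟨a z * c'⁻¹, mul_ne_zero (ha z hz) (inv_ne_zero hc'), ?_⟩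
      have h5 : F.Phi x z (g z) = c' • F.sS x (p z) := hs
      rw [h5, smul_smul, mul_assoc, inv_mul_cancel₀ hc', mul_one]
      exact hfa z hz
  · have hb : (F.ch x).b = 0 := by
      have h1 := (F.ch x).b_le
      have h2 : (F.ch x).b ≠ 1 := fun h3 => he ((F.ch x).b_ex h3)
      omega
    have hk1 : (F.ch x).k = 1 := by
      rcases (F.ch x).k_eq with h1 | h1
      · exact h1
      · omega
    refine ⟨Q, hQd, fun h1 => absurd h1 he, fun z hz => ?_⟩
    have hXX : F.XX x z (Q z) = p z := by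
      have h3 := hexp z hz
      rw [hb, pow_zero, mul_one] at h3
      rw [XX_eq, if_neg he, hb, Nat.cast_zero, zero_mul, sub_zero, ← h3, inv_mul_cancel_left₀ hκ, hQ z hz, hk1, pow_one]
    unfold LFam.Phi
    rw [hXX]
    exact ⟨hp1 z hz, a z, ha z hz, hfa z hz⟩

end Pool.Agent.EG.LE
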