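import Pool.Agent.EG.LE.Defs
import Pool.Agent.H62.EF.PrA

/-!
# EG LE Cl: the fibre is closed; points with small `exp u` are near the fibre

Proof (helper41):
near_D: for x in D and every neighbourhood O of x and ε > 0 there is y in O ∩ V with ‖exp (u y)‖ < ε: y = sigma (p1, p2), p1, p2 small and ≠ 0 (chart of type T).
isClosed_D: complement of D: x = 0 ... use insert 0 D; x ∉ Xb, x ≠ 0: insert 0 Xb is closed; x in Xb \ D: D_char gives c; if x_n in D, x_n -> x, near x_n there are points of V with ‖exp u‖ < c.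
compact_pr: pr '' D is compact: pr '' (D ∩ sphere), or use H62.EF.isCompact_pr (D is a cone: IsCone D).
small: by contradiction, x_n in V with ‖exp (u x_n)‖ -> 0, ‖x_n‖ = 1 (scaling: u_smul, lat), subsequence x_n -> x, x in Xb (closed, norm 1), x in D by D_char, so x has Pt (CenB) for some i (cov) and
pt_open gives Pt for x_n: contradiction.
-/

set_option autoImplicit false

open Topology Filter Metric Set

namespace Pool.Agent.EG.LE

open Pool.Agent.H36.BP (EN fs wd)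
open Pool.Agent.H14.PP (IsCone Tan jac)
open Pool.Agent.H62.EF (MN pr)
open Pool.Agent.H62.EL (TForm)
open Pool.Agent.EG.RL (rot)

variable {N : ℕ} {Xb V U D : Set (EN N)} {Λ : AddSubgroup ℂ} {u : EN N → ℂ} {α : TForm V Λ u}

/-- near the points of the fibre there are points of `V` with small `exp u` -/
private theorem Cl_near (h : EndData Xb V U D Λ u α) {x : EN N} (hx : x ∈ D) {O : Set (EN N)} (hO : O ∈ 𝓝 x) {ε : ℝ} (hε : 0 < ε) :
    ∃ y ∈ O, y ∈ V ∧ ‖Complex.exp (u y)‖ < ε := by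
  obtain ⟨T, σ, τ, hσ, -, hσ0, -, hp, -⟩ := h.D_end x hx
  have h1 : Tendsto (fun t : ℂ => ((t, t) : ℂ × ℂ)) (𝓝[≠] 0) (𝓝 0) := by
    have h2 : Continuous fun t : ℂ => ((t, t) : ℂ × ℂ) := by fun_prop
    exact (h2.tendsto' 0 0 rfl).mono_left nhdsWithin_le_nhds
  have h2 : ∀ᶠ p in 𝓝 (0 : ℂ × ℂ), σ p ∈ O := by
    have h3 := hσ.continuousAt
    unfold ContinuousAt at h3
    rw [hσ0] at h3
    exact h3 hO
  have h3 : ∀ᶠ p in 𝓝 (0 : ℂ × ℂ), ‖p.1 * p.2 ^ T.b‖ < ε := by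
    have h4 : ContinuousAt (fun p : ℂ × ℂ => ‖p.1 * p.2 ^ T.b‖) 0 := by fun_prop
    have h5 : ‖(0 : ℂ × ℂ).1 * (0 : ℂ × ℂ).2 ^ T.b‖ < ε := by simpa using hε
    exact h4.eventually (gt_mem_nhds h5)
  obtain ⟨t, ⟨⟨⟨-, hV, -, hu⟩, hO'⟩, he⟩, ht⟩ := ((h1.eventually ((hp.and h2).and h3)).and self_mem_nhdsWithin).exists
  have ht' : t ≠ 0 := ht
  have hm : σ (t, t) ∈ V := hV.mpr ⟨ht', fun _ => ht'⟩
  refine ⟨_, hO', hm, ?_⟩
  rw [hu hm]
  exact he

theorem isCone_D (h : EndData Xb V U D Λ u α) : IsCone D := by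
  refine ⟨fun h0 => h.cone.zero_notMem (h.D_sub h0), fun x hx c hc => h.D_smul x hx c hc, ?_⟩
  refine isClosed_of_closure_subset fun x hx => ?_
  by_contra hxD
  have hx0 : x ≠ 0 := fun h0 => hxD (Or.inl h0)
  have hxD' : x ∉ D := fun h0 => hxD (Or.inr h0)
  have hxX : x ∈ Xb := by
    have h1 : closure (insert 0 D) ⊆ insert 0 Xb := closure_minimal (insert_subset_insert h.D_sub) h.cone.closed
    exact (h1 hx).resolve_left hx0
  obtain ⟨c, hc, hce⟩ := h.D_char x hxX hxD'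
  obtain ⟨O, hO, hOo, hxO⟩ := _root_.eventually_nhds_iff.mp (hce.and (isOpen_ne.mem_nhds hx0))
  obtain ⟨d, hdO, hd⟩ := mem_closure_iff.mp hx O hOo hxO
  have hdD : d ∈ D := hd.resolve_left (hO d hdO).2
  obtain ⟨y, hyO, hyV, hy⟩ := Cl_near h hdD (hOo.mem_nhds hdO) hc
  exact absurd ((hO y hyO).1 hyV) (not_le.mpr hy)

theorem tendsto_D (h : EndData Xb V U D Λ u α) {x : EN N} (hx : x ≠ 0) (𝒰 : Ultrafilter ℕ) (y : ℕ → EN N) (hy : ∀ᶠ n in (𝒰 : Filter ℕ), y n ∈ V)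
    (hxy : Tendsto (fun n => pr (y n)) 𝒰 (𝓝 (pr x))) (he : Tendsto (fun n => ‖Complex.exp (u (y n))‖) 𝒰 (𝓝 0)) : x ∈ D := by
  have key : ∀ O ∈ 𝓝 x, ∀ᶠ n in (𝒰 : Filter ℕ), ∃ c : ℂ, c ≠ 0 ∧ c • y n ∈ O := by
    intro O hO
    obtain ⟨δ, hδ, hn⟩ := Pool.Agent.H62.EF.near_of_pr hx hO
    filter_upwards [hy, hxy.eventually (ball_mem_nhds _ hδ)] with n h1 h2
    exact hn _ (fun h0 => h.cone.zero_notMem (h0 ▸ h.V_sub h1)) h2
  have hxX : x ∈ Xb := by
    have h1 : x ∈ closure Xb := by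
      rw [mem_closure_iff_nhds]
      intro O hO
      obtain ⟨n, ⟨c, hc, h2⟩, h3⟩ := ((key O hO).and hy).exists
      exact ⟨c • y n, h2, h.cone.smul_mem _ (h.V_sub h3) c hc⟩
    have h2 : closure Xb ⊆ insert 0 Xb := closure_minimal (subset_insert _ _) h.cone.closed
    exact (h2 h1).resolve_left hx
  by_contra hxD
  obtain ⟨c₀, hc₀, hce⟩ := h.D_char x hxX hxD
  obtain ⟨n, ⟨⟨c, hc, h2⟩, h3⟩, h4⟩ := (((key _ hce).and hy).and (he.eventually (gt_mem_nhds hc₀))).exists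
  have h5 : c₀ ≤ ‖Complex.exp (u (c • y n))‖ := h2 (h.V_smul _ h3 c hc)
  have h6 : Complex.exp (u (c • y n)) = Complex.exp (u (y n)) := by
    have h7 := (h.lat _).mp (h.u_smul _ h3 c hc)
    have h8 : u (c • y n) = (u (c • y n) - u (y n)) + u (y n) := by ring
    rw [h8, Complex.exp_add, h7, one_mul]
  rw [h6] at h5
  exact absurd h5 (not_le.mpr h4)

end Pool.Agent.EG.LE
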