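import Pool.Agent.H62.EL.Defs
import Pool.Agent.EG.RL.Q

/-!
# EG LE Defs: the left end of a log surface over `ℂ^*`

`Xb` is the cone over a projective surface, `U ⊆ V ⊆ Xb` are cones over open subsets (the sections are in `U`, the 2-form `α` is holomorphic on `V`),
`exp ∘ u` is a unit on `V` (`Λ = 2 π i ℤ`), `D ⊆ Xb` is the cone over the fibre over `0`.  Every point of `D` is the centre of a chart (`IsEndT`), in which `exp ∘ u` is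
`p.1 * p.2 ^ b`, `b ≤ 1`; if `ex = true` (`eu = true`) then `V` (`U`) is the complement of both axes, otherwise the complement of the axis `p.1 = 0`.  If `b = 1` (a node of the
fibre) then the chart may be the quotient by the rotations `(ζ p.1, ζ⁻¹ p.2)`, `ζ ^ k = 1`.
-/

set_option autoImplicit false

open Topology Filter Metric Set

namespace Pool.Agent.EG.LE

open Pool.Agent.H36.BP (EN fs wd)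
open Pool.Agent.H14.PP (IsCone Tan jac)
open Pool.Agent.H62.EF (MN pr)
open Pool.Agent.H62.EL (TForm)
open Pool.Agent.EG.RL (rot)

variable {N : ℕ}

/-- the equation of the boundary (without multiplicities) in a chart -/
def Lp (ex : Bool) (p : ℂ × ℂ) : ℂ := p.1 * (if ex = true then p.2 else 1)

/-- the coefficient of the form in the parametrization `σ` -/
noncomputable def cf {V : Set (EN N)} {Λ : AddSubgroup ℂ} {u : EN N → ℂ} (α : TForm V Λ u) (σ : ℂ × ℂ → EN N) (t : ℂ) (p : ℂ × ℂ) : ℂ :=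
  α.toFun t (σ p) (fderiv ℂ σ p (1, 0)) (fderiv ℂ σ p (0, 1))

/-- the type of a chart -/
structure Typ where
  /-- `V` is the complement of both axes -/
  ex : Bool
  /-- `U` is the complement of both axes -/
  eu : Bool
  /-- the exponent -/
  b : ℕ
  /-- the order of the quotient -/
  k : ℕ
  ex_eu : ex = true → eu = true
  b_le : b ≤ 1
  b_ex : b = 1 → ex = true
  k_pos : 1 ≤ k
  k_eq : k = 1 ∨ b = 1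

/-- the point `x₀` is the centre of a chart of type `T` -/
def IsEndT (Xb V U : Set (EN N)) {Λ : AddSubgroup ℂ} {u : EN N → ℂ} (α : TForm V Λ u) (T : Typ) (x₀ : EN N) : Prop :=
  ∃ (σ : ℂ × ℂ → EN N) (τ : EN N → ℂ × ℂ), AnalyticAt ℂ σ 0 ∧ AnalyticAt ℂ τ x₀ ∧ σ 0 = x₀ ∧
    (∀ᶠ q in 𝓝 ((1, 0) : ℂ × ℂ × ℂ), τ (q.1 • σ q.2) = (q.2.1 ^ T.k, q.2.2 ^ T.k)) ∧
    (∀ᶠ p in 𝓝 (0 : ℂ × ℂ), σ p ∈ Xb ∧ (σ p ∈ V ↔ p.1 ≠ 0 ∧ (T.ex = true → p.2 ≠ 0)) ∧ (σ p ∈ U ↔ p.1 ≠ 0 ∧ (T.eu = true → p.2 ≠ 0)) ∧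
      (σ p ∈ V → Complex.exp (u (σ p)) = p.1 * p.2 ^ T.b)) ∧
    (∀ W ∈ 𝓝 (0 : ℂ × ℂ), ∀ᶠ y in 𝓝 x₀, y ∈ Xb → ∃ p ∈ W, ∃ c : ℂ, c ≠ 0 ∧ y = c • σ p) ∧
    (∀ ζ : ℂ, ζ ^ T.k = 1 → ∀ᶠ p in 𝓝 (0 : ℂ × ℂ), ∃ c : ℂ, c ≠ 0 ∧ σ (rot ζ p) = c • σ p) ∧
    ∃ C : ℝ, ∀ᶠ p in 𝓝 (0 : ℂ × ℂ), Lp T.ex p ≠ 0 → ∀ t : ℂ, Complex.exp t = p.1 * p.2 ^ T.b → ‖Lp T.ex p * cf α σ t p‖ ≤ C

/-- the data near the left end -/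
structure EndData (Xb V U D : Set (EN N)) (Λ : AddSubgroup ℂ) (u : EN N → ℂ) (α : TForm V Λ u) : Prop where
  cone : IsCone Xb
  lat : ∀ w : ℂ, w ∈ Λ ↔ Complex.exp w = 1
  V_sub : V ⊆ Xb
  U_sub : U ⊆ V
  V_smul : ∀ x ∈ V, ∀ c : ℂ, c ≠ 0 → c • x ∈ V
  U_smul : ∀ x ∈ U, ∀ c : ℂ, c ≠ 0 → c • x ∈ U
  V_open : ∀ x ∈ V, ∀ᶠ y in 𝓝 x, y ∈ Xb → y ∈ V
  u_smul : ∀ x ∈ V, ∀ c : ℂ, c ≠ 0 → u (c • x) - u x ∈ Λ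
  u_loc : ∀ x ∈ V, ∃ v : EN N → ℂ, AnalyticAt ℂ v x ∧ ∀ᶠ y in 𝓝 x, y ∈ V → u y - v y ∈ Λ
  D_sub : D ⊆ Xb
  D_smul : ∀ x ∈ D, ∀ c : ℂ, c ≠ 0 → c • x ∈ D
  D_char : ∀ x ∈ Xb, x ∉ D → ∃ c : ℝ, 0 < c ∧ ∀ᶠ y in 𝓝 x, y ∈ V → c ≤ ‖Complex.exp (u y)‖
  D_end : ∀ x ∈ D, ∃ T : Typ, IsEndT Xb V U α T x
  D_fin : (pr '' {x | x ∈ D ∧ ¬ ∃ T : Typ, T.ex = false ∧ IsEndT Xb V U α T x}).Finite
  hyp : ∃ R : Set (EN N), (∀ x ∈ D, x ∈ R ∨ ∃ T : Typ, T.eu = true ∧ IsEndT Xb V U α T x) ∧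
    ∀ F : ℂ → EN N, Differentiable ℂ F → (∀ z, F z ∈ R) → ∀ z w, ∃ c : ℂ, F z = c • F w

/-- the holomorphic sections over `Ω` -/
def SecOn (U : Set (EN N)) (Λ : AddSubgroup ℂ) (u : EN N → ℂ) (Ω : Set ℂ) (F : ℂ → EN N) : Prop :=
  DifferentiableOn ℂ F Ω ∧ ∀ z ∈ Ω, F z ∈ U ∧ u (F z) - z ∈ Λ

/-- the holomorphic sections over `Ω`, in projective space -/
def TT (U : Set (EN N)) (Λ : AddSubgroup ℂ) (u : EN N → ℂ) (Ω : Set ℂ) : Set (ℂ → MN N) :=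
  {f | ∃ F : ℂ → EN N, SecOn U Λ u Ω F ∧ ∀ z ∈ Ω, f z = pr (F z)}

/-- `II` is the integral of `α / dz` along short paths in the fibres, from one section to another one, for `W₀ ≤ Re z ≤ W₁` -/
def HasII {V : Set (EN N)} (U : Set (EN N)) {Λ : AddSubgroup ℂ} {u : EN N → ℂ} (α : TForm V Λ u) (II : ℂ → MN N → MN N → ℂ) (r₂ W₀ W₁ : ℝ) : Prop :=
  ∃ ε₁ : ℝ, 0 < ε₁ ∧ ∀ (z w₀ w₁ : ℂ) (Φ : ℂ × ℂ → EN N) (f g : ℂ → EN N), W₀ ≤ z.re → z.re ≤ W₁ →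
    SecOn U Λ u (ball z r₂) f → SecOn U Λ u (ball z r₂) g → pr (f z) = pr (Φ (z, w₀)) → pr (g z) = pr (Φ (z, w₁)) →
    (∀ θ ∈ Icc (0 : ℝ) 1, AnalyticAt ℂ Φ (z, w₀ + θ * (w₁ - w₀)) ∧ ∀ᶠ q in 𝓝 (z, w₀ + θ * (w₁ - w₀)), Φ q ∈ V ∧ u (Φ q) - q.1 ∈ Λ) →
    (∀ θ ∈ Icc (0 : ℝ) 1, dist (pr (Φ (z, w₀ + θ * (w₁ - w₀)))) (pr (Φ (z, w₀))) ≤ ε₁) →
    II z (pr (Φ (z, w₀))) (pr (Φ (z, w₁))) = ∫ θ in (0 : ℝ)..1, (w₁ - w₀) * cf α Φ z (z, w₀ + θ * (w₁ - w₀))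

/-- the small central part of the bidisc -/
def CenS (p : ℂ × ℂ) : Prop := ‖p.1‖ < 3 / 8 ∧ ‖p.2‖ < 7 / 8

/-- a chart near the fibre over `0`, on the bidisc of radius `3` -/
structure LCh (Xb V U : Set (EN N)) {Λ : AddSubgroup ℂ} {u : EN N → ℂ} (α : TForm V Λ u) extends Typ where
  /-- the parametrization -/
  s : ℂ × ℂ → EN N
  /-- the powers of the coordinates -/
  q : EN N → ℂ × ℂ
  /-- the domain -/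
  W : Set (EN N)
  /-- the constant -/
  κ : ℂ
  κ_ne : κ ≠ 0
  isOpen_W : IsOpen W
  smul_W : ∀ x ∈ W, ∀ c : ℂ, c ≠ 0 → c • x ∈ W
  q_an : ∀ x ∈ W, AnalyticAt ℂ q x
  q_smul : ∀ x ∈ W, ∀ c : ℂ, c ≠ 0 → q (c • x) = q x
  s_an : ∀ p ∈ ball (0 : ℂ × ℂ) 3, AnalyticAt ℂ s p
  s_mem : ∀ p ∈ ball (0 : ℂ × ℂ) 3, s p ∈ Xb ∧ s p ∈ W ∧ q (s p) = (p.1 ^ k, p.2 ^ k)
  s_V : ∀ p ∈ ball (0 : ℂ × ℂ) 3, (s p ∈ V ↔ p.1 ≠ 0 ∧ (ex = true → p.2 ≠ 0))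
  s_U : ∀ p ∈ ball (0 : ℂ × ℂ) 3, (s p ∈ U ↔ p.1 ≠ 0 ∧ (eu = true → p.2 ≠ 0))
  s_u : ∀ p ∈ ball (0 : ℂ × ℂ) 3, s p ∈ V → Complex.exp (u (s p)) = κ * p.1 * p.2 ^ b
  surj : ∀ x ∈ Xb, x ∈ W → ∃ p ∈ ball (0 : ℂ × ℂ) 3, ∃ c : ℂ, c ≠ 0 ∧ x = c • s p
  s_rot : ∀ ζ : ℂ, ζ ^ k = 1 → ∀ p ∈ ball (0 : ℂ × ℂ) 3, ∃ c : ℂ, c ≠ 0 ∧ s (rot ζ p) = c • s p
  bd : ∃ C : ℝ, ∀ p ∈ ball (0 : ℂ × ℂ) 3, Lp ex p ≠ 0 → ∀ t : ℂ, Complex.exp t = κ * p.1 * p.2 ^ b → ‖Lp ex p * cf α s t p‖ ≤ C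

variable {Xb V U D : Set (EN N)} {Λ : AddSubgroup ℂ} {u : EN N → ℂ} {α : TForm V Λ u}

/-- `x` is a point of the chart with coordinates in `A` -/
def LCh.Pt (c : LCh Xb V U α) (A : Set (ℂ × ℂ)) (x : EN N) : Prop := ∃ p ∈ A, ∃ a : ℂ, a ≠ 0 ∧ x = a • c.s p

/-- the central part, for nodes in both directions -/
def CenB (b : ℕ) : Set (ℂ × ℂ) := {p | CenS p ∨ b = 1 ∧ CenS p.swap}

/-- a finite family of charts which covers a neighbourhood of the fibre over `0` -/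
structure LFam (Xb V U D : Set (EN N)) {Λ : AddSubgroup ℂ} {u : EN N → ℂ} (α : TForm V Λ u) (κ : Type) where
  /-- the charts -/
  c : κ → LCh Xb V U α
  fin : Finite κ
  sep : ∀ i j, i ≠ j → (c i).ex = true → ∀ p : ℂ × ℂ, ‖p.1‖ ≤ 1 / 2 → ‖p.2‖ ≤ 1 / 2 → (c i).s p ∉ (c j).W
  cov : ∀ x ∈ D, ∃ i, (c i).Pt (CenB (c i).b) x

end Pool.Agent.EG.LE
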