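import Pool.Agent.EG.LE.Lim
import Pool.Agent.H36.BP.WdA

/-!
# EG LE Der: derivatives of the sections in the ends

Proof (helper41):
resc: the rescaling lemma (copy of rescale_fs_half in H62/EL/Zl.lean, for a curve on the unit disc only).
der_bound: suppose not: for every n there are z n with Re (z n) ≤ -n and F n, SecOn on ball (z n) 1, with fs > 4 (n + 1).  resc for ζ ↦ F n (z n + ζ) gives w n, a n with
G n ζ := F n (z n + w n + ζ / a n), fs (G n 0) (deriv (G n) 0) = 1, fs ≤ 2 on ball 0 (n + 1), G n is defined there (‖w n‖ ≤ 1/2, (n+1) / a n < 1/4).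
‖exp (u (G n ζ))‖ = exp (Re (z n + w n + ζ / a n)) ≤ exp (-n + 1) (u (F z) - z in Lambda, lat) -> 0.  lim_const (𝒰 := hyperfilter ℕ, L = 2, ρ n = n + 1): fs (G n 0) (..) -> 0, but it is 1.
der_small: suppose not for some ε, R: for every n there are z n, Re (z n) ≤ -n - ..., F n SecOn on ball (z n) (n + 2), and a point w in closedBall (z n) R with fs ≥ ε or dist (pr (F n w)) (pr (F n (z n))) ≥ ε.
By der_bound fs (F n) ≤ L on ball (z n) (n + 1) intersected with {Re ≤ -X0}: choose Re (z n) ≤ -2 n - 2 - X0, so that the whole ball is there.  lim_const, lim_unif for ζ ↦ F n (z n + ζ) on ball 0 n: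
dist (pr (F n (z n + ζ))) (pr x0) < ε / 2 on closedBall 0 R: contradiction for the distance; for fs at the points w n = z n + ζ n: translate by ζ n as well (F n (z n + ζ n + ζ)), so fs at 0 -> 0.
-/

set_option autoImplicit false

open Topology Filter Metric Set

namespace Pool.Agent.EG.LE

open Pool.Agent.H36.BP (EN fs wd)
open Pool.Agent.H14.PP (IsCone Tan jac)
open Pool.Agent.H62.EF (MN pr)
open Pool.Agent.H62.EL (TForm)

variable {N : ℕ} {Xb V U D : Set (EN N)} {Λ : AddSubgroup ℂ} {u : EN N → ℂ} {α : TForm V Λ u}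

theorem resc {F : ℂ → EN N} (hF : DifferentiableOn ℂ F (ball 0 1)) (h0 : ∀ z ∈ ball (0 : ℂ) 1, F z ≠ 0) (n : ℕ)
    (hbig : 4 * ((n : ℝ) + 1) < fs (F 0) (deriv F 0)) :
    ∃ (z₀ : ℂ) (a : ℝ), ‖z₀‖ ≤ 1 / 2 ∧ 4 * ((n : ℝ) + 1) < a ∧ fs (F z₀) (deriv (fun ζ => F (z₀ + ((a⁻¹ : ℝ) : ℂ) * ζ)) 0) = 1 ∧
      ∀ ζ ∈ ball (0 : ℂ) (n + 1), ‖z₀ + ((a⁻¹ : ℝ) : ℂ) * ζ‖ < 1 ∧
        fs (F (z₀ + ((a⁻¹ : ℝ) : ℂ) * ζ)) (deriv (fun ζ => F (z₀ + ((a⁻¹ : ℝ) : ℂ) * ζ)) ζ) ≤ 2 := by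
  have hn : (0 : ℝ) ≤ n := Nat.cast_nonneg n
  have hsub : closedBall (0 : ℂ) (1 / 2) ⊆ ball (0 : ℂ) 1 := closedBall_subset_ball (by norm_num)
  have hFc : ContinuousOn F (closedBall (0 : ℂ) (1 / 2)) := hF.continuousOn.mono hsub
  have hF'c : ContinuousOn (deriv F) (closedBall (0 : ℂ) (1 / 2)) := (hF.deriv isOpen_ball).continuousOn.mono hsub
  have hgc : ContinuousOn (fun z : ℂ => fs (F z) (deriv F z)) (closedBall (0 : ℂ) (1 / 2)) := by
    unfold fs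
    refine (Pool.Agent.H36.BP.wd_cont.comp_continuousOn (hFc.prodMk hF'c)).div (hFc.norm.pow 2) ?_
    intro z hz
    exact pow_ne_zero 2 (norm_ne_zero_iff.mpr (h0 z (hsub hz)))
  set g : ℂ → ℝ := fun z => fs (F z) (deriv F z) * (1 / 2 - ‖z‖) with hg
  have hgc' : ContinuousOn g (closedBall (0 : ℂ) (1 / 2)) := hgc.mul (continuous_const.sub continuous_norm).continuousOn
  obtain ⟨z₀, hz₀, hmax⟩ := (isCompact_closedBall (0 : ℂ) (1 / 2)).exists_isMaxOn ⟨0, by simp⟩ hgc'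
  have hz₀n : ‖z₀‖ ≤ 1 / 2 := by simpa using hz₀
  have hg0z : g 0 ≤ g z₀ := hmax (by simp : (0 : ℂ) ∈ closedBall (0 : ℂ) (1 / 2))
  have hg0 : g 0 = fs (F 0) (deriv F 0) / 2 := by simp only [hg, norm_zero]; ring
  have hm : 2 * ((n : ℝ) + 1) < g z₀ := by rw [hg0] at hg0z; linarith
  set d : ℝ := 1 / 2 - ‖z₀‖ with hd
  have hd0 : 0 ≤ d := by rw [hd]; linarith
  set a : ℝ := fs (F z₀) (deriv F z₀) with ha
  have ha0 : 0 ≤ a := Pool.Agent.H36.BP.fs_nonneg _ _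
  have hgz : g z₀ = a * d := rfl
  have hpos : 0 < a * d := by rw [← hgz]; linarith
  have hapos : 0 < a := by
    rcases ha0.lt_or_eq with h | h
    · exact h
    · rw [← h] at hpos; simp at hpos
  have hdpos : 0 < d := by
    rcases hd0.lt_or_eq with h | h
    · exact h
    · rw [← h] at hpos; simp at hpos
  have hd2 : d ≤ 1 / 2 := by rw [hd]; linarith [norm_nonneg z₀]
  have haL : 4 * ((n : ℝ) + 1) < a := by
    have h1 : a * d ≤ a * (1 / 2) := mul_le_mul_of_nonneg_left hd2 ha0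
    rw [hgz] at hm
    linarith
  set φ : ℂ → ℂ := fun ζ => z₀ + ((a⁻¹ : ℝ) : ℂ) * ζ with hφ
  have hφd : ∀ ζ, HasDerivAt φ ((a⁻¹ : ℝ) : ℂ) ζ := by
    intro ζ
    have := ((hasDerivAt_id ζ).const_mul ((a⁻¹ : ℝ) : ℂ)).const_add z₀
    simpa [hφ] using this
  have hkey : ∀ ζ ∈ ball (0 : ℂ) (n + 1), ‖φ ζ‖ ≤ 1 / 2 - d / 2 := by
    intro ζ hζ
    have hζn : ‖ζ‖ < n + 1 := by simpa using hζ
    have h1 : ‖φ ζ‖ ≤ ‖z₀‖ + a⁻¹ * ‖ζ‖ := by
      calc ‖φ ζ‖ ≤ ‖z₀‖ + ‖((a⁻¹ : ℝ) : ℂ) * ζ‖ := norm_add_le _ _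
        _ = ‖z₀‖ + a⁻¹ * ‖ζ‖ := by
          rw [norm_mul, Complex.norm_real, Real.norm_of_nonneg (by positivity)]
    have h2 : a⁻¹ * ‖ζ‖ ≤ d / 2 := by
      rw [inv_mul_le_iff₀ hapos]
      rw [hgz] at hm
      linarith
    have h3 : ‖z₀‖ = 1 / 2 - d := by rw [hd]; ring
    linarith
  have hball : ∀ ζ ∈ ball (0 : ℂ) (n + 1), φ ζ ∈ closedBall (0 : ℂ) (1 / 2) := by
    intro ζ hζ
    have := hkey ζ hζ
    rw [mem_closedBall_zero_iff]
    linarith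
  have hder : ∀ ζ, φ ζ ∈ closedBall (0 : ℂ) (1 / 2) → deriv (fun ζ => F (φ ζ)) ζ = ((a⁻¹ : ℝ) : ℂ) • deriv F (φ ζ) := by
    intro ζ hζ
    exact ((hF.differentiableAt (isOpen_ball.mem_nhds (hsub hζ))).hasDerivAt.scomp ζ (hφd ζ)).deriv
  have hfs : ∀ ζ, φ ζ ∈ closedBall (0 : ℂ) (1 / 2) → fs (F (φ ζ)) (deriv (fun ζ => F (φ ζ)) ζ) = a⁻¹ * fs (F (φ ζ)) (deriv F (φ ζ)) := by
    intro ζ hζ
    rw [hder ζ hζ, Pool.Agent.H36.BP.fs_smul_right, Complex.norm_real, Real.norm_of_nonneg (by positivity)]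
  have hφ0 : φ 0 = z₀ := by simp [hφ]
  refine ⟨z₀, a, hz₀n, haL, ?_, ?_⟩
  · have h1 := hfs 0 (by rw [hφ0]; exact hz₀)
    rw [hφ0, ← ha, inv_mul_cancel₀ hapos.ne'] at h1
    exact h1
  · intro ζ hζ
    refine ⟨?_, ?_⟩
    · have h1 : ‖φ ζ‖ ≤ 1 / 2 - d / 2 := hkey ζ hζ
      have h2 : ‖z₀ + ((a⁻¹ : ℝ) : ℂ) * ζ‖ ≤ 1 / 2 - d / 2 := h1
      linarith
    change fs (F (φ ζ)) (deriv (fun ζ => F (φ ζ)) ζ) ≤ 2
    rw [hfs ζ (hball ζ hζ)]
    have h1 : g (φ ζ) ≤ g z₀ := hmax (hball ζ hζ)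
    have h2 := hkey ζ hζ
    have h3 : fs (F (φ ζ)) (deriv F (φ ζ)) * (1 / 2 - ‖φ ζ‖) ≤ a * d := h1
    have h4 : 0 ≤ fs (F (φ ζ)) (deriv F (φ ζ)) := Pool.Agent.H36.BP.fs_nonneg _ _
    have h5 : fs (F (φ ζ)) (deriv F (φ ζ)) * (d / 2) ≤ a * d :=
      le_trans (mul_le_mul_of_nonneg_left (by linarith) h4) h3
    have h6 : fs (F (φ ζ)) (deriv F (φ ζ)) ≤ 2 * a := by
      by_contra hc
      push Not at hc
      have : 2 * a * (d / 2) < fs (F (φ ζ)) (deriv F (φ ζ)) * (d / 2) := mul_lt_mul_of_pos_right hc (by linarith)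
      linarith
    rw [inv_mul_le_iff₀ hapos]
    linarith

private theorem der_ne_zero (h : EndData Xb V U D Λ u α) {x : EN N} (hx : x ∈ U) : x ≠ 0 := by
  intro h0
  exact h.cone.zero_notMem (h0 ▸ h.V_sub (h.U_sub hx))

/-- the exponential of the value of `u` on a section -/
private theorem der_exp (h : EndData Xb V U D Λ u α) {x : EN N} {z : ℂ} (hx : u x - z ∈ Λ) :
    ‖Complex.exp (u x)‖ = Real.exp z.re := by
  have h1 : Complex.exp (u x - z) = 1 := (h.lat _).mp hx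
  have h2 : Complex.exp (u x) = Complex.exp z := by
    have : u x = (u x - z) + z := by ring
    rw [this, Complex.exp_add, h1, one_mul]
  rw [h2, Complex.norm_exp]

/-- if `‖exp (u (G n z))‖` is at most `exp (1 - n)` for large `n` then it tends to zero -/
private theorem der_tends {g : ℕ → ℝ} (hg0 : ∀ n, 0 ≤ g n) (hg : ∀ᶠ n in (hyperfilter ℕ : Filter ℕ), g n ≤ Real.exp (1 - (n : ℝ))) :
    Tendsto g (hyperfilter ℕ) (𝓝 0) := by
  have h1 : Tendsto (fun n : ℕ => Real.exp (1 - (n : ℝ))) atTop (𝓝 0) := by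
    refine Real.tendsto_exp_atBot.comp ?_
    have h2 : Tendsto (fun n : ℕ => -(n : ℝ)) atTop atBot := tendsto_neg_atTop_atBot.comp tendsto_natCast_atTop_atTop
    exact (tendsto_atBot_add_const_left _ 1 h2).congr fun n => by ring
  have h3 : Tendsto (fun n : ℕ => Real.exp (1 - (n : ℝ))) (hyperfilter ℕ) (𝓝 0) := h1.mono_left Nat.hyperfilter_le_atTop
  exact tendsto_of_tendsto_of_tendsto_of_le_of_le' tendsto_const_nhds h3 (Eventually.of_forall hg0) hg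

private theorem der_rho (c : ℝ) : Tendsto (fun n : ℕ => (n : ℝ) + c) (hyperfilter ℕ) atTop :=
  (tendsto_atTop_add_const_right _ c tendsto_natCast_atTop_atTop).mono_left Nat.hyperfilter_le_atTop

private theorem der_ev (p : ℕ → Prop) (c : ℝ) (hp : ∀ n : ℕ, c ≤ (n : ℝ) → p n) : ∀ᶠ n in (hyperfilter ℕ : Filter ℕ), p n := by
  have h1 : ∀ᶠ n : ℕ in atTop, c ≤ (n : ℝ) := tendsto_natCast_atTop_atTop.eventually_ge_atTop c
  exact (h1.mono hp).filter_mono Nat.hyperfilter_le_atTop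

theorem der_bound (h : EndData Xb V U D Λ u α) : ∃ L X₀ : ℝ, 0 < L ∧ ∀ (z₀ : ℂ) (F : ℂ → EN N), z₀.re ≤ -X₀ → SecOn U Λ u (ball z₀ 1) F →
    fs (F z₀) (deriv F z₀) ≤ L := by
  by_contra hcon
  push Not at hcon
  have hbig : ∀ n : ℕ, ∃ (z : ℂ) (F : ℂ → EN N), z.re ≤ -(n : ℝ) ∧ SecOn U Λ u (ball z 1) F ∧ 4 * ((n : ℝ) + 1) < fs (F z) (deriv F z) :=
    fun n => hcon _ n (by positivity)
  choose z F hz hF hb using hbig
  have hmem : ∀ (n : ℕ) (v : ℂ), ‖v‖ < 1 → z n + v ∈ ball (z n) 1 := by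
    intro n v hv
    simpa [mem_ball, dist_eq_norm] using hv
  have hres : ∀ n : ℕ, ∃ (w : ℂ) (a : ℝ), ‖w‖ ≤ 1 / 2 ∧ 4 * ((n : ℝ) + 1) < a ∧
      fs (F n (z n + w)) (deriv (fun ζ => F n (z n + (w + ((a⁻¹ : ℝ) : ℂ) * ζ))) 0) = 1 ∧
      ∀ ζ ∈ ball (0 : ℂ) (n + 1), ‖w + ((a⁻¹ : ℝ) : ℂ) * ζ‖ < 1 ∧
        fs (F n (z n + (w + ((a⁻¹ : ℝ) : ℂ) * ζ))) (deriv (fun ζ => F n (z n + (w + ((a⁻¹ : ℝ) : ℂ) * ζ))) ζ) ≤ 2 := by
    intro n
    have hd : DifferentiableOn ℂ (fun ζ => F n (z n + ζ)) (ball 0 1) := by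
      refine (hF n).1.comp (by fun_prop) ?_
      intro ζ hζ
      exact hmem n ζ (by simpa using hζ)
    refine resc hd ?_ n ?_
    · intro ζ hζ
      exact der_ne_zero h ((hF n).2 _ (hmem n ζ (by simpa using hζ))).1
    · have h1 : deriv (fun ζ => F n (z n + ζ)) 0 = deriv (F n) (z n) := by
        rw [deriv_comp_const_add, add_zero]
      rw [h1, add_zero]
      exact hb n
  choose w a hw ha h1 h2 using hres
  have hre : ∀ (n : ℕ) (v : ℂ), ‖v‖ < 1 → (z n + v).re ≤ 1 - (n : ℝ) := by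
    intro n v hv
    have h3 := hz n
    have h4 : v.re ≤ ‖v‖ := Complex.re_le_norm v
    rw [Complex.add_re]
    linarith
  obtain ⟨x₀, -, -, hlim⟩ := lim_const h (L := 2) two_pos (hyperfilter ℕ)
    (fun n ζ => F n (z n + (w n + (((a n)⁻¹ : ℝ) : ℂ) * ζ))) (fun n => (n : ℝ) + 1) (der_rho 1)
    (Eventually.of_forall fun n => ⟨by
      refine (hF n).1.comp (by fun_prop) ?_
      intro ζ hζ
      exact hmem n _ (h2 n ζ hζ).1, fun ζ hζ => ⟨((hF n).2 _ (hmem n _ (h2 n ζ hζ).1)).1, (h2 n ζ hζ).2⟩⟩)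
    (by
      intro ζ
      refine der_tends (fun n => norm_nonneg _) (der_ev _ ‖ζ‖ fun n hn => ?_)
      have hζ : ζ ∈ ball (0 : ℂ) (n + 1) := by
        rw [mem_ball_zero_iff]; linarith
      have h3 := h2 n ζ hζ
      rw [der_exp h ((hF n).2 _ (hmem n _ h3.1)).2]
      exact Real.exp_le_exp.mpr (hre n _ h3.1))
  have h3 := hlim 0
  have h4 : (fun n : ℕ => fs (F n (z n + (w n + (((a n)⁻¹ : ℝ) : ℂ) * 0)))
      (deriv (fun ζ => F n (z n + (w n + (((a n)⁻¹ : ℝ) : ℂ) * ζ))) 0)) = fun _ => (1 : ℝ) := by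
    funext n
    rw [mul_zero, add_zero]
    exact h1 n
  rw [h4] at h3
  have h5 : (1 : ℝ) = 0 := tendsto_nhds_unique tendsto_const_nhds h3
  exact one_ne_zero h5

theorem der_small (h : EndData Xb V U D Λ u α) (R ε : ℝ) (hε : 0 < ε) : ∃ r X₀ : ℝ, 0 < r ∧ R < r ∧ ∀ (z₀ : ℂ) (F : ℂ → EN N), z₀.re ≤ -X₀ →
    SecOn U Λ u (ball z₀ r) F → ∀ z ∈ closedBall z₀ R, fs (F z) (deriv F z) < ε ∧ dist (pr (F z)) (pr (F z₀)) < ε := by
  obtain ⟨L, X₀, hL, hbd⟩ := der_bound h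
  by_contra hcon
  push Not at hcon
  have hbig : ∀ n : ℕ, ∃ (z : ℂ) (F : ℂ → EN N), z.re ≤ -(2 * (n : ℝ) + 2 + |X₀| + |R|) ∧ SecOn U Λ u (ball z ((n : ℝ) + 2 + |R|)) F ∧
      ∃ w ∈ closedBall z R, fs (F w) (deriv F w) < ε → ε ≤ dist (pr (F w)) (pr (F z)) :=
    fun n => hcon ((n : ℝ) + 2 + |R|) _ (by positivity) (by
      have := le_abs_self R
      have h2 : (0 : ℝ) ≤ n := Nat.cast_nonneg n
      linarith)
  choose z F hz hF w hw hb using hbig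
  have hX0 := neg_abs_le X₀
  have hX1 := le_abs_self X₀
  have hR0 := abs_nonneg R
  have hR1 := le_abs_self R
  -- the bound of the derivatives on the ball of radius `n + 1 + |R|`
  have hbd' : ∀ (n : ℕ) (v : ℂ), ‖v‖ < (n : ℝ) + 1 + |R| → fs (F n (z n + v)) (deriv (F n) (z n + v)) ≤ L := by
    intro n v hv
    have h1 : (z n + v).re ≤ -X₀ := by
      have h3 := hz n
      have h4 : v.re ≤ ‖v‖ := Complex.re_le_norm v
      have h5 : (0 : ℝ) ≤ n := Nat.cast_nonneg n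
      rw [Complex.add_re]
      linarith
    refine hbd _ _ h1 ⟨(hF n).1.mono ?_, fun y hy => (hF n).2 y ?_⟩
    · refine ball_subset_ball' ?_
      rw [dist_eq_norm, add_sub_cancel_left]
      linarith
    · refine ball_subset_ball' ?_ hy
      rw [dist_eq_norm, add_sub_cancel_left]
      linarith
  -- the limit of the translates of `F n`
  have hkey : ∀ v : ℕ → ℂ, (∀ n, ‖v n‖ ≤ |R|) → ∃ x₀ ∈ D, (∀ ζ, Tendsto (fun n => pr (F n (z n + (v n + ζ)))) (hyperfilter ℕ) (𝓝 (pr x₀))) ∧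
      (∀ ζ, Tendsto (fun n => fs (F n (z n + (v n + ζ))) (deriv (fun ζ => F n (z n + (v n + ζ))) ζ)) (hyperfilter ℕ) (𝓝 0)) ∧
      ∀ S δ : ℝ, 0 < δ → ∀ᶠ n in (hyperfilter ℕ : Filter ℕ), ∀ ζ ∈ closedBall (0 : ℂ) S, dist (pr (F n (z n + (v n + ζ)))) (pr x₀) < δ := by
    intro v hv
    have hdiff : ∀ n : ℕ, DifferentiableOn ℂ (fun ζ => F n (z n + (v n + ζ))) (ball 0 ((n : ℝ) + 1)) := by
      intro n
      refine (hF n).1.comp (by fun_prop) ?_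
      intro ζ hζ
      have h1 : ‖ζ‖ < (n : ℝ) + 1 := by simpa using hζ
      have h2 : ‖v n + ζ‖ ≤ ‖v n‖ + ‖ζ‖ := norm_add_le _ _
      have h3 := hv n
      rw [mem_ball, dist_eq_norm, add_sub_cancel_left]
      linarith
    have hder : ∀ (n : ℕ) (ζ : ℂ), deriv (fun ζ => F n (z n + (v n + ζ))) ζ = deriv (F n) (z n + (v n + ζ)) := by
      intro n ζ
      rw [deriv_comp_const_add (f := fun ζ => F n (z n + ζ)), deriv_comp_const_add]
    have hlen : ∀ (n : ℕ) (ζ : ℂ), ζ ∈ ball (0 : ℂ) ((n : ℝ) + 1) → ‖v n + ζ‖ < (n : ℝ) + 1 + |R| := by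
      intro n ζ hζ
      have h1 : ‖ζ‖ < (n : ℝ) + 1 := by simpa using hζ
      have h2 : ‖v n + ζ‖ ≤ ‖v n‖ + ‖ζ‖ := norm_add_le _ _
      have h3 := hv n
      linarith
    have hU : ∀ (n : ℕ) (ζ : ℂ), ζ ∈ ball (0 : ℂ) ((n : ℝ) + 1) → z n + (v n + ζ) ∈ ball (z n) ((n : ℝ) + 2 + |R|) := by
      intro n ζ hζ
      have h1 := hlen n ζ hζ
      rw [mem_ball, dist_eq_norm, add_sub_cancel_left]
      linarith
    have hfs : ∀ (n : ℕ) (ζ : ℂ), ζ ∈ ball (0 : ℂ) ((n : ℝ) + 1) →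
        fs (F n (z n + (v n + ζ))) (deriv (fun ζ => F n (z n + (v n + ζ))) ζ) ≤ L := by
      intro n ζ hζ
      rw [hder]
      exact hbd' n _ (hlen n ζ hζ)
    obtain ⟨x₀, hx₀, hpr, hfs0⟩ := lim_const h hL (hyperfilter ℕ) (fun n ζ => F n (z n + (v n + ζ))) (fun n => (n : ℝ) + 1) (der_rho 1)
      (Eventually.of_forall fun n => ⟨hdiff n, fun ζ hζ => ⟨((hF n).2 _ (hU n ζ hζ)).1, hfs n ζ hζ⟩⟩)
      (by
        intro ζ
        refine der_tends (fun n => norm_nonneg _) (der_ev _ ‖ζ‖ fun n hn => ?_)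
        have hζ : ζ ∈ ball (0 : ℂ) ((n : ℝ) + 1) := by
          rw [mem_ball_zero_iff]; linarith
        rw [der_exp h ((hF n).2 _ (hU n ζ hζ)).2]
        refine Real.exp_le_exp.mpr ?_
        have h3 := hz n
        have h4 : (v n + ζ).re ≤ ‖v n + ζ‖ := Complex.re_le_norm _
        have h5 := hlen n ζ hζ
        have h6 : (0 : ℝ) ≤ n := Nat.cast_nonneg n
        have h7 : 0 ≤ |X₀| := abs_nonneg X₀
        rw [Complex.add_re]
        linarith)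
    refine ⟨x₀, hx₀, hpr, hfs0, fun S δ hδ => ?_⟩
    exact lim_unif h.cone hL (hyperfilter ℕ) (fun n ζ => F n (z n + (v n + ζ))) (fun n => (n : ℝ) + 1) (der_rho 1)
      (Eventually.of_forall fun n => ⟨hdiff n, fun ζ hζ => ⟨h.V_sub (h.U_sub ((hF n).2 _ (hU n ζ hζ)).1), hfs n ζ hζ⟩⟩) hpr S δ hδ
  have hwR : ∀ n, ‖w n - z n‖ ≤ |R| := by
    intro n
    have h1 := hw n
    rw [mem_closedBall, dist_eq_norm] at h1
    linarith
  obtain ⟨x₀, -, -, -, hun⟩ := hkey (fun _ => 0) (fun n => by simp)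
  obtain ⟨x₁, -, -, hfs1, -⟩ := hkey (fun n => w n - z n) hwR
  have e1 : ∀ᶠ n in (hyperfilter ℕ : Filter ℕ), fs (F n (w n)) (deriv (F n) (w n)) < ε := by
    have h1 := (hfs1 0).eventually_lt_const hε
    refine h1.mono fun n hn => ?_
    have h2 : z n + (w n - z n + 0) = w n := by ring
    have h3 : deriv (fun ζ => F n (z n + (w n - z n + ζ))) 0 = deriv (F n) (w n) := by
      rw [deriv_comp_const_add (f := fun ζ => F n (z n + ζ)), deriv_comp_const_add, h2]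
    rw [h3, h2] at hn
    exact hn
  have e2 : ∀ᶠ n in (hyperfilter ℕ : Filter ℕ), dist (pr (F n (w n))) (pr (F n (z n))) < ε := by
    refine (hun |R| (ε / 2) (half_pos hε)).mono fun n hn => ?_
    have h1 := hn (w n - z n) (by rw [mem_closedBall_zero_iff]; exact hwR n)
    have h2 := hn 0 (by rw [mem_closedBall_zero_iff, norm_zero]; exact hR0)
    have h3 : z n + (0 + (w n - z n)) = w n := by ring
    have h4 : z n + ((0 : ℂ) + 0) = z n := by ring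
    rw [h3] at h1
    rw [h4] at h2
    calc dist (pr (F n (w n))) (pr (F n (z n))) ≤ dist (pr (F n (w n))) (pr x₀) + dist (pr (F n (z n))) (pr x₀) := dist_triangle_right _ _ _
      _ < ε / 2 + ε / 2 := add_lt_add h1 h2
      _ = ε := add_halves ε
  obtain ⟨n, hn1, hn2⟩ := (e1.and e2).exists
  exact absurd hn2 (not_lt.mpr (hb n hn1))

end Pool.Agent.EG.LE
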