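import Pool.Agent.EG.LE.Defs

/-!
# EG LE Frm: the coefficient of the form in two parametrizations

Proof (helper41):
cf_change: near p: phi y = c y • psi (tau y), c y ≠ 0 (no regularity of c is assumed; it is analytic: fix a coordinate m with (psi (tau p)) m ≠ 0, c y = phi y m / psi (tau y) m near p).
fderiv phi p v = c p • fderiv psi (tau p) (fderiv tau p v) + (c' v) • psi (tau p).  With fderiv tau p (1,0) = (a, b), fderiv tau p (0,1) = (d, e): fderiv psi (tau p) of them is a combination of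
the two partial derivatives of psi; all are tangent vectors (Tan V x v: curves y ↦ psi (tau p + y v), eventually in V).  TForm.add_smul, scale, det; jac tau p = a e - b d.
-/

set_option autoImplicit false

open Topology Filter Metric Set

namespace Pool.Agent.EG.LE

open Pool.Agent.H36.BP (EN fs wd)
open Pool.Agent.H14.PP (IsCone Tan jac)
open Pool.Agent.H62.EF (MN pr)
open Pool.Agent.H62.EL (TForm)
open Pool.Agent.EG.RL (rot)

variable {N : ℕ} {V : Set (EN N)} {Λ : AddSubgroup ℂ} {u : EN N → ℂ} {α : TForm V Λ u}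

/-- tangent vectors from a parametrization -/
private theorem Frm_tan (hsm : ∀ x ∈ V, ∀ c : ℂ, c ≠ 0 → c • x ∈ V) {ψ : ℂ × ℂ → EN N} {q : ℂ × ℂ} (hψ : AnalyticAt ℂ ψ q)
    (hV : ∀ᶠ y in 𝓝 q, ψ y ∈ V) (w : ℂ × ℂ) (s : ℂ) : Tan V (ψ q) (fderiv ℂ ψ q w + s • ψ q) := by
  have hl : AnalyticAt ℂ (fun z : ℂ => q + z • w) 0 := by fun_prop
  have hl0 : q + (0 : ℂ) • w = q := by rw [zero_smul, add_zero]
  have hψl : AnalyticAt ℂ (fun z : ℂ => ψ (q + z • w)) 0 := by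
    have h1 : AnalyticAt ℂ ψ ((fun z : ℂ => q + z • w) 0) := by
      show AnalyticAt ℂ ψ (q + (0 : ℂ) • w)
      rw [hl0]
      exact hψ
    exact h1.comp (f := fun z : ℂ => q + z • w) hl
  refine ⟨fun z => (1 + s * z) • ψ (q + z • w), ⟨?_, ?_⟩, ?_, ?_⟩
  · exact (by fun_prop : AnalyticAt ℂ (fun z : ℂ => 1 + s * z) 0).smul hψl
  · have h1 : Tendsto (fun z : ℂ => q + z • w) (𝓝 0) (𝓝 q) := by
      have := hl.continuousAt.tendsto
      rwa [hl0] at this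
    have h2 : ∀ᶠ z : ℂ in 𝓝 0, 1 + s * z ≠ 0 := by
      have hc : ContinuousAt (fun z : ℂ => 1 + s * z) 0 := by fun_prop
      apply hc.eventually_ne
      simp
    filter_upwards [h1.eventually hV, h2] with z hz1 hz2
    exact hsm _ hz1 _ hz2
  · simp
  · have h1 : HasDerivAt (fun z : ℂ => 1 + s * z) s 0 := by
      have := ((hasDerivAt_id (0 : ℂ)).const_mul s).const_add 1
      simpa using this
    have h2 : HasDerivAt (fun z : ℂ => q + z • w) w 0 := by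
      have := ((hasDerivAt_id (0 : ℂ)).smul_const w).const_add q
      simpa using this
    have h3 : HasDerivAt (fun z : ℂ => ψ (q + z • w)) (fderiv ℂ ψ q w) 0 := by
      have h4 : HasFDerivAt ψ (fderiv ℂ ψ q) (q + (0 : ℂ) • w) := by
        rw [hl0]
        exact hψ.differentiableAt.hasFDerivAt
      exact h4.comp_hasDerivAt (0 : ℂ) h2
    have h5 := (h1.smul h3).deriv
    have h6 : (fun z : ℂ => (1 + s * z) • ψ (q + z • w)) = (fun z : ℂ => 1 + s * z) • fun z : ℂ => ψ (q + z • w) := rfl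
    rw [h6, h5]
    simp

/-- the derivative of `φ = c • (ψ ∘ τ)` -/
private theorem Frm_fderiv {φ ψ : ℂ × ℂ → EN N} {τ : ℂ × ℂ → ℂ × ℂ} {p : ℂ × ℂ}
    (hφ : AnalyticAt ℂ φ p) (hψ : AnalyticAt ℂ ψ (τ p)) (hτ : AnalyticAt ℂ τ p) (hne : ψ (τ p) ≠ 0)
    (he : ∀ᶠ y in 𝓝 p, ∃ c : ℂ, c ≠ 0 ∧ φ y = c • ψ (τ y)) {c₀ : ℂ} (hc₀ : φ p = c₀ • ψ (τ p)) (v : ℂ × ℂ) :
    ∃ s : ℂ, fderiv ℂ φ p v = c₀ • fderiv ℂ ψ (τ p) (fderiv ℂ τ p v) + s • ψ (τ p) := by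
  have hψτ : AnalyticAt ℂ (fun y => ψ (τ y)) p := hψ.comp hτ
  obtain ⟨m, hm⟩ : ∃ m, (ψ (τ p)).ofLp m ≠ 0 := by
    by_contra hcon
    push Not at hcon
    apply hne
    ext i
    rw [hcon i]
    rfl
  have hnum : AnalyticAt ℂ (fun y => (φ y).ofLp m) p := ((EuclideanSpace.proj (𝕜 := ℂ) m : EN N →L[ℂ] ℂ).analyticAt _).comp hφ
  have hden : AnalyticAt ℂ (fun y => (ψ (τ y)).ofLp m) p :=
    ((EuclideanSpace.proj (𝕜 := ℂ) m : EN N →L[ℂ] ℂ).analyticAt _).comp hψτ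
  have hc : AnalyticAt ℂ (fun y => (φ y).ofLp m / (ψ (τ y)).ofLp m) p := hnum.div hden hm
  have hev : φ =ᶠ[𝓝 p] fun y => ((φ y).ofLp m / (ψ (τ y)).ofLp m) • ψ (τ y) := by
    filter_upwards [he, hden.continuousAt.eventually_ne hm] with y hy1 hy2
    obtain ⟨c, -, hcy⟩ := hy1
    have h1 : (φ y).ofLp m = c * (ψ (τ y)).ofLp m := by rw [hcy]; rfl
    rw [h1, mul_div_assoc, div_self hy2, mul_one]
    exact hcy
  have hcp : (φ p).ofLp m / (ψ (τ p)).ofLp m = c₀ := by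
    have h1 : (φ p).ofLp m = c₀ * (ψ (τ p)).ofLp m := by rw [hc₀]; rfl
    rw [h1, mul_div_assoc, div_self hm, mul_one]
  have hf1 : HasFDerivAt (fun y => ψ (τ y)) ((fderiv ℂ ψ (τ p)).comp (fderiv ℂ τ p)) p :=
    hψ.differentiableAt.hasFDerivAt.comp p hτ.differentiableAt.hasFDerivAt
  have hf2 := hc.differentiableAt.hasFDerivAt.smul hf1
  have hf3 := hf2.congr_of_eventuallyEq hev
  rw [hf3.fderiv]
  refine ⟨fderiv ℂ (fun y => (φ y).ofLp m / (ψ (τ y)).ofLp m) p v, ?_⟩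
  simp only [_root_.add_apply, _root_.smul_apply, ContinuousLinearMap.smulRight_apply,
    ContinuousLinearMap.comp_apply, hcp]

theorem cf_change (h0 : (0 : EN N) ∉ V) (hsm : ∀ x ∈ V, ∀ c : ℂ, c ≠ 0 → c • x ∈ V) {φ ψ : ℂ × ℂ → EN N} {τ : ℂ × ℂ → ℂ × ℂ} {p : ℂ × ℂ}
    {t : ℂ} (hφ : AnalyticAt ℂ φ p) (hψ : AnalyticAt ℂ ψ (τ p)) (hτ : AnalyticAt ℂ τ p) (hV : ∀ᶠ y in 𝓝 (τ p), ψ y ∈ V)
    (hu : u (ψ (τ p)) - t ∈ Λ) (he : ∀ᶠ y in 𝓝 p, ∃ c : ℂ, c ≠ 0 ∧ φ y = c • ψ (τ y)) : cf α φ t p = cf α ψ t (τ p) * jac τ p := by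
  have hx : ψ (τ p) ∈ V := hV.self_of_nhds
  have hne : ψ (τ p) ≠ 0 := fun h => h0 (h ▸ hx)
  obtain ⟨c₀, hc₀, hc₀e⟩ := he.self_of_nhds
  obtain ⟨s₁, hs₁⟩ := Frm_fderiv hφ hψ hτ hne he hc₀e (1, 0)
  obtain ⟨s₂, hs₂⟩ := Frm_fderiv hφ hψ hτ hne he hc₀e (0, 1)
  have hlin : ∀ w : ℂ × ℂ, fderiv ℂ ψ (τ p) w = w.1 • fderiv ℂ ψ (τ p) (1, 0) + w.2 • fderiv ℂ ψ (τ p) (0, 1) := by
    intro w
    have h1 : w = w.1 • ((1 : ℂ), (0 : ℂ)) + w.2 • ((0 : ℂ), (1 : ℂ)) := by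
      ext <;> simp
    conv_lhs => rw [h1]
    rw [map_add, map_smul, map_smul]
  have htan : ∀ (w : ℂ × ℂ) (s : ℂ), Tan V (ψ (τ p)) (fderiv ℂ ψ (τ p) w + s • ψ (τ p)) := Frm_tan hsm hψ hV
  have htan0 : ∀ w : ℂ × ℂ, Tan V (ψ (τ p)) (fderiv ℂ ψ (τ p) w) := by
    intro w
    have := htan w 0
    rwa [zero_smul, add_zero] at this
  have hv : ∀ (s : ℂ) (w : EN N), c₀ • w + s • ψ (τ p) = c₀ • (w + (s / c₀) • ψ (τ p)) := by
    intro s w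
    rw [smul_add, smul_smul, mul_div_cancel₀ _ hc₀]
  unfold cf
  rw [hs₁, hs₂, hc₀e, hv, hv, α.scale t _ hx hu _ _ (htan _ _) (htan _ _) c₀ hc₀,
    α.add_smul t _ hx hu _ _ (htan0 _) (htan0 _), hlin (fderiv ℂ τ p (1, 0)), hlin (fderiv ℂ τ p (0, 1)),
    α.det t _ hx hu _ _ (htan0 _) (htan0 _)]
  unfold jac
  ring

end Pool.Agent.EG.LE
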