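import Pool.Agent.EG.LE.Har

/-!
# EG LE Gro: growth of - log |y| (a function which avoids 0 and is Lipschitz where it is small)

Proof (helper41), T := T1 > 0, v z := - log ‖y z‖, C4 := max C3 (log 4), C := 4 C4 / delta1 + C4 + log 2 (or anything bigger).
G := {z in A ∩ closedBall c R | Re z ≤ -T, ‖y z‖ ≤ 1/2}.  G is compact: if z_n in G, z_n -> z, then z in ball z_n delta1 ⊆ A for some n (hA), y is continuous at z.  v ≥ log 2 > 0 on G.
If z in A, z in closedBall c (R - 1), Re z ≤ -T and ‖y z‖ > 1/2 then v z ≤ log 2.  Otherwise z in G.  Let d z := R - ‖z - c‖ ≥ 0 on G, zs a maximum point of v * d^3 on G.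
Claim: v zs * (d zs)^3 ≤ (4 C4 / delta1 + C4) (1 + R) R^3.  This implies v z ≤ v z * (d z)^3 ≤ C (1 + R)^4 (d z ≥ 1).
Let ds := d zs; if ds = 0 clear; suppose ds > 0.  Let rs := sup {r in [0, ds] | ball zs r ⊆ G} (contains 0; the supremum is attained: ball zs rs ⊆ G).
Case rs = ds: Re w ≤ -T on ball zs ds, so ds ≤ - Re zs - T, hence ‖zs - c‖ ≥ - Re zs > ds (Re c = 0, T > 0).  z' := zs + (ds / 2) * (c - zs) / ‖c - zs‖: in ball zs ds ⊆ G, d z' = ds + ds / 2.
 On ball zs ds the function y has no zeros: y = exp g with g holomorphic (DifferentiableOn.exists_log or the primitive of y'/y on a ball), H := - g, Re H = v > 0; Harnack with ‖z' - zs‖ = ds / 2: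
 v z' ≥ v zs / 3, so v z' (d z')^3 ≥ (27/8) / 3 * v zs ds^3 > v zs ds^3: contradiction to the maximum.
Case rs < ds: there are w_n not in G with ‖w_n - zs‖ < rs + 1/n, a limit z1 with ‖z1 - zs‖ ≤ rs; z1 in G (closure of ball zs rs, or z1 = zs if rs = 0; if ‖z1 - zs‖ < rs then w_n in G for large n).
 ‖z1 - c‖ < R.  If Re z1 < -T and ‖y z1‖ < 1/2 then G is a neighbourhood of z1 (A open, y continuous): contradiction.  So every w in ball z1 delta1 with Re w ≤ -T, w in closedBall c R has v w ≤ C4: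
 ball z1 delta1 ⊆ A by hA; if Re z1 = -T: hs; if ‖y z1‖ = 1/2: ‖y w‖ ≥ 1/4 by hA.
 If rs < delta1 then zs is such a point: v zs ≤ C4.  If rs ≥ delta1: z2 := z1 + (delta1 / 2) (zs - z1) / ‖zs - z1‖ is in ball zs rs ⊆ G (‖z2 - zs‖ = ‖z1 - zs‖ - delta1 / 2, here ‖z1 - zs‖ = rs because
 ball zs rs ⊆ interior G) and v z2 ≤ C4; Harnack on ball zs rs: v z2 ≥ v zs * (delta1 / 2) / (2 rs), v zs ≤ 4 rs C4 / delta1 ≤ 4 R C4 / delta1.
-/

set_option autoImplicit false

open Topology Filter Metric Set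

namespace Pool.Agent.EG.LE

/-- a holomorphic logarithm on a ball -/
private theorem Gro_log {f : ℂ → ℂ} {t₁ : ℂ} {r₀ : ℝ} (hf : DifferentiableOn ℂ f (ball t₁ r₀)) (h0 : ∀ t ∈ ball t₁ r₀, f t ≠ 0) :
    ∃ g : ℂ → ℂ, DifferentiableOn ℂ g (ball t₁ r₀) ∧ ∀ t ∈ ball t₁ r₀, f t = Complex.exp (g t) := by
  rcases le_or_gt r₀ 0 with hr | hr
  · refine ⟨fun _ => 0, ?_, ?_⟩
    · rw [ball_eq_empty.2 hr]
      exact differentiableOn_empty
    · rw [ball_eq_empty.2 hr]
      intro t ht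
      exact absurd ht (notMem_empty t)
  have hd : DifferentiableOn ℂ (fun t => deriv f t / f t) (ball t₁ r₀) := (hf.deriv isOpen_ball).div hf h0
  obtain ⟨G, hG⟩ := hd.isExactOn_ball
  have ht₁ : t₁ ∈ ball t₁ r₀ := mem_ball_self hr
  set c : ℂ := Complex.log (f t₁) - G t₁ with hc
  refine ⟨fun t => G t + c, fun t ht => ((hG t ht).differentiableAt.add_const c).differentiableWithinAt, fun t ht => ?_⟩
  have hd2 : DifferentiableOn ℂ (fun t => f t * Complex.exp (-(G t + c))) (ball t₁ r₀) := by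
    refine hf.mul (DifferentiableOn.cexp ?_)
    intro t ht
    exact ((hG t ht).differentiableAt.add_const c).neg.differentiableWithinAt
  have hderiv : ∀ t ∈ ball t₁ r₀, HasDerivAt (fun t => f t * Complex.exp (-(G t + c))) 0 t := by
    intro t ht
    have h1 : HasDerivAt f (deriv f t) t := (hf.differentiableAt (isOpen_ball.mem_nhds ht)).hasDerivAt
    have h2 : HasDerivAt (fun t => Complex.exp (-(G t + c))) (Complex.exp (-(G t + c)) * (-(deriv f t / f t))) t :=
      ((hG t ht).add_const c).neg.cexp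
    have h3 := h1.mul h2
    refine h3.congr_deriv ?_
    have h4 := h0 t ht
    field_simp
    ring
  have hconst := (convex_ball t₁ r₀).is_const_of_fderivWithin_eq_zero (𝕜 := ℂ) hd2 (fun t ht => by
    rw [fderivWithin_of_isOpen isOpen_ball ht]
    have h1 := (hderiv t ht).hasFDerivAt.fderiv
    rw [h1]
    ext
    simp) ht ht₁
  have h5 : f t₁ * Complex.exp (-(G t₁ + c)) = 1 := by
    rw [hc, add_sub_cancel, Complex.exp_neg, Complex.exp_log (h0 t₁ ht₁), mul_inv_cancel₀ (h0 t₁ ht₁)]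
  rw [h5, Complex.exp_neg, mul_inv_eq_iff_eq_mul₀ (Complex.exp_ne_zero _), one_mul] at hconst
  exact hconst

/-- Harnack for `- log ‖y‖` -/
private theorem Gro_har {y : ℂ → ℂ} {c : ℂ} {r : ℝ} (hr : 0 < r) (hy : DifferentiableOn ℂ y (ball c r))
    (h0 : ∀ z ∈ ball c r, y z ≠ 0) (h1 : ∀ z ∈ ball c r, ‖y z‖ ≤ 1 / 2) {z : ℂ} (hz : z ∈ ball c r) :
    (-Real.log ‖y c‖) * ((r - ‖z - c‖) / (r + ‖z - c‖)) ≤ -Real.log ‖y z‖ := by
  obtain ⟨g, hg, hexp⟩ := Gro_log hy h0
  have hre : ∀ w ∈ ball c r, (-g w).re = -Real.log ‖y w‖ := by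
    intro w hw
    rw [hexp w hw, Complex.norm_exp, Real.log_exp, Complex.neg_re]
  have hlog : ∀ w ∈ ball c r, 0 < -Real.log ‖y w‖ := by
    intro w hw
    have h2 : Real.log ‖y w‖ < 0 := Real.log_neg (norm_pos_iff.2 (h0 w hw)) (by linarith [h1 w hw])
    linarith
  have key := harnack (H := fun w => -g w) hr hg.neg (fun w hw => by rw [hre w hw]; exact hlog w hw) hz
  rw [hre z hz, hre c (mem_ball_self hr)] at key
  exact key

/-- the good set is compact -/
private theorem Gro_compact {δ₁ : ℝ} (hδ : 0 < δ₁) {c : ℂ} {R T : ℝ} {A : Set ℂ} {y : ℂ → ℂ} (hA : IsOpen A)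
    (hy : DifferentiableOn ℂ y A)
    (hb : ∀ z ∈ A, ‖y z‖ ≤ 1 / 2 → z ∈ closedBall c R → z.re ≤ -T → ball z δ₁ ⊆ A) :
    IsCompact {z : ℂ | z ∈ A ∧ ‖y z‖ ≤ 1 / 2 ∧ z ∈ closedBall c R ∧ z.re ≤ -T} := by
  refine (isCompact_closedBall c R).of_isClosed_subset ?_ fun z hz => hz.2.2.1
  refine isClosed_of_closure_subset fun z hz => ?_
  obtain ⟨z', hz', hd⟩ := Metric.mem_closure_iff.1 hz δ₁ hδ
  have hzA : z ∈ A := hb z' hz'.1 hz'.2.1 hz'.2.2.1 hz'.2.2.2 hd
  obtain ⟨u, hu, hlim⟩ := mem_closure_iff_seq_limit.1 hz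
  have hcont : ContinuousAt y z := (hy.differentiableAt (hA.mem_nhds hzA)).continuousAt
  refine ⟨hzA, ?_, ?_, ?_⟩
  · exact le_of_tendsto' ((continuous_norm.continuousAt.comp hcont).tendsto.comp hlim) fun n => (hu n).2.1
  · exact isClosed_closedBall.mem_of_tendsto hlim (Eventually.of_forall fun n => (hu n).2.2.1)
  · exact le_of_tendsto' ((Complex.continuous_re.tendsto z).comp hlim) fun n => (hu n).2.2.2

theorem growth {δ₁ C₃ : ℝ} (hδ : 0 < δ₁) (hδ1 : δ₁ ≤ 1) (hC : 0 ≤ C₃) : ∃ C : ℝ, 0 ≤ C ∧ ∀ (c : ℂ) (R T : ℝ) (A : Set ℂ) (y : ℂ → ℂ), c.re = 0 → 0 < T → IsOpen A →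
    DifferentiableOn ℂ y A → (∀ z ∈ A, y z ≠ 0) →
    (∀ z ∈ A, ‖y z‖ ≤ 1 / 2 → z ∈ closedBall c R → z.re ≤ -T → ball z δ₁ ⊆ A ∧ ∀ w ∈ ball z δ₁, ‖y w - y z‖ ≤ 1 / 4) →
    (∀ z ∈ A, z ∈ closedBall c R → -T - δ₁ ≤ z.re → z.re ≤ -T → -Real.log ‖y z‖ ≤ C₃) →
    ∀ z ∈ A, z ∈ closedBall c (R - 1) → z.re ≤ -T → -Real.log ‖y z‖ ≤ C * (1 + R) ^ 4 := by
  obtain ⟨C4, hC4⟩ : ∃ C4, C4 = max C₃ (Real.log 4) := ⟨_, rfl⟩
  have hC43 : C₃ ≤ C4 := by rw [hC4]; exact le_max_left _ _
  have hC44 : Real.log 4 ≤ C4 := by rw [hC4]; exact le_max_right _ _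
  have hC40 : 0 ≤ C4 := hC.trans hC43
  have hlog2 : 0 < Real.log 2 := Real.log_pos (by norm_num)
  have hlog2' : -Real.log (1 / 2 : ℝ) = Real.log 2 := by
    rw [one_div, Real.log_inv, neg_neg]
  have hlog4' : -Real.log (1 / 4 : ℝ) = Real.log 4 := by
    rw [one_div, Real.log_inv, neg_neg]
  refine ⟨4 * C4 / δ₁ + C4 + Real.log 2, by positivity, ?_⟩
  intro c R T A y hc hT hA hy hy0 hball hstrip z hzA hzR hzT
  have hR1 : 1 ≤ R := by
    have := (dist_nonneg (x := z) (y := c)).trans (mem_closedBall.1 hzR)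
    linarith
  have hR4 : 1 ≤ (1 + R) ^ 4 := one_le_pow₀ (by linarith)
  have hE0 : 0 ≤ 4 * C4 / δ₁ + C4 := by positivity
  have hzR' : z ∈ closedBall c R := closedBall_subset_closedBall (by linarith) hzR
  rcases lt_or_ge (1 / 2) ‖y z‖ with hyz | hyz
  · have h1 : -Real.log ‖y z‖ ≤ Real.log 2 := by
      rw [← hlog2']
      have := Real.log_le_log (by norm_num) hyz.le
      linarith
    have h2 : Real.log 2 * 1 ≤ (4 * C4 / δ₁ + C4 + Real.log 2) * (1 + R) ^ 4 :=
      mul_le_mul (by linarith) hR4 zero_le_one (by positivity)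
    linarith
  -- the good set
  obtain ⟨G, hG⟩ : ∃ G : Set ℂ, G = {z : ℂ | z ∈ A ∧ ‖y z‖ ≤ 1 / 2 ∧ z ∈ closedBall c R ∧ z.re ≤ -T} := ⟨_, rfl⟩
  have hGc : IsCompact G := by
    rw [hG]
    exact Gro_compact hδ hA hy fun w h1 h2 h3 h4 => (hball w h1 h2 h3 h4).1
  have hGA : ∀ w ∈ G, w ∈ A ∧ ‖y w‖ ≤ 1 / 2 ∧ w ∈ closedBall c R ∧ w.re ≤ -T := by
    intro w hw
    rw [hG] at hw
    exact hw
  have hzG : z ∈ G := by
    rw [hG]
    exact ⟨hzA, hyz, hzR', hzT⟩
  have hv0 : ∀ w ∈ G, 0 < -Real.log ‖y w‖ := by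
    intro w hw
    obtain ⟨h1, h2, -, -⟩ := hGA w hw
    have h3 : Real.log ‖y w‖ < 0 := Real.log_neg (norm_pos_iff.2 (hy0 w h1)) (by linarith)
    linarith
  have hd0 : ∀ w ∈ G, 0 ≤ R - ‖w - c‖ := by
    intro w hw
    have h1 := mem_closedBall.1 (hGA w hw).2.2.1
    rw [dist_eq_norm] at h1
    linarith
  have hcont : ContinuousOn (fun w => -Real.log ‖y w‖ * (R - ‖w - c‖) ^ 3) G := by
    refine ContinuousOn.mul (ContinuousOn.neg (ContinuousOn.log ?_ ?_)) (Continuous.continuousOn (by fun_prop))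
    · exact (hy.continuousOn.mono fun w hw => (hGA w hw).1).norm
    · exact fun w hw => (norm_pos_iff.2 (hy0 w (hGA w hw).1)).ne'
  obtain ⟨zs, hzs, hmax⟩ := hGc.exists_isMaxOn ⟨z, hzG⟩ hcont
  have hmax : ∀ w ∈ G, -Real.log ‖y w‖ * (R - ‖w - c‖) ^ 3 ≤ -Real.log ‖y zs‖ * (R - ‖zs - c‖) ^ 3 :=
    fun w hw => hmax hw
  obtain ⟨vs, hvs⟩ : ∃ vs, vs = -Real.log ‖y zs‖ := ⟨_, rfl⟩
  obtain ⟨ds, hds⟩ : ∃ ds, ds = R - ‖zs - c‖ := ⟨_, rfl⟩
  rw [← hvs, ← hds] at hmax
  have hvs0 : 0 < vs := by rw [hvs]; exact hv0 zs hzs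
  have hds0 : 0 ≤ ds := by rw [hds]; exact hd0 zs hzs
  have hdsR : ds ≤ R := by rw [hds]; linarith [norm_nonneg (zs - c)]
  have hds3 : ds ^ 3 ≤ R ^ 3 := pow_le_pow_left₀ hds0 hdsR 3
  have claim : vs * ds ^ 3 ≤ (4 * C4 / δ₁ + C4) * ((1 + R) * R ^ 3) := by
    have hR3 : 0 ≤ R ^ 3 := by positivity
    have hbd1 : ∀ v : ℝ, v ≤ C4 → v * ds ^ 3 ≤ (4 * C4 / δ₁ + C4) * ((1 + R) * R ^ 3) := by
      intro v hv
      calc v * ds ^ 3 ≤ C4 * ds ^ 3 := mul_le_mul_of_nonneg_right hv (by positivity)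
        _ ≤ C4 * R ^ 3 := mul_le_mul_of_nonneg_left hds3 hC40
        _ ≤ (4 * C4 / δ₁ + C4) * ((1 + R) * R ^ 3) := by
            refine mul_le_mul ?_ ?_ hR3 hE0
            · have : 0 ≤ 4 * C4 / δ₁ := by positivity
              linarith
            · have : 0 ≤ R * R ^ 3 := by positivity
              linarith
    rcases eq_or_lt_of_le hds0 with hds00 | hdspos
    · rw [← hds00]
      have : 0 ≤ (4 * C4 / δ₁ + C4) * ((1 + R) * R ^ 3) := by positivity
      linarith
    have hGne : (Gᶜ).Nonempty := by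
      obtain ⟨x, hx⟩ := (hGc.isBounded.subset_closedBall (0 : ℂ)).elim fun r hr =>
        (⟨((|r| + 1 : ℝ) : ℂ), fun h => by
          have h1 := hr h
          rw [mem_closedBall, dist_zero_right, Complex.norm_real, Real.norm_eq_abs, abs_of_nonneg (by positivity)] at h1
          linarith [le_abs_self r]⟩ : ∃ x, x ∉ G)
      exact ⟨x, hx⟩
    obtain ⟨ρ, hρ⟩ : ∃ ρ, ρ = infDist zs Gᶜ := ⟨_, rfl⟩
    have hρ0 : 0 ≤ ρ := by rw [hρ]; exact infDist_nonneg
    have hρG : ball zs ρ ⊆ G := by rw [hρ]; exact ball_infDist_compl_subset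
    have hharn : ∀ r : ℝ, 0 < r → r ≤ ρ → ∀ w ∈ ball zs r,
        vs * ((r - ‖w - zs‖) / (r + ‖w - zs‖)) ≤ -Real.log ‖y w‖ := by
      intro r hr hrρ w hw
      have hsub : ball zs r ⊆ G := (ball_subset_ball hrρ).trans hρG
      rw [hvs]
      exact Gro_har hr (hy.mono fun x hx => (hGA x (hsub hx)).1) (fun x hx => hy0 x (hGA x (hsub hx)).1)
        (fun x hx => (hGA x (hsub hx)).2.1) hw
    rcases le_or_gt ds ρ with hcase | hcase
    · -- the ball reaches the boundary
      exfalso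
      have hsub : ball zs ds ⊆ G := (ball_subset_ball hcase).trans hρG
      have h1 : ds ≤ -zs.re - T := by
        by_contra hcon
        push Not at hcon
        have h2 : 0 ≤ -zs.re - T := by
          have := (hGA zs hzs).2.2.2
          linarith
        obtain ⟨t, ht1, ht2⟩ := exists_between hcon
        have h3 : zs + (t : ℂ) ∈ ball zs ds := by
          rw [mem_ball, dist_eq_norm, add_sub_cancel_left, Complex.norm_real, Real.norm_eq_abs, abs_of_nonneg (by linarith)]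
          exact ht2
        have h4 := (hGA _ (hsub h3)).2.2.2
        rw [Complex.add_re, Complex.ofReal_re] at h4
        linarith
      have h2 : -zs.re ≤ ‖zs - c‖ := by
        have h3 := Complex.abs_re_le_norm (zs - c)
        rw [Complex.sub_re, hc, sub_zero] at h3
        linarith [neg_abs_le zs.re]
      obtain ⟨a, ha⟩ : ∃ a, a = ‖zs - c‖ := ⟨_, rfl⟩
      rw [← ha] at h2
      have ha0 : ds < a := by linarith
      have hapos : 0 < a := by linarith
      obtain ⟨z', hz'⟩ : ∃ z', z' = zs + (((ds / 2) / a : ℝ) : ℂ) * (c - zs) := ⟨_, rfl⟩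
      have hn1 : ‖z' - zs‖ = ds / 2 := by
        rw [hz', add_sub_cancel_left, norm_mul, Complex.norm_real, Real.norm_eq_abs, abs_of_nonneg (by positivity),
          norm_sub_rev, ← ha]
        field_simp
      have hn2 : ‖z' - c‖ = a - ds / 2 := by
        have h3 : z' - c = ((1 - (ds / 2) / a : ℝ) : ℂ) * (zs - c) := by
          rw [hz']
          push_cast
          ring
        rw [h3, norm_mul, Complex.norm_real, Real.norm_eq_abs, abs_of_nonneg, ← ha]
        · field_simp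
        · rw [sub_nonneg, div_le_one hapos]
          linarith
      have hz'b : z' ∈ ball zs ds := by
        rw [mem_ball, dist_eq_norm, hn1]
        linarith
      have h3 := hharn ds hdspos hcase z' hz'b
      have h4 := hmax z' (hsub hz'b)
      rw [hn1] at h3
      rw [hn2] at h4
      have h5 : (ds - ds / 2) / (ds + ds / 2) = 1 / 3 := by
        field_simp
        ring
      have h6 : R - (a - ds / 2) = 3 / 2 * ds := by
        rw [hds, ← ha]
        ring
      rw [h5] at h3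
      rw [h6] at h4
      have h7 : 0 < vs * ds ^ 3 := by positivity
      have h8 : vs * (1 / 3) * (3 / 2 * ds) ^ 3 ≤ -Real.log ‖y z'‖ * (3 / 2 * ds) ^ 3 :=
        mul_le_mul_of_nonneg_right h3 (by positivity)
      have h9 : vs * (1 / 3) * (3 / 2 * ds) ^ 3 = 9 / 8 * (vs * ds ^ 3) := by ring
      linarith
    · -- an obstruction inside
      obtain ⟨z1, hz1, hdz1⟩ := isClosed_closure.exists_infDist_eq_dist hGne.closure zs
      rw [infDist_closure, ← hρ] at hdz1
      have hz1G : z1 ∈ G := by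
        rcases eq_or_lt_of_le hρ0 with h | h
        · rw [← h] at hdz1
          rw [← dist_eq_zero.1 hdz1.symm]
          exact hzs
        · have h1 : closure (ball zs ρ) ⊆ G := closure_minimal hρG hGc.isClosed
          rw [closure_ball zs h.ne'] at h1
          apply h1
          rw [mem_closedBall, dist_comm]
          exact hdz1.symm.le
      obtain ⟨hz1A, hz1y, hz1R, hz1T⟩ := hGA z1 hz1G
      have hz1c : ‖z1 - c‖ < R := by
        have h1 : z1 - c = (z1 - zs) + (zs - c) := by ring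
        have h2 : ‖z1 - zs‖ = ρ := by rw [← dist_eq_norm, dist_comm]; exact hdz1.symm
        calc ‖z1 - c‖ ≤ ‖z1 - zs‖ + ‖zs - c‖ := by rw [h1]; exact norm_add_le _ _
          _ < ds + ‖zs - c‖ := by rw [h2]; linarith
          _ = R := by rw [hds]; ring
      have hcontz1 : ContinuousAt y z1 := (hy.differentiableAt (hA.mem_nhds hz1A)).continuousAt
      have hor : z1.re = -T ∨ ‖y z1‖ = 1 / 2 := by
        by_contra hcon
        push Not at hcon
        obtain ⟨h1, h2⟩ := hcon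
        have h3 : z1.re < -T := lt_of_le_of_ne hz1T h1
        have h4 : ‖y z1‖ < 1 / 2 := lt_of_le_of_ne hz1y h2
        have h5 : G ∈ 𝓝 z1 := by
          have e1 : ∀ᶠ w in 𝓝 z1, w ∈ A := hA.mem_nhds hz1A
          have e2 : ∀ᶠ w in 𝓝 z1, ‖y w‖ < 1 / 2 := hcontz1.norm.eventually (gt_mem_nhds h4)
          have e3 : ∀ᶠ w in 𝓝 z1, w.re < -T := Complex.continuous_re.continuousAt.eventually (gt_mem_nhds h3)
          have e4 : ∀ᶠ w in 𝓝 z1, w ∈ ball c R :=
            isOpen_ball.mem_nhds (by rw [mem_ball, dist_eq_norm]; exact hz1c)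
          filter_upwards [e1, e2, e3, e4] with w w1 w2 w3 w4
          rw [hG]
          exact ⟨w1, w2.le, ball_subset_closedBall w4, w3.le⟩
        have h6 : z1 ∈ interior G := mem_interior_iff_mem_nhds.2 h5
        rw [closure_compl] at hz1
        exact hz1 h6
      obtain ⟨hbA, hbd⟩ := hball z1 hz1A hz1y hz1R hz1T
      have hK : ∀ w ∈ ball z1 δ₁, w ∈ closedBall c R → w.re ≤ -T → -Real.log ‖y w‖ ≤ C4 := by
        intro w hw hwR hwT
        rcases hor with h | h
        · have h1 : -T - δ₁ ≤ w.re := by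
            have h2 := Complex.abs_re_le_norm (w - z1)
            rw [mem_ball, dist_eq_norm] at hw
            rw [Complex.sub_re, h] at h2
            have h3 := (abs_le.1 (h2.trans hw.le)).1
            linarith
          exact (hstrip w (hbA hw) hwR h1 hwT).trans hC43
        · have h1 : 1 / 4 ≤ ‖y w‖ := by
            have h2 := hbd w hw
            have h3 : ‖y z1‖ ≤ ‖y w‖ + ‖y w - y z1‖ := by
              have h4 : y z1 = y w - (y w - y z1) := by ring
              calc ‖y z1‖ = ‖y w - (y w - y z1)‖ := by rw [← h4]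
                _ ≤ _ := norm_sub_le _ _
            rw [h] at h3
            linarith
          have h2 := Real.log_le_log (by norm_num) h1
          linarith
      rcases lt_or_ge ρ δ₁ with h | h
      · apply hbd1
        rw [hvs]
        refine hK zs ?_ (hGA zs hzs).2.2.1 (hGA zs hzs).2.2.2
        rw [mem_ball, ← hdz1]
        exact h
      · have hρpos : 0 < ρ := by linarith
        obtain ⟨z2, hz2⟩ : ∃ z2, z2 = z1 + (((δ₁ / 2) / ρ : ℝ) : ℂ) * (zs - z1) := ⟨_, rfl⟩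
        have hn0 : ‖zs - z1‖ = ρ := by rw [← dist_eq_norm]; exact hdz1.symm
        have hn1 : ‖z2 - z1‖ = δ₁ / 2 := by
          rw [hz2, add_sub_cancel_left, norm_mul, Complex.norm_real, Real.norm_eq_abs, abs_of_nonneg (by positivity), hn0]
          field_simp
        have hn2 : ‖z2 - zs‖ = ρ - δ₁ / 2 := by
          have h3 : z2 - zs = ((1 - (δ₁ / 2) / ρ : ℝ) : ℂ) * (z1 - zs) := by
            rw [hz2]
            push_cast
            ring
          rw [h3, norm_mul, Complex.norm_real, Real.norm_eq_abs, abs_of_nonneg, norm_sub_rev, hn0]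
          · field_simp
          · rw [sub_nonneg, div_le_one hρpos]
            linarith
        have hz2b : z2 ∈ ball zs ρ := by
          rw [mem_ball, dist_eq_norm, hn2]
          linarith
        have hz2G := hGA z2 (hρG hz2b)
        have h3 := hK z2 (by rw [mem_ball, dist_eq_norm, hn1]; linarith) hz2G.2.2.1 hz2G.2.2.2
        have h4 := hharn ρ hρpos le_rfl z2 hz2b
        rw [hn2] at h4
        have h5 : δ₁ / (4 * ρ) ≤ (ρ - (ρ - δ₁ / 2)) / (ρ + (ρ - δ₁ / 2)) := by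
          rw [div_le_div_iff₀ (by positivity) (by linarith)]
          nlinarith
        have h6 : vs * (δ₁ / (4 * ρ)) ≤ C4 := (mul_le_mul_of_nonneg_left h5 hvs0.le).trans (h4.trans h3)
        have h7 : vs ≤ 4 * C4 / δ₁ * ρ := by
          have h8 : vs = vs * (δ₁ / (4 * ρ)) * (4 * ρ / δ₁) := by field_simp
          rw [h8]
          calc vs * (δ₁ / (4 * ρ)) * (4 * ρ / δ₁) ≤ C4 * (4 * ρ / δ₁) :=
                mul_le_mul_of_nonneg_right h6 (by positivity)
            _ = 4 * C4 / δ₁ * ρ := by ring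
        have h8 : vs ≤ 4 * C4 / δ₁ * (1 + R) := h7.trans (mul_le_mul_of_nonneg_left (by linarith) (by positivity))
        calc vs * ds ^ 3 ≤ 4 * C4 / δ₁ * (1 + R) * ds ^ 3 := mul_le_mul_of_nonneg_right h8 (by positivity)
          _ ≤ 4 * C4 / δ₁ * (1 + R) * R ^ 3 := mul_le_mul_of_nonneg_left hds3 (by positivity)
          _ = 4 * C4 / δ₁ * ((1 + R) * R ^ 3) := by ring
          _ ≤ (4 * C4 / δ₁ + C4) * ((1 + R) * R ^ 3) :=
              mul_le_mul_of_nonneg_right (by linarith) (by positivity)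
  -- the conclusion
  have h1 := hmax z hzG
  have h2 : 1 ≤ R - ‖z - c‖ := by
    have h3 := mem_closedBall.1 hzR
    rw [dist_eq_norm] at h3
    linarith
  have h3 : -Real.log ‖y z‖ * 1 ≤ -Real.log ‖y z‖ * (R - ‖z - c‖) ^ 3 :=
    mul_le_mul_of_nonneg_left (one_le_pow₀ h2) (hv0 z hzG).le
  have h4 : (1 + R) * R ^ 3 ≤ (1 + R) ^ 4 := by
    have h5 : R ^ 3 ≤ (1 + R) ^ 3 := pow_le_pow_left₀ (by linarith) (by linarith) 3
    calc (1 + R) * R ^ 3 ≤ (1 + R) * (1 + R) ^ 3 := mul_le_mul_of_nonneg_left h5 (by linarith)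
      _ = (1 + R) ^ 4 := by ring
  have h5 : (4 * C4 / δ₁ + C4) * ((1 + R) * R ^ 3) ≤ (4 * C4 / δ₁ + C4 + Real.log 2) * (1 + R) ^ 4 :=
    mul_le_mul (by linarith) h4 (by positivity) (by positivity)
  linarith

end Pool.Agent.EG.LE
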