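import Pool.Agent.EG.LE.PhiC
import Pool.Agent.EG.LE.Pt

/-!
# EG LE GrowA: the values of the sections near the seam

Proof (helper41):
away_low: for every x with ex = true the set K x := {p in closedBall 0 1 | pr (sS x p) in 𝒦} is compact (p ↦ pr (sS x p) is continuous on closedBall 0 1, 𝒦 closed), on it sS x p is in V (pr (sS x p) = pr y with y in V;
V_smul, both ≠ 0), so p.2 ≠ 0 (sS_V), hence ‖p.2‖ ≥ c x > 0 on K x (if K x is empty take c x = 1).  Finitely many x.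
-/

set_option autoImplicit false

open Topology Filter Metric Set

namespace Pool.Agent.EG.LE

open Pool.Agent.H36.BP (EN fs wd)
open Pool.Agent.H14.PP (IsCone Tan jac)
open Pool.Agent.H62.EF (MN pr)
open Pool.Agent.H62.EL (TForm)
open Pool.Agent.EG.RL (rot Cen Model Bphi)

variable {N : ℕ} {Xb V U D : Set (EN N)} {Λ : AddSubgroup ℂ} {u : EN N → ℂ} {α : TForm V Λ u} {κ : Type}

/-- near `Re z = - T₁` the sections over balls of radius `r₂` stay in a compact part of `V` -/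
def Away (V U : Set (EN N)) (Λ : AddSubgroup ℂ) (u : EN N → ℂ) (T₁ r₂ : ℝ) : Prop :=
  ∃ 𝒦 : Set (MN N), IsCompact 𝒦 ∧ 𝒦 ⊆ pr '' V ∧ ∀ (z : ℂ) (f : ℂ → EN N), -T₁ - 10 ≤ z.re → z.re ≤ -T₁ → SecOn U Λ u (ball z r₂) f → pr (f z) ∈ 𝒦

private theorem GrowA_one (h : EndData Xb V U D Λ u α) (F : LFam Xb V U D α κ) {𝒦 : Set (MN N)} (hK : IsCompact 𝒦) (hKV : 𝒦 ⊆ pr '' V)
    (x : Ix F) (hx : (F.ch x).ex = true) :
    ∃ c : ℝ, 0 < c ∧ ∀ p : ℂ × ℂ, p ∈ closedBall (0 : ℂ × ℂ) 1 → pr (F.sS x p) ∈ 𝒦 → c ≤ ‖p.2‖ := by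
  have h3 : ∀ p ∈ closedBall (0 : ℂ × ℂ) 1, p ∈ ball (0 : ℂ × ℂ) 3 := fun p hp => closedBall_subset_ball (by norm_num) hp
  have hne : ∀ p ∈ closedBall (0 : ℂ × ℂ) 1, F.sS x p ≠ 0 := fun p hp h0 => h.cone.zero_notMem (h0 ▸ sS_Xb F x (h3 p hp))
  have hcont : ContinuousOn (fun p => pr (F.sS x p)) (closedBall (0 : ℂ × ℂ) 1) := fun p hp => by
    refine ContinuousAt.continuousWithinAt ?_
    exact ContinuousAt.comp (g := pr) (f := F.sS x) (Pool.Agent.H62.EF.continuousAt_pr (hne p hp)) (sS_an F x (h3 p hp)).continuousAt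
  have hcl : IsClosed (closedBall (0 : ℂ × ℂ) 1 ∩ (fun p => pr (F.sS x p)) ⁻¹' 𝒦) :=
    hcont.preimage_isClosed_of_isClosed isClosed_closedBall hK.isClosed
  have hcomp : IsCompact (closedBall (0 : ℂ × ℂ) 1 ∩ (fun p => pr (F.sS x p)) ⁻¹' 𝒦) :=
    (isCompact_closedBall (0 : ℂ × ℂ) 1).of_isClosed_subset hcl inter_subset_left
  have hp2 : ∀ p ∈ closedBall (0 : ℂ × ℂ) 1, pr (F.sS x p) ∈ 𝒦 → p.2 ≠ 0 := by
    intro p hp hpK
    obtain ⟨y, hyV, hy⟩ := hKV hpK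
    have hy0 : y ≠ 0 := fun h0 => h.cone.zero_notMem (h0 ▸ h.V_sub hyV)
    obtain ⟨c, hc, hcy⟩ := (Pool.Agent.H62.EF.pr_eq_iff (hne p hp) hy0).1 hy.symm
    have hV : F.sS x p ∈ V := by
      rw [hcy]
      exact h.V_smul y hyV c hc
    have hL := (sS_V F x (h3 p hp)).1 hV
    unfold Lp at hL
    rw [if_pos hx] at hL
    exact right_ne_zero_of_mul hL
  rcases (closedBall (0 : ℂ × ℂ) 1 ∩ (fun p => pr (F.sS x p)) ⁻¹' 𝒦).eq_empty_or_nonempty with hem | hnem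
  · refine ⟨1, one_pos, fun p hp hpK => ?_⟩
    have : p ∈ (∅ : Set (ℂ × ℂ)) := hem ▸ ⟨hp, hpK⟩
    exact absurd this (Set.notMem_empty p)
  · obtain ⟨p₀, hp₀, hmin⟩ := hcomp.exists_isMinOn hnem (f := fun p : ℂ × ℂ => ‖p.2‖) continuous_snd.norm.continuousOn
    refine ⟨‖p₀.2‖, norm_pos_iff.2 (hp2 p₀ hp₀.1 hp₀.2), fun p hp hpK => ?_⟩
    exact hmin ⟨hp, hpK⟩

theorem away_low (h : EndData Xb V U D Λ u α) (F : LFam Xb V U D α κ) {𝒦 : Set (MN N)} (hK : IsCompact 𝒦) (hKV : 𝒦 ⊆ pr '' V) :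
    ∃ c₀ : ℝ, 0 < c₀ ∧ ∀ (x : Ix F) (p : ℂ × ℂ), (F.ch x).ex = true → p ∈ closedBall (0 : ℂ × ℂ) 1 → pr (F.sS x p) ∈ 𝒦 → c₀ ≤ ‖p.2‖ := by
  have hall : ∀ x : Ix F, ∃ c : ℝ, 0 < c ∧ ((F.ch x).ex = true → ∀ p : ℂ × ℂ, p ∈ closedBall (0 : ℂ × ℂ) 1 → pr (F.sS x p) ∈ 𝒦 → c ≤ ‖p.2‖) := by
    intro x
    by_cases hx : (F.ch x).ex = true
    · obtain ⟨c, hc, hc'⟩ := GrowA_one h F hK hKV x hx
      exact ⟨c, hc, fun _ => hc'⟩
    · exact ⟨1, one_pos, fun hx' => absurd hx' hx⟩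
  choose c hc hc' using hall
  obtain ⟨B, hB⟩ := (Set.finite_range (fun x : Ix F => (c x)⁻¹)).bddAbove
  have hB1 : 0 < max B 1 := lt_max_of_lt_right one_pos
  refine ⟨(max B 1)⁻¹, inv_pos.2 hB1, fun x p hx hp hpK => ?_⟩
  have h1 : (c x)⁻¹ ≤ max B 1 := (hB ⟨x, rfl⟩).trans (le_max_left _ _)
  have h2 : (max B 1)⁻¹ ≤ c x := (inv_le_comm₀ (hc x) hB1).1 h1
  exact h2.trans (hc' x hx p hp hpK)

end Pool.Agent.EG.LE
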