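import Mathlib

/-!
# EG LE Har: the Harnack inequality

Proof (helper41):
Let a = H c, Re a > 0.  phi z := (H z - a) / (H z + conj a) is holomorphic on the ball (Re (H z + conj a) > 0), maps it to the unit disc (‖w - a‖ < ‖w + conj a‖ for Re w, Re a > 0), phi c = 0.
Schwarz lemma (Complex.norm_le_norm_of_mapsTo_ball_self / dist_le_mul_div_dist, applied on ball c r): ‖phi z‖ ≤ s := ‖z - c‖ / r < 1.
So ‖H z - a‖ ≤ s ‖H z + conj a‖.  Write H z = x + i y', a = x0 + i y0: (x - x0)^2 + (y' - y0)^2 ≤ s^2 ((x + x0)^2 + (y' - y0)^2), hence (x - x0)^2 ≤ s^2 (x + x0)^2 (s < 1), so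
x0 - x ≤ s (x + x0), x ≥ x0 (1 - s) / (1 + s).
-/

set_option autoImplicit false

open Topology Filter Metric Set

namespace Pool.Agent.EG.LE

theorem harnack {H : ℂ → ℂ} {c : ℂ} {r : ℝ} (hr : 0 < r) (hH : DifferentiableOn ℂ H (ball c r)) (hpos : ∀ z ∈ ball c r, 0 < (H z).re) {z : ℂ}
    (hz : z ∈ ball c r) : (H c).re * ((r - ‖z - c‖) / (r + ‖z - c‖)) ≤ (H z).re := by
  have hcb : c ∈ ball c r := mem_ball_self hr
  have hx0 := hpos c hcb
  have hden : ∀ w ∈ ball c r, H w + (starRingEnd ℂ) (H c) ≠ 0 := by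
    intro w hw h0
    have h1 := congrArg Complex.re h0
    simp only [Complex.add_re, Complex.conj_re, Complex.zero_re] at h1
    have := hpos w hw
    linarith
  have hd : DifferentiableOn ℂ (fun w => (H w - H c) / (H w + (starRingEnd ℂ) (H c))) (ball c r) :=
    (hH.sub_const _).div (hH.add_const _) hden
  have hsq : ∀ w, Complex.normSq (H w + (starRingEnd ℂ) (H c)) - Complex.normSq (H w - H c) =
      4 * (H w).re * (H c).re := by
    intro w
    rw [Complex.normSq_apply, Complex.normSq_apply]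
    simp only [Complex.add_re, Complex.conj_re, Complex.sub_re, Complex.sub_im, Complex.add_im,
      Complex.conj_im]
    ring
  have hm : MapsTo (fun w => (H w - H c) / (H w + (starRingEnd ℂ) (H c))) (ball c r)
      (closedBall ((H c - H c) / (H c + (starRingEnd ℂ) (H c))) 1) := by
    intro w hw
    rw [sub_self, zero_div, mem_closedBall, dist_zero_right, norm_div]
    have h1 : ‖H w - H c‖ ≤ ‖H w + (starRingEnd ℂ) (H c)‖ := by
      rw [← abs_norm (H w - H c), ← abs_norm (H w + (starRingEnd ℂ) (H c)), ← sq_le_sq,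
        ← Complex.normSq_eq_norm_sq, ← Complex.normSq_eq_norm_sq]
      have h2 := hsq w
      have h3 := mul_pos (hpos w hw) hx0
      nlinarith
    exact div_le_one_of_le₀ h1 (norm_nonneg _)
  have hS := Complex.dist_le_div_mul_dist_of_mapsTo_ball hd hm hz
  simp only [sub_self, zero_div, dist_zero_right, norm_div] at hS
  rw [dist_eq_norm] at hS
  set t := ‖z - c‖ with ht
  have ht0 : 0 ≤ t := norm_nonneg _
  have htr : t < r := by
    rw [mem_ball, dist_eq_norm] at hz
    exact hz
  have hzp := hpos z hz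
  have hnp : 0 < ‖H z + (starRingEnd ℂ) (H c)‖ := norm_pos_iff.2 (hden z hz)
  rw [div_le_iff₀ hnp] at hS
  have hS2 : r * ‖H z - H c‖ ≤ t * ‖H z + (starRingEnd ℂ) (H c)‖ := by
    have h1 := mul_le_mul_of_nonneg_left hS hr.le
    have h2 : r * (1 / r * t * ‖H z + (starRingEnd ℂ) (H c)‖) =
        t * ‖H z + (starRingEnd ℂ) (H c)‖ := by
      field_simp
    linarith
  have hS3 : r ^ 2 * Complex.normSq (H z - H c) ≤
      t ^ 2 * Complex.normSq (H z + (starRingEnd ℂ) (H c)) := by
    rw [Complex.normSq_eq_norm_sq, Complex.normSq_eq_norm_sq, ← mul_pow, ← mul_pow]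
    exact pow_le_pow_left₀ (by positivity) hS2 2
  rw [Complex.normSq_apply, Complex.normSq_apply] at hS3
  simp only [Complex.add_re, Complex.conj_re, Complex.sub_re, Complex.sub_im, Complex.add_im,
    Complex.conj_im] at hS3
  set x := (H z).re
  set x0 := (H c).re
  set y := (H z).im
  set y0 := (H c).im
  have hS4 : (r * (x0 - x)) ^ 2 ≤ (t * (x + x0)) ^ 2 := by
    have h1 : 0 ≤ (r ^ 2 - t ^ 2) * (y - y0) ^ 2 := by
      apply mul_nonneg _ (sq_nonneg _)
      nlinarith
    nlinarith
  have hS5 : r * (x0 - x) ≤ t * (x + x0) :=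
    (abs_le_of_sq_le_sq' hS4 (by positivity)).2
  rw [← mul_div_assoc, div_le_iff₀ (by linarith)]
  nlinarith

end Pool.Agent.EG.LE
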