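import Pool.Agent.EG.LE.Mk
import Pool.Agent.EG.LE.Pt
import Pool.Agent.EG.LE.Cl
import Pool.Agent.H62.EF.LimL
import Pool.Agent.H62.Log.Hurwitz

/-!
# EG LE Lim: limits of curves near the fibre over `0` are constant

Proof (helper41):
lim_const: H62.EF.limit_curves (X := Xb) gives the entire curve G in Xb, pr (F n z) -> pr (G z), the convergence of fs, and for every z0 lifts phi n -> psi (locally uniformly on ball z0 r),
psi z = c • G z.  G z in D for all z (tendsto_D: pr (F n z) -> pr (G z), F n z in U ⊆ V, ‖exp u‖ -> 0).  Show: G is projectively constant.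
(A) if a • G z is in the set R of h.hyp for all z and all a ≠ 0: h.hyp.
(B) otherwise there are z0, a such that a • G z0 in D has a chart of type eu = true.
 Chart ch := mk_ch for x0 (O := univ): x0 = a • ch.s 0, so ch.q x0 = 0.  For z near z0 (ball z0 r'): psi z in W, phi n z in W for large n uniformly on a smaller closed ball (W open, uniform convergence on compacts);
 Q n z := ch.q (phi n z) -> Q z := ch.q (psi z) uniformly near z0 (q continuous on a compact neighbourhood; TendstoLocallyUniformlyOn.comp / uniform continuity on a compact ball around x0).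
 phi n z = c • F n z in U (U_smul) and in W, so it is a • s p (surj) with s p in U: p.1 ≠ 0, p.2 ≠ 0 (eu = true), and Q n z = (p.1^k, p.2^k) has nonzero components.
 Hurwitz (for both components): Q has a component identically 0 near z0 or without zeros; Q z0 = 0, so Q = 0 near z0.  (A Hurwitz theorem for sequences / ultrafilters is in Pool/Agent (search for hurwitz), or use the
 argument principle free version: if Q.1 is not identically 0 near z0 then it is ≥ m > 0 in norm on a circle around z0, and 1 / (Q n).1 is holomorphic inside with norm ≤ 2 / m on the circle, so by the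
 maximum principle ‖(Q n z0).1‖ ≥ m / 2, contradiction to (Q n z0).1 -> 0.)
 So psi z = a • s p with p^k = 0, p = 0, for z near z0: psi z is a multiple of s 0.  Hence G z is a multiple of G z0 for z near z0; by the identity theorem (the 2x2 minors G z i * G z0 j - G z j * G z0 i are
 entire and vanish near z0) for all z.
So G z = c z • G 0 for all z, x0 := G 0 in D; pr (F n z) -> pr (G z) = pr (G 0); fs (G z) (deriv G z) = 0 because G z and deriv G z are proportional (c is differentiable: fs measures the component of the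
derivative orthogonal to G z; use H36.BP: wd x v = 0 iff v is a multiple of x; or the Lipschitz/derivative characterisation of fs by pr).
lim_unif: fs ≤ L on ball 0 (rho n) gives dist (pr (F n z)) (pr (F n w)) ≤ C L ‖z - w‖ (pr_lipschitz, see H62/EL/Zl sec_lip_gd), choose a finite net of closedBall 0 R.
-/

set_option autoImplicit false

open Topology Filter Metric Set

namespace Pool.Agent.EG.LE

open Pool.Agent.H36.BP (EN fs wd)
open Pool.Agent.H14.PP (IsCone Tan jac)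
open Pool.Agent.H62.EF (MN pr)
open Pool.Agent.H62.EL (TForm)

variable {N : ℕ} {Xb V U D : Set (EN N)} {Λ : AddSubgroup ℂ} {u : EN N → ℂ} {α : TForm V Λ u}

open Pool.Agent.H62.EF (limit_curves pr_smul pr_eq_iff pr_lipschitz)

private theorem Lim_ne (h : EndData Xb V U D Λ u α) {x : EN N} (hx : x ∈ Xb) : x ≠ 0 := by
  rintro rfl
  exact h.cone.zero_notMem hx

private theorem Lim_ball (𝒰 : Ultrafilter ℕ) {ρ : ℕ → ℝ} (hρ : Tendsto ρ 𝒰 atTop) (R : ℝ) :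
    ∀ᶠ n in (𝒰 : Filter ℕ), closedBall (0 : ℂ) R ⊆ ball 0 (ρ n) := by
  filter_upwards [hρ.eventually_gt_atTop R] with n hn
  exact closedBall_subset_ball hn

/-- uniformity on compact discs -/
private theorem Lim_ev (𝒰 : Ultrafilter ℕ) {φ : ℕ → ℂ → EN N} {ψ : ℂ → EN N} {z₀ : ℂ} {r : ℝ} {W : Set (EN N)} (hW : IsOpen W)
    (hψ : ∀ z ∈ closedBall z₀ r, ψ z ∈ W)
    (hconv : ∀ (z : ℕ → ℂ) (z₁ : ℂ), z₁ ∈ closedBall z₀ r → Tendsto z (𝒰 : Filter ℕ) (𝓝 z₁) →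
      Tendsto (fun n => φ n (z n)) (𝒰 : Filter ℕ) (𝓝 (ψ z₁))) :
    ∀ᶠ n in (𝒰 : Filter ℕ), ∀ z ∈ closedBall z₀ r, φ n z ∈ W := by
  by_contra hcon
  rw [← Ultrafilter.eventually_not] at hcon
  push Not at hcon
  choose! w hw using fun (k : ℕ) (h : ∃ z ∈ closedBall z₀ r, φ k z ∉ W) => h
  have hw1 : ∀ᶠ k in (𝒰 : Filter ℕ), w k ∈ closedBall z₀ r := hcon.mono fun k hk => (hw k hk).1
  have hw2 : ∀ᶠ k in (𝒰 : Filter ℕ), φ k (w k) ∉ W := hcon.mono fun k hk => (hw k hk).2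
  obtain ⟨z', hz'mem, hz'⟩ : ∃ z' ∈ closedBall z₀ r, Tendsto w (𝒰 : Filter ℕ) (𝓝 z') := by
    obtain ⟨l, hl1, hl2⟩ := (isCompact_closedBall z₀ r).ultrafilter_le_nhds (𝒰.map w) (by
      rw [le_principal_iff]
      exact hw1)
    exact ⟨l, hl1, hl2⟩
  have h1 := (hconv w z' hz'mem hz').eventually (hW.mem_nhds (hψ z' hz'mem))
  obtain ⟨k, hk1, hk2⟩ := (h1.and hw2).exists
  exact hk2 hk1

/-- a curve which is locally constant in projective space is constant -/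
private theorem Lim_id {G : ℂ → EN N} (hG : Differentiable ℂ G) (h0 : ∀ z, G z ≠ 0) {z₀ : ℂ} {r : ℝ} (hr : 0 < r)
    (hloc : ∀ z ∈ ball z₀ r, ∃ c : ℂ, G z = c • G z₀) : ∀ z, ∃ c : ℂ, c ≠ 0 ∧ G z = c • G z₀ := by
  have hco : ∀ i, Differentiable ℂ (fun z => G z i) := fun i z =>
    ((EuclideanSpace.proj (𝕜 := ℂ) i : EN N →L[ℂ] ℂ).differentiableAt).comp z (hG z)
  have hmin : ∀ i j z, G z i * G z₀ j - G z j * G z₀ i = 0 := by
    intro i j z
    have hd : Differentiable ℂ (fun z => G z i * G z₀ j - G z j * G z₀ i) :=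
      ((hco i).mul_const _).sub ((hco j).mul_const _)
    have h1 : AnalyticOnNhd ℂ (fun z => G z i * G z₀ j - G z j * G z₀ i) Set.univ := fun z _ => hd.analyticAt z
    have h2 : AnalyticOnNhd ℂ (fun _ : ℂ => (0 : ℂ)) Set.univ := fun z _ => analyticAt_const
    have h3 := AnalyticOnNhd.eq_of_eventuallyEq (𝕜 := ℂ) h1 h2 (z₀ := z₀) (by
      filter_upwards [isOpen_ball.mem_nhds (mem_ball_self hr)] with w hw
      obtain ⟨c, hc⟩ := hloc w hw
      rw [hc]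
      simp only [PiLp.smul_apply, smul_eq_mul]
      ring)
    exact congrFun h3 z
  obtain ⟨j, hj⟩ : ∃ j, G z₀ j ≠ 0 := by
    by_contra hcon
    push Not at hcon
    apply h0 z₀
    ext j
    exact hcon j
  intro z
  have h1 : G z = (G z j / G z₀ j) • G z₀ := by
    ext i
    have := hmin i j z
    simp only [PiLp.smul_apply, smul_eq_mul]
    field_simp
    linear_combination this
  refine ⟨G z j / G z₀ j, ?_, h1⟩
  intro h2
  rw [h2, zero_smul] at h1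
  exact h0 z h1

private theorem Lim_const (h : EndData Xb V U D Λ u α) {L : ℝ} (𝒰 : Ultrafilter ℕ) (F : ℕ → ℂ → EN N) (ρ : ℕ → ℝ)
    (hρ : Tendsto ρ 𝒰 atTop) (hF : ∀ᶠ n in (𝒰 : Filter ℕ), DifferentiableOn ℂ (F n) (ball 0 (ρ n)) ∧
      ∀ z ∈ ball (0 : ℂ) (ρ n), F n z ∈ U ∧ fs (F n z) (deriv (F n) z) ≤ L)
    {G : ℂ → EN N} (hG : Differentiable ℂ G) (hGX : ∀ z, G z ∈ Xb) (hGD : ∀ z, G z ∈ D)
    (hloc : ∀ z₀, ∃ (r : ℝ) (φ : ℕ → ℂ → EN N) (ψ : ℂ → EN N), 0 < r ∧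
        (∀ᶠ n in (𝒰 : Filter ℕ), DifferentiableOn ℂ (φ n) (ball z₀ r) ∧ ∀ z ∈ ball z₀ r, ∃ c : ℂ, c ≠ 0 ∧ φ n z = c • F n z) ∧
        DifferentiableOn ℂ ψ (ball z₀ r) ∧ (∀ z ∈ ball z₀ r, ∃ c : ℂ, c ≠ 0 ∧ ψ z = c • G z) ∧
        TendstoLocallyUniformlyOn φ ψ 𝒰 (ball z₀ r)) :
    ∀ z, ∃ c : ℂ, c ≠ 0 ∧ G z = c • G 0 := by
  have hG0 : ∀ z, G z ≠ 0 := fun z => Lim_ne h (hGX z)
  obtain ⟨RR, hRD, hRc⟩ := h.hyp
  by_cases hA : ∀ z (a : ℂ), a ≠ 0 → a • G z ∈ RR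
  · intro z
    obtain ⟨c, hc⟩ := hRc G hG (fun z => by
      have := hA z 1 one_ne_zero
      rwa [one_smul] at this) z 0
    refine ⟨c, ?_, hc⟩
    rintro rfl
    rw [zero_smul] at hc
    exact hG0 z hc
  · push Not at hA
    obtain ⟨z₀, a, ha, hnr⟩ := hA
    have hx0 : a • G z₀ ∈ D := h.D_smul _ (hGD z₀) a ha
    obtain ⟨T, hTeu, hT⟩ := (hRD _ hx0).resolve_left hnr
    obtain ⟨ch, hchT, ⟨p₀, hp₀, b, hb, hx0b⟩, -⟩ := mk_ch h hx0 hT (O := Set.univ) Filter.univ_mem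
    rw [mem_singleton_iff] at hp₀
    subst hp₀
    have heu : ch.eu = true := by
      rw [← hTeu, ← hchT]
    have h03 : (0 : ℂ × ℂ) ∈ ball (0 : ℂ × ℂ) 3 := mem_ball_self (by norm_num)
    have hk : ch.k ≠ 0 := (lt_of_lt_of_le Nat.zero_lt_one ch.k_pos).ne'
    obtain ⟨-, hs0W, hqs0⟩ := ch.s_mem 0 h03
    obtain ⟨r, φ, ψ, hr, hφ, hψd, hψG, hconv⟩ := hloc z₀
    have hz₀ : z₀ ∈ ball z₀ r := mem_ball_self hr
    obtain ⟨c₀, hc₀, hψ0⟩ := hψG z₀ hz₀
    have hψs : ψ z₀ = (c₀ * a⁻¹ * b) • ch.s 0 := by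
      rw [hψ0, mul_smul, ← hx0b, mul_smul, smul_smul a⁻¹ a, inv_mul_cancel₀ ha, one_smul]
    have hcab : c₀ * a⁻¹ * b ≠ 0 := mul_ne_zero (mul_ne_zero hc₀ (inv_ne_zero ha)) hb
    have hψW : ψ z₀ ∈ ch.W := by
      rw [hψs]
      exact ch.smul_W _ hs0W _ hcab
    have hqψ0 : ch.q (ψ z₀) = 0 := by
      rw [hψs, ch.q_smul _ hs0W _ hcab, hqs0]
      simp [hk]
    -- the radius
    obtain ⟨r', hr', hr'r, hψr'⟩ : ∃ r' : ℝ, 0 < r' ∧ closedBall z₀ r' ⊆ ball z₀ r ∧ ∀ z ∈ closedBall z₀ r', ψ z ∈ ch.W := by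
      have h1 : ∀ᶠ z in 𝓝 z₀, ψ z ∈ ch.W :=
        (hψd.continuousOn.continuousAt (isOpen_ball.mem_nhds hz₀)).eventually (ch.isOpen_W.mem_nhds hψW)
      obtain ⟨s, hs, hs'⟩ := Metric.eventually_nhds_iff_ball.1 (h1.and (isOpen_ball.mem_nhds hz₀))
      refine ⟨s / 2, by positivity, fun z hz => (hs' z (closedBall_subset_ball (by linarith) hz)).2,
        fun z hz => (hs' z (closedBall_subset_ball (by linarith) hz)).1⟩
    have hcv : ∀ (z : ℕ → ℂ) (z₁ : ℂ), z₁ ∈ closedBall z₀ r' → Tendsto z (𝒰 : Filter ℕ) (𝓝 z₁) →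
        Tendsto (fun n => φ n (z n)) (𝒰 : Filter ℕ) (𝓝 (ψ z₁)) := by
      intro z z₁ hz₁ hz
      have hz₁' := hr'r hz₁
      have h1 : ∀ᶠ n in (𝒰 : Filter ℕ), z n ∈ ball z₀ r := hz.eventually (isOpen_ball.mem_nhds hz₁')
      refine hconv.tendsto_comp (hψd.continuousOn z₁ hz₁') hz₁' ?_
      rw [tendsto_nhdsWithin_iff]
      exact ⟨hz, h1⟩
    have hev := Lim_ev 𝒰 ch.isOpen_W hψr' hcv
    have hsub : ∀ᶠ n in (𝒰 : Filter ℕ), closedBall z₀ r' ⊆ ball 0 (ρ n) := by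
      filter_upwards [hρ.eventually_gt_atTop (‖z₀‖ + r')] with k hk z hz
      rw [mem_ball_zero_iff]
      rw [mem_closedBall_iff_norm] at hz
      have := norm_add_le (z - z₀) z₀
      rw [sub_add_cancel] at this
      linarith
    have hd : ∀ᶠ n in (𝒰 : Filter ℕ), DifferentiableOn ℂ (fun z => ch.q (φ n z)) (ball z₀ r') := by
      filter_upwards [hφ, hev] with n hn1 hn2 z hz
      have hz' := ball_subset_closedBall hz
      have h1 : DifferentiableAt ℂ ch.q (φ n z) := (ch.q_an _ (hn2 z hz')).differentiableAt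
      have h2 : DifferentiableAt ℂ (φ n) z :=
        (hn1.1 z (hr'r hz')).differentiableAt (isOpen_ball.mem_nhds (hr'r hz'))
      exact (h1.comp z h2).differentiableWithinAt
    have hne : ∀ᶠ n in (𝒰 : Filter ℕ), ∀ z ∈ ball z₀ r', (ch.q (φ n z)).1 ≠ 0 ∧ (ch.q (φ n z)).2 ≠ 0 := by
      filter_upwards [hφ, hev, hF, hsub] with n hn1 hn2 hn3 hn4 z hz
      have hz' := ball_subset_closedBall hz
      obtain ⟨c, hc, hcF⟩ := hn1.2 z (hr'r hz')
      have hFU := (hn3.2 z (hn4 hz')).1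
      have hφU : φ n z ∈ U := by
        rw [hcF]
        exact h.U_smul _ hFU c hc
      obtain ⟨p, hp, e, he, hpe⟩ := ch.surj _ (h.V_sub (h.U_sub hφU)) (hn2 z hz')
      obtain ⟨-, hsW, hqs⟩ := ch.s_mem p hp
      have hsU : ch.s p ∈ U := by
        have h1 : ch.s p = e⁻¹ • φ n z := by
          rw [hpe, smul_smul, inv_mul_cancel₀ he, one_smul]
        rw [h1]
        exact h.U_smul _ hφU _ (inv_ne_zero he)
      obtain ⟨hp1, hp2⟩ := (ch.s_U p hp).1 hsU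
      rw [hpe, ch.q_smul _ hsW _ he, hqs]
      exact ⟨pow_ne_zero _ hp1, pow_ne_zero _ (hp2 heu)⟩
    have hdψ : DifferentiableOn ℂ (fun z => ch.q (ψ z)) (ball z₀ r') := by
      intro z hz
      have hz' := ball_subset_closedBall hz
      have h1 : DifferentiableAt ℂ ch.q (ψ z) := (ch.q_an _ (hψr' z hz')).differentiableAt
      have h2 : DifferentiableAt ℂ ψ z :=
        (hψd z (hr'r hz')).differentiableAt (isOpen_ball.mem_nhds (hr'r hz'))
      exact (h1.comp z h2).differentiableWithinAt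
    have hcq : ∀ (z : ℕ → ℂ) (z₁ : ℂ), z₁ ∈ ball z₀ r' → Tendsto z (𝒰 : Filter ℕ) (𝓝 z₁) →
        Tendsto (fun n => ch.q (φ n (z n))) (𝒰 : Filter ℕ) (𝓝 (ch.q (ψ z₁))) := by
      intro z z₁ hz₁ hz
      have hz₁' := ball_subset_closedBall hz₁
      have h1 : ContinuousAt ch.q (ψ z₁) := (ch.q_an _ (hψr' z₁ hz₁')).continuousAt
      exact h1.tendsto.comp (hcv z z₁ hz₁' hz)
    have hz₀' : z₀ ∈ ball z₀ r' := mem_ball_self hr'
    have hs : ∀ z ∈ ball z₀ r', (ch.q (ψ z)).1 = 0 := by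
      rcases Pool.Agent.H62.Log.hurwitz 𝒰 (φ := fun n z => (ch.q (φ n z)).1) (ψ := fun z => (ch.q (ψ z)).1)
        (hd.mono fun k hk => hk.fst) (hne.mono fun k hk z hz => (hk z hz).1) hdψ.fst
        (fun z z₁ h1 h2 => (continuous_fst.tendsto _).comp (hcq z z₁ h1 h2)) with h1 | h1
      · exact h1
      · exact absurd (by rw [hqψ0]; rfl) (h1 z₀ hz₀')
    have ht : ∀ z ∈ ball z₀ r', (ch.q (ψ z)).2 = 0 := by
      rcases Pool.Agent.H62.Log.hurwitz 𝒰 (φ := fun n z => (ch.q (φ n z)).2) (ψ := fun z => (ch.q (ψ z)).2)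
        (hd.mono fun k hk => hk.snd) (hne.mono fun k hk z hz => (hk z hz).2) hdψ.snd
        (fun z z₁ h1 h2 => (continuous_snd.tendsto _).comp (hcq z z₁ h1 h2)) with h1 | h1
      · exact h1
      · exact absurd (by rw [hqψ0]; rfl) (h1 z₀ hz₀')
    have hloc' : ∀ z ∈ ball z₀ r', ∃ c : ℂ, G z = c • G z₀ := by
      intro z hz
      have hz' := ball_subset_closedBall hz
      obtain ⟨c, hc, hcG⟩ := hψG z (hr'r hz')
      have hψX : ψ z ∈ Xb := by
        rw [hcG]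
        exact h.cone.smul_mem _ (hGX z) c hc
      obtain ⟨p, hp, e, he, hpe⟩ := ch.surj _ hψX (hψr' z hz')
      obtain ⟨-, hsW, hqs⟩ := ch.s_mem p hp
      have hq := hs z hz
      have hq' := ht z hz
      rw [hpe, ch.q_smul _ hsW _ he, hqs] at hq hq'
      have hp0 : p = 0 := Prod.ext (pow_eq_zero_iff hk |>.1 hq) (pow_eq_zero_iff hk |>.1 hq')
      subst hp0
      have h1 : ch.s 0 = (c₀ * a⁻¹ * b)⁻¹ • c₀ • G z₀ := by
        rw [← hψ0, hψs, smul_smul, inv_mul_cancel₀ hcab, one_smul]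
      refine ⟨c⁻¹ * e * (c₀ * a⁻¹ * b)⁻¹ * c₀, ?_⟩
      have h2 : G z = c⁻¹ • ψ z := by
        rw [hcG, smul_smul, inv_mul_cancel₀ hc, one_smul]
      rw [h2, hpe, h1]
      simp only [smul_smul]
      congr 1
      ring
    have hall := Lim_id hG hG0 hr' hloc'
    intro z
    obtain ⟨c, hc, h1⟩ := hall z
    obtain ⟨e, he, h2⟩ := hall 0
    refine ⟨c * e⁻¹, mul_ne_zero hc (inv_ne_zero he), ?_⟩
    rw [h1, h2, smul_smul, mul_assoc, inv_mul_cancel₀ he, mul_one]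

private theorem Lim_fs {G : ℂ → EN N} (hG : Differentiable ℂ G) (h0 : ∀ z, G z ≠ 0)
    (hc : ∀ z, ∃ c : ℂ, c ≠ 0 ∧ G z = c • G 0) (z : ℂ) : fs (G z) (deriv G z) = 0 := by
  obtain ⟨j, hj⟩ : ∃ j, G 0 j ≠ 0 := by
    by_contra hcon
    push Not at hcon
    apply h0 0
    ext j
    exact hcon j
  have hco : Differentiable ℂ (fun z => G z j) := fun z =>
    ((EuclideanSpace.proj (𝕜 := ℂ) j : EN N →L[ℂ] ℂ).differentiableAt).comp z (hG z)
  have h1 : G = fun z => (G z j / G 0 j) • G 0 := by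
    funext w
    obtain ⟨c, -, hc'⟩ := hc w
    have h2 : G w j / G 0 j = c := by
      rw [hc']
      simp only [PiLp.smul_apply, smul_eq_mul]
      field_simp
    rw [h2]
    exact hc'
  have h2 : deriv G z = (deriv (fun z => G z j / G 0 j) z) • G 0 := by
    conv_lhs => rw [h1]
    have h3 : HasDerivAt (fun z => G z j / G 0 j) (deriv (fun z => G z j / G 0 j) z) z :=
      ((hco z).div_const _).hasDerivAt
    exact (h3.smul_const (G 0)).deriv
  obtain ⟨c, hc0, hc'⟩ := hc z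
  have h4 : wd (G z) (deriv G z) = 0 := by
    rw [Pool.Agent.H36.BP.wd_eq_zero (h0 z)]
    refine ⟨deriv (fun z => G z j / G 0 j) z * c⁻¹, ?_⟩
    rw [h2, hc', smul_smul, mul_assoc, inv_mul_cancel₀ hc0, mul_one]
  unfold fs
  rw [h4, zero_div]

theorem lim_const (h : EndData Xb V U D Λ u α) {L : ℝ} (hL : 0 < L) (𝒰 : Ultrafilter ℕ) (F : ℕ → ℂ → EN N) (ρ : ℕ → ℝ)
    (hρ : Tendsto ρ 𝒰 atTop) (hF : ∀ᶠ n in (𝒰 : Filter ℕ), DifferentiableOn ℂ (F n) (ball 0 (ρ n)) ∧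
      ∀ z ∈ ball (0 : ℂ) (ρ n), F n z ∈ U ∧ fs (F n z) (deriv (F n) z) ≤ L)
    (he : ∀ z, Tendsto (fun n => ‖Complex.exp (u (F n z))‖) 𝒰 (𝓝 0)) :
    ∃ x₀ ∈ D, (∀ z, Tendsto (fun n => pr (F n z)) 𝒰 (𝓝 (pr x₀))) ∧ ∀ z, Tendsto (fun n => fs (F n z) (deriv (F n) z)) 𝒰 (𝓝 0) := by
  obtain ⟨G, hG, hGX, hpr, hfs, hloc⟩ := limit_curves h.cone hL 𝒰 F ρ hρ
    (hF.mono fun n hn => ⟨hn.1, fun z hz => ⟨h.V_sub (h.U_sub (hn.2 z hz).1), (hn.2 z hz).2⟩⟩)
  have hG0 : ∀ z, G z ≠ 0 := fun z => Lim_ne h (hGX z)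
  have hGD : ∀ z, G z ∈ D := by
    intro z
    refine tendsto_D h (hG0 z) 𝒰 (fun n => F n z) ?_ (hpr z) (he z)
    filter_upwards [hF, Lim_ball 𝒰 hρ ‖z‖] with n hn1 hn2
    exact h.U_sub (hn1.2 z (hn2 (by simp))).1
  have hcst := Lim_const h 𝒰 F ρ hρ hF hG hGX hGD hloc
  refine ⟨G 0, hGD 0, fun z => ?_, fun z => ?_⟩
  · obtain ⟨c, hc, h1⟩ := hcst z
    have h2 := hpr z
    rwa [h1, pr_smul _ hc] at h2
  · have h1 := hfs z
    rwa [Lim_fs hG hG0 hcst z] at h1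

theorem lim_unif (hX : IsCone Xb) {L : ℝ} (hL : 0 < L) (𝒰 : Ultrafilter ℕ) (F : ℕ → ℂ → EN N) (ρ : ℕ → ℝ)
    (hρ : Tendsto ρ 𝒰 atTop) (hF : ∀ᶠ n in (𝒰 : Filter ℕ), DifferentiableOn ℂ (F n) (ball 0 (ρ n)) ∧
      ∀ z ∈ ball (0 : ℂ) (ρ n), F n z ∈ Xb ∧ fs (F n z) (deriv (F n) z) ≤ L) {x₀ : EN N}
    (hx : ∀ z, Tendsto (fun n => pr (F n z)) 𝒰 (𝓝 (pr x₀))) (R ε : ℝ) (hε : 0 < ε) :
    ∀ᶠ n in (𝒰 : Filter ℕ), ∀ z ∈ closedBall (0 : ℂ) R, dist (pr (F n z)) (pr x₀) < ε := by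
  obtain ⟨δ, hδ, hδε⟩ : ∃ δ : ℝ, 0 < δ ∧ 2 * L * δ ≤ ε / 2 := by
    refine ⟨ε / (4 * L), by positivity, le_of_eq ?_⟩
    field_simp
    norm_num
  obtain ⟨t, -, htf, ht⟩ := (isCompact_closedBall (0 : ℂ) R).finite_cover_balls hδ
  have h1 : ∀ᶠ n in (𝒰 : Filter ℕ), ∀ w ∈ t, dist (pr (F n w)) (pr x₀) < ε / 2 := by
    rw [Filter.eventually_all_finite htf]
    intro w _
    exact (Metric.tendsto_nhds.1 (hx w)) (ε / 2) (by positivity)
  obtain ⟨R', hR'⟩ : ∃ R' : ℝ, ∀ w ∈ t, ‖w‖ ≤ R' := by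
    obtain ⟨R', h2⟩ := htf.isBounded.exists_norm_le
    exact ⟨R', h2⟩
  filter_upwards [hF, h1, Lim_ball 𝒰 hρ R, Lim_ball 𝒰 hρ R'] with n hn1 hn2 hn3 hn4 z hz
  have h3 := ht hz
  simp only [mem_iUnion, mem_ball, exists_prop] at h3
  obtain ⟨w, hwt, hzw⟩ := h3
  have h4 := pr_lipschitz isOpen_ball (convex_ball (0 : ℂ) (ρ n)) hn1.1
    (fun v hv h0 => hX.zero_notMem (h0 ▸ (hn1.2 v hv).1)) (fun v hv => (hn1.2 v hv).2) z (hn3 hz) w
    (hn4 (by rw [mem_closedBall_zero_iff]; exact hR' w hwt))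
  have h5 := hn2 w hwt
  rw [dist_eq_norm] at hzw
  have h6 : 2 * L * ‖z - w‖ ≤ 2 * L * δ := by gcongr
  have h7 := dist_triangle (pr (F n z)) (pr (F n w)) (pr x₀)
  linarith

end Pool.Agent.EG.LE
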