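import Pool.Agent.EG.LE.Mk
import Pool.Agent.EG.LE.Pt
import Pool.Agent.EG.LE.Cl
import Pool.Agent.H62.EF.PrA

/-!
# EG LE Sel: a finite family of charts

Proof (helper41):
C0 := {x in D | no chart of type ex = false}; pr '' C0 is finite (D_fin); choose representatives x_1, ..., x_n (n distinct points of projective space) and for each of them a type T_i with a chart
(D_end); T_i.ex = true.  Choose open cones O_i around x_i, pairwise disjoint, with x_j not in O_i for j ≠ i (distinct points pr x_i of a metric space: O_i := {y ≠ 0 | dist (pr y) (pr x_i) < d / 2},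
d the minimal distance), and charts c_i := mk_ch with c_i.W ⊆ O_i (O_i is a cone, so a • x in O_i implies x in O_i).
K := union of the compact sets K_i := pr '' (c_i.s '' {‖p.1‖ ≤ 1/2, ‖p.2‖ ≤ 1/2}) (isCompact_pt, pt_pr).
D' := pr '' {x in D | no i with c_i.Pt (CenB b_i) x} is compact: pr '' D is compact (isCone_D, H62.EF.isCompact_pr) and the condition is closed (pt_open for the open set CenB b ∩ ball 0 3; pt_pr).
A point x of D with pr x in D' is not in K: if x = a • c_i.s p, ‖p.1‖, ‖p.2‖ ≤ 1/2, x in D, then x not in V? no: use: x in D implies p.1 * p.2 ^ b = 0.  Indeed if p.1 * p.2 ^ b ≠ 0 then the points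
of V near x have ‖exp u‖ ≥ c > 0 (exp u (s p') = κ p'.1 p'.2^b is near κ p.1 p.2^b ≠ 0 for p' near p, pt_open), but x in D has points of V arbitrarily near with ‖exp u‖ arbitrarily small
(near_D: sigma p', p' -> 0 in the chart of D_end).  So p.1 = 0 (then CenS p) or b = 1, p.2 = 0 (then CenS p.swap), so p in CenB b: contradiction.
For x with pr x in D': x is not a multiple of any x_i (the centres are in CenB: Pt {0}), so x has a chart of type ex = false; K is closed, choose the chart c_x := mk_ch with c_x.W disjoint from the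
cone over K.  The sets {pr y | c_x.Pt CenS y} are neighbourhoods of pr x relative to pr '' Xb (pt_open): finitely many of them cover D'.
Family: the c_i and these finitely many c_x (κ := Fin n ⊕ Fin m or a subtype).  cov: clear.  sep: i has ex = true, so i is one of the c_i; j = c_j: c_j.W ⊆ O_j, c_i.s p in O_i; j = c_x: c_x.W is disjoint from the cone over K.
-/

set_option autoImplicit false

open Topology Filter Metric Set

namespace Pool.Agent.EG.LE

open Pool.Agent.H36.BP (EN fs wd)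
open Pool.Agent.H14.PP (IsCone Tan jac)
open Pool.Agent.H62.EF (MN pr)
open Pool.Agent.H62.EL (TForm)
open Pool.Agent.EG.RL (rot)

variable {N : ℕ} {Xb V U D : Set (EN N)} {Λ : AddSubgroup ℂ} {u : EN N → ℂ} {α : TForm V Λ u}

private theorem Sel_cen {b : ℕ} : (0 : ℂ × ℂ) ∈ CenB b := by
  refine Or.inl ⟨?_, ?_⟩
  · rw [Prod.fst_zero, norm_zero]
    norm_num
  · rw [Prod.snd_zero, norm_zero]
    norm_num

private theorem Sel_cen_ball {b : ℕ} : CenB b ⊆ ball (0 : ℂ × ℂ) 3 := by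
  rintro p hp
  rw [mem_ball_zero_iff, Prod.norm_def, max_lt_iff]
  rcases hp with ⟨h1, h2⟩ | ⟨-, h1, h2⟩
  · exact ⟨by linarith, by linarith⟩
  · rw [Prod.fst_swap] at h1
    rw [Prod.snd_swap] at h2
    exact ⟨by linarith, by linarith⟩

private theorem Sel_cenS_open : IsOpen {p : ℂ × ℂ | CenS p} := by
  have h1 : IsOpen {p : ℂ × ℂ | ‖p.1‖ < 3 / 8} := isOpen_lt (by fun_prop) continuous_const
  have h2 : IsOpen {p : ℂ × ℂ | ‖p.2‖ < 7 / 8} := isOpen_lt (by fun_prop) continuous_const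
  exact h1.inter h2

private theorem Sel_cen_open {b : ℕ} : IsOpen (CenB b) := by
  have h1 : IsOpen {p : ℂ × ℂ | CenS p.swap} := Sel_cenS_open.preimage continuous_swap
  by_cases hb : b = 1
  · have h2 : CenB b = {p : ℂ × ℂ | CenS p} ∪ {p : ℂ × ℂ | CenS p.swap} := by
      ext p
      exact ⟨fun h => h.imp id fun h => h.2, fun h => h.imp id fun h => ⟨hb, h⟩⟩
    rw [h2]
    exact Sel_cenS_open.union h1
  · have h2 : CenB b = {p : ℂ × ℂ | CenS p} := by
      ext p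
      exact ⟨fun h => h.resolve_right fun h => hb h.1, fun h => Or.inl h⟩
    rw [h2]
    exact Sel_cenS_open

private theorem Sel_half {p : ℂ × ℂ} (h1 : ‖p.1‖ ≤ 1 / 2) (h2 : ‖p.2‖ ≤ 1 / 2) : p ∈ ball (0 : ℂ × ℂ) 3 := by
  rw [mem_ball_zero_iff, Prod.norm_def, max_lt_iff]
  exact ⟨by linarith, by linarith⟩

/-- A point of the chart: the points of the cone with near projection are in the chart. -/
private theorem Sel_near (h : EndData Xb V U D Λ u α) (c : LCh Xb V U α) {x : EN N} (hx0 : x ≠ 0) (hx : c.Pt (CenB c.b) x) :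
    ∃ δ : ℝ, 0 < δ ∧ ∀ y ∈ Xb, dist (pr y) (pr x) < δ → c.Pt (CenB c.b) y := by
  have h1 := pt_open h c Sel_cen_open Sel_cen_ball hx
  obtain ⟨δ, hδ, h2⟩ := Pool.Agent.H62.EF.near_of_pr hx0 h1
  refine ⟨δ, hδ, fun y hy hd => ?_⟩
  have hy0 : y ≠ 0 := fun h3 => h.cone.zero_notMem (h3 ▸ hy)
  obtain ⟨a, ha, h3⟩ := h2 y hy0 hd
  have h4 := pt_smul c (h3 (h.cone.smul_mem y hy a ha)) (inv_ne_zero ha)
  rwa [smul_smul, inv_mul_cancel₀ ha, one_smul] at h4

/-- Near a point of `D` the function `exp u` is small. -/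
private theorem Sel_small {x : EN N} {T : Typ} (hT : IsEndT Xb V U α T x) {c₀ : ℝ} (hc₀ : 0 < c₀) {O : Set (EN N)} (hO : O ∈ 𝓝 x) :
    ∃ y ∈ O, y ∈ V ∧ ‖Complex.exp (u y)‖ < c₀ := by
  obtain ⟨σ, τ, hσ, -, hσ0, -, hp, -⟩ := hT
  have hd : Tendsto (fun t : ℂ => ((t, t) : ℂ × ℂ)) (𝓝[≠] (0 : ℂ)) (𝓝 0) := by
    have h1 : Continuous fun t : ℂ => ((t, t) : ℂ × ℂ) := by fun_prop
    exact (h1.tendsto 0).mono_left nhdsWithin_le_nhds
  have h1 : ∀ᶠ t : ℂ in 𝓝[≠] (0 : ℂ), σ (t, t) ∈ O := by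
    have h2 : Tendsto (fun t : ℂ => σ (t, t)) (𝓝[≠] (0 : ℂ)) (𝓝 x) := by
      rw [← hσ0]
      exact hσ.continuousAt.tendsto.comp hd
    exact h2.eventually_mem hO
  have h2 : ∀ᶠ t : ℂ in 𝓝[≠] (0 : ℂ), ‖t * t ^ T.b‖ < c₀ := by
    have h3 : Continuous fun t : ℂ => ‖t * t ^ T.b‖ := by fun_prop
    have h4 : Tendsto (fun t : ℂ => ‖t * t ^ T.b‖) (𝓝[≠] (0 : ℂ)) (𝓝 0) := by
      have h5 := (h3.tendsto 0).mono_left (nhdsWithin_le_nhds (s := {0}ᶜ))
      rwa [zero_mul, norm_zero] at h5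
    exact h4.eventually_lt_const hc₀
  have h3 : ∀ᶠ t : ℂ in 𝓝[≠] (0 : ℂ), t ≠ 0 := self_mem_nhdsWithin
  obtain ⟨t, ⟨⟨h4, h5⟩, h6⟩, h7⟩ := (((h1.and h2).and h3).and (hd.eventually hp)).exists
  have h8 : σ (t, t) ∈ V := h7.2.1.2 ⟨h6, fun _ => h6⟩
  exact ⟨_, h4, h8, by rw [h7.2.2.2 h8]; exact h5⟩

/-- The points of `D` in a chart are on the axes. -/
private theorem Sel_axis (h : EndData Xb V U D Λ u α) (c : LCh Xb V U α) {x : EN N} (hx : x ∈ D) {p : ℂ × ℂ} (hp : p ∈ ball (0 : ℂ × ℂ) 3)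
    {a : ℂ} (ha : a ≠ 0) (he : x = a • c.s p) : p.1 * p.2 ^ c.b = 0 := by
  by_contra hcon
  have hne : c.κ * p.1 * p.2 ^ c.b ≠ 0 := by
    rw [mul_assoc]
    exact mul_ne_zero c.κ_ne hcon
  have hpos : 0 < ‖c.κ * p.1 * p.2 ^ c.b‖ := norm_pos_iff.2 hne
  set c₀ : ℝ := ‖c.κ * p.1 * p.2 ^ c.b‖ / 2 with hc₀
  have hc₀pos : 0 < c₀ := by positivity
  set A : Set (ℂ × ℂ) := ball 0 3 ∩ {p' | c₀ < ‖c.κ * p'.1 * p'.2 ^ c.b‖} with hA
  have hAo : IsOpen A := isOpen_ball.inter (isOpen_lt continuous_const (by fun_prop))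
  have hpA : p ∈ A := ⟨hp, by change c₀ < ‖c.κ * p.1 * p.2 ^ c.b‖; linarith⟩
  have h1 := pt_open h c hAo inter_subset_left (x := x) ⟨p, hpA, a, ha, he⟩
  obtain ⟨T, hT⟩ := h.D_end x hx
  obtain ⟨y, hyO, hyV, hy⟩ := Sel_small hT hc₀pos h1
  obtain ⟨p', hp', a', ha', hy'⟩ := hyO (h.V_sub hyV)
  have hs : c.s p' ∈ V := by
    have h2 := h.V_smul y hyV a'⁻¹ (inv_ne_zero ha')
    rwa [hy', smul_smul, inv_mul_cancel₀ ha', one_smul] at h2
  have h2 : Complex.exp (u y) = Complex.exp (u (c.s p')) := by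
    have h3 := (h.lat _).1 (h.u_smul _ hs a' ha')
    rw [← hy', Complex.exp_sub, div_eq_one_iff_eq (Complex.exp_ne_zero _)] at h3
    exact h3
  rw [h2, c.s_u p' hp'.1 hs] at hy
  have h3 : c₀ < ‖c.κ * p'.1 * p'.2 ^ c.b‖ := hp'.2
  linarith

theorem exists_fam (h : EndData Xb V U D Λ u α) : ∃ κ : Type, Nonempty (LFam Xb V U D α κ) := by
  classical
  set C0 : Set (EN N) := {x | x ∈ D ∧ ¬ ∃ T : Typ, T.ex = false ∧ IsEndT Xb V U α T x} with hC0
  have hD0 : ∀ x ∈ D, x ≠ 0 := fun x hx h0 => h.cone.zero_notMem (h0 ▸ h.D_sub hx)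
  have hfin : (pr '' C0).Finite := h.D_fin
  have : Finite (pr '' C0) := hfin.to_subtype
  obtain ⟨𝒰, h𝒰, hdisj⟩ := hfin.t2_separation
  -- the charts at the special points
  have hch : ∀ i : pr '' C0, ∃ c : LCh Xb V U α, c.ex = true ∧ (∀ x ∈ D, pr x = i → c.Pt (CenB c.b) x) ∧ ∀ y ∈ c.W, pr y ∈ 𝒰 i := by
    rintro ⟨_, x, hx, rfl⟩
    obtain ⟨T, hT⟩ := h.D_end x hx.1
    have hx0 := hD0 x hx.1
    have hO : {y : EN N | pr y ∈ 𝒰 (pr x)} ∈ 𝓝 x :=
      (Pool.Agent.H62.EF.continuousAt_pr hx0).preimage_mem_nhds ((h𝒰 (pr x)).2.mem_nhds (h𝒰 (pr x)).1)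
    obtain ⟨c, hcT, hc0, hcW⟩ := mk_ch h hx.1 hT hO
    refine ⟨c, ?_, ?_, ?_⟩
    · rw [hcT]
      by_contra hcon
      exact hx.2 ⟨T, by simpa using hcon, hT⟩
    · intro y hy hyx
      obtain ⟨a, ha, h1⟩ := (Pool.Agent.H62.EF.pr_eq_iff (hD0 y hy) hx0).1 hyx
      obtain ⟨p, hp, b, hb, h2⟩ := pt_smul c hc0 ha
      rw [mem_singleton_iff] at hp
      subst hp
      exact ⟨0, Sel_cen, b, hb, by rw [h1, h2]⟩
    · intro y hy
      obtain ⟨a, ha, h1⟩ := hcW y hy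
      have h2 : pr (a • y) ∈ 𝒰 (pr x) := h1
      rwa [Pool.Agent.H62.EF.pr_smul y ha] at h2
  choose c hcex hcD hcW using hch
  -- the compact set
  set K : Set (MN N) := ⋃ i, (fun p => pr ((c i).s p)) '' closedBall (0 : ℂ × ℂ) (1 / 2) with hK
  have hKc : IsClosed K := by
    refine isClosed_iUnion_of_finite fun i => (isCompact_pt h (c i) (isCompact_closedBall _ _) ?_).isClosed
    exact closedBall_subset_ball (by norm_num)
  have hKD : ∀ x ∈ D, (∀ i, ¬ (c i).Pt (CenB (c i).b) x) → pr x ∉ K := by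
    intro x hx hno hxK
    obtain ⟨i, p, hp, hpx⟩ := mem_iUnion.1 hxK
    apply hno i
    have hp3 : p ∈ ball (0 : ℂ × ℂ) 3 := closedBall_subset_ball (by norm_num) hp
    have h1 : (c i).Pt {p} x := by
      rw [pt_pr h (c i) (singleton_subset_iff.2 hp3) (hD0 x hx)]
      exact ⟨p, rfl, hpx⟩
    obtain ⟨p', hp', a, ha, h2⟩ := h1
    rw [mem_singleton_iff] at hp'
    subst hp'
    have h3 := Sel_axis h (c i) hx hp3 ha h2
    rw [mem_closedBall_zero_iff, Prod.norm_def, max_le_iff] at hp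
    refine ⟨p', ?_, a, ha, h2⟩
    rcases mul_eq_zero.1 h3 with h4 | h4
    · refine Or.inl ⟨?_, ?_⟩
      · rw [h4, norm_zero]
        norm_num
      · linarith [hp.2]
    · have hb : (c i).b ≠ 0 := by
        intro h5
        rw [h5, pow_zero] at h4
        exact one_ne_zero h4
      have hb1 : (c i).b = 1 := le_antisymm (c i).b_le (Nat.one_le_iff_ne_zero.2 hb)
      have h5 : p'.2 = 0 := eq_zero_of_pow_eq_zero h4
      refine Or.inr ⟨hb1, ?_, ?_⟩
      · rw [Prod.fst_swap, h5, norm_zero]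
        norm_num
      · rw [Prod.snd_swap]
        linarith [hp.1]
  -- the other charts
  have hcone := isCone_D h
  obtain ⟨L, hL, hcov⟩ : ∃ L : List (LCh Xb V U α), (∀ d ∈ L, d.ex = false ∧ ∀ y ∈ d.W, pr y ∉ K) ∧
      ∀ y ∈ D, pr y ∈ pr '' D → (∃ i, (c i).Pt (CenB (c i).b) y) ∨ ∃ d ∈ L, d.Pt (CenB d.b) y := by
    refine IsCompact.induction_on (p := fun s => ∃ L : List (LCh Xb V U α), (∀ d ∈ L, d.ex = false ∧ ∀ y ∈ d.W, pr y ∉ K) ∧
      ∀ y ∈ D, pr y ∈ s → (∃ i, (c i).Pt (CenB (c i).b) y) ∨ ∃ d ∈ L, d.Pt (CenB d.b) y)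
      (Pool.Agent.H62.EF.isCompact_pr hcone) ?_ ?_ ?_ ?_
    · exact ⟨[], fun d hd => absurd hd List.not_mem_nil, fun y _ hy => absurd hy (notMem_empty _)⟩
    · rintro s t hst ⟨L, h1, h2⟩
      exact ⟨L, h1, fun y hy hys => h2 y hy (hst hys)⟩
    · rintro s t ⟨L, h1, h2⟩ ⟨L', h1', h2'⟩
      refine ⟨L ++ L', fun d hd => ?_, fun y hy hyst => ?_⟩
      · rcases List.mem_append.1 hd with h3 | h3
        · exact h1 d h3
        · exact h1' d h3
      · rcases hyst with h3 | h3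
        · rcases h2 y hy h3 with h4 | ⟨d, h4, h5⟩
          · exact Or.inl h4
          · exact Or.inr ⟨d, List.mem_append_left _ h4, h5⟩
        · rcases h2' y hy h3 with h4 | ⟨d, h4, h5⟩
          · exact Or.inl h4
          · exact Or.inr ⟨d, List.mem_append_right _ h4, h5⟩
    · rintro _ ⟨x, hx, rfl⟩
      have hx0 := hD0 x hx
      by_cases hcase : ∃ i, (c i).Pt (CenB (c i).b) x
      · obtain ⟨i, hi⟩ := hcase
        obtain ⟨δ, hδ, h1⟩ := Sel_near h (c i) hx0 hi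
        exact ⟨ball (pr x) δ, mem_nhdsWithin_of_mem_nhds (ball_mem_nhds _ hδ), [], fun d hd => absurd hd List.not_mem_nil,
          fun y hy hyx => Or.inl ⟨i, h1 y (h.D_sub hy) hyx⟩⟩
      · push Not at hcase
        have hxC : x ∉ C0 := fun hxC => hcase ⟨pr x, x, hxC, rfl⟩ (hcD ⟨pr x, x, hxC, rfl⟩ x hx rfl)
        obtain ⟨T, hTex, hT⟩ : ∃ T : Typ, T.ex = false ∧ IsEndT Xb V U α T x := by
          by_contra hcon
          exact hxC ⟨hx, hcon⟩
        have hO : {y : EN N | pr y ∈ Kᶜ} ∈ 𝓝 x :=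
          (Pool.Agent.H62.EF.continuousAt_pr hx0).preimage_mem_nhds (hKc.isOpen_compl.mem_nhds (hKD x hx hcase))
        obtain ⟨d, hdT, hd0, hdW⟩ := mk_ch h hx hT hO
        have hdx : d.Pt (CenB d.b) x := by
          obtain ⟨p, hp, b, hb, h2⟩ := hd0
          rw [mem_singleton_iff] at hp
          subst hp
          exact ⟨0, Sel_cen, b, hb, h2⟩
        obtain ⟨δ, hδ, h1⟩ := Sel_near h d hx0 hdx
        refine ⟨ball (pr x) δ, mem_nhdsWithin_of_mem_nhds (ball_mem_nhds _ hδ), [d], fun d' hd' => ?_,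
          fun y hy hyx => Or.inr ⟨d, List.mem_singleton.2 rfl, h1 y (h.D_sub hy) hyx⟩⟩
        rw [List.mem_singleton] at hd'
        subst hd'
        refine ⟨by rw [hdT]; exact hTex, fun y hy => ?_⟩
        obtain ⟨a, ha, h2⟩ := hdW y hy
        have h3 : pr (a • y) ∉ K := h2
        rwa [Pool.Agent.H62.EF.pr_smul y ha] at h3
  -- the family
  refine ⟨(pr '' C0) ⊕ Fin L.length, ⟨⟨Sum.elim c fun k => L.get k, inferInstance, ?_, ?_⟩⟩⟩
  · rintro (i | k) (i' | k') hne hex p hp1 hp2 hmem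
    · have h1 : i ≠ i' := fun h2 => hne (by rw [h2])
      have h2 := hcW i _ ((c i).s_mem p (Sel_half hp1 hp2)).2.1
      have h3 := hcW i' _ hmem
      exact Set.disjoint_left.1 (hdisj i.2 i'.2 fun h4 => h1 (Subtype.ext h4)) h2 h3
    · have h1 := (hL (L.get k') (List.get_mem _ _)).2 _ hmem
      apply h1
      refine mem_iUnion.2 ⟨i, p, ?_, rfl⟩
      rw [mem_closedBall_zero_iff, Prod.norm_def, max_le_iff]
      exact ⟨hp1, hp2⟩
    · have h1 := (hL (L.get k) (List.get_mem _ _)).1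
      rw [Sum.elim_inr, h1] at hex
      exact Bool.false_ne_true hex
    · have h1 := (hL (L.get k) (List.get_mem _ _)).1
      rw [Sum.elim_inr, h1] at hex
      exact Bool.false_ne_true hex
  · intro x hx
    rcases hcov x hx ⟨x, hx, rfl⟩ with ⟨i, hi⟩ | ⟨d, hd, hdx⟩
    · exact ⟨Sum.inl i, hi⟩
    · obtain ⟨k, hk⟩ := List.mem_iff_get.1 hd
      refine ⟨Sum.inr k, ?_⟩
      rw [Sum.elim_inr, hk]
      exact hdx

end Pool.Agent.EG.LE
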