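import Pool.Agent.EG.LE.Seam
import Pool.Agent.EG.LE.Grow
import Pool.Agent.EG.LE.CellS
import Pool.Agent.EG.LE.CellC
import Pool.Agent.EG.LE.Sel
import Pool.Agent.H87.LU.Ends

/-!
# EG LE Main: the left end of a log surface over `ℂ^*`
-/

set_option autoImplicit false

open Topology Filter Metric Set

namespace Pool.Agent.EG.LE

open Pool.Agent.H36.BP (EN fs wd)
open Pool.Agent.H14.PP (IsCone Tan jac)
open Pool.Agent.H62.EF (MN pr)
open Pool.Agent.H62.EL (TForm)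
open Pool.Agent.EG.RL (rot Cen Model Bphi)
open Pool.Agent.H87.LU (LEnd)

variable {N : ℕ} {Xb V U D : Set (EN N)} {Λ : AddSubgroup ℂ} {u : EN N → ℂ} {α : TForm V Λ u} {κ : Type}

theorem cenS_cen {p : ℂ × ℂ} (hp : CenS p) : Cen p := ⟨by linarith [hp.1], by linarith [hp.2]⟩

/-- the cells -/
theorem cells (h : EndData Xb V U D Λ u α) (F : LFam Xb V U D α κ) : ∃ X₀ : ℝ, ∀ T₁ r₂ : ℝ, X₀ ≤ T₁ → 0 < r₂ → Away V U Λ u T₁ r₂ →
    ∃ C r₁ : ℝ, 0 ≤ C ∧ 4 ≤ r₁ ∧ r₂ + 4 ≤ r₁ ∧ ∀ (c : ℂ) (R : ℝ) (f : ℂ → EN N) (t₁ : ℂ), c.re = 0 → SecOn U Λ u (ball c R) f →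
      t₁ ∈ ball c (R - r₁) → t₁.re ≤ -T₁ → ∃ (x : Ix F) (w : ℂ → ℂ), DifferentiableOn ℂ w (ball t₁ 4) ∧
        ∀ t ∈ ball t₁ 4, CenS (F.XX x t (w t)) ∧ pr (f t) = pr (F.Phi x t (w t)) ∧ ‖w t‖ ≤ C * (1 + R) ^ 4 := by
  obtain ⟨r, X₁, hr5, hchart⟩ := cell_chart h F 5 (by norm_num)
  obtain ⟨X₂, hgrow⟩ := hbound h F
  refine ⟨max X₁ X₂, fun T₁ r₂ hT hr₂ hA => ?_⟩
  obtain ⟨C, r₁, hC, hr₁, hb⟩ := hgrow T₁ r₂ ((le_max_right _ _).trans hT) hr₂ hA
  refine ⟨9 * C + 8 + 9 * Real.pi + 1, max (max r₁ r) (r₂ + 4), by positivity, ?_, le_max_right _ _, fun c R f t₁ hc hf ht hT1 => ?_⟩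
  · exact ((by linarith : (4 : ℝ) ≤ r).trans (le_max_right _ _)).trans (le_max_left _ _)
  have hRr₁ : r₁ ≤ max (max r₁ r) (r₂ + 4) := (le_max_left _ _).trans (le_max_left _ _)
  have hRr : r ≤ max (max r₁ r) (r₂ + 4) := (le_max_right _ _).trans (le_max_left _ _)
  set r' : ℝ := max (max r₁ r) (r₂ + 4) with hr'
  have hR : 0 < R := by
    rw [mem_ball] at ht
    have := dist_nonneg.trans_lt ht
    linarith
  have hsub : ball t₁ r ⊆ ball c R := by
    rw [mem_ball] at ht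
    exact ball_subset_ball' (by linarith)
  have hfr : SecOn U Λ u (ball t₁ r) f := ⟨hf.1.mono hsub, fun s hs => hf.2 s (hsub hs)⟩
  obtain ⟨x, hx⟩ := hchart t₁ f (by linarith [(le_max_left X₁ X₂).trans hT]) hfr
  have hsub5 : ball t₁ 5 ⊆ ball t₁ r := ball_subset_ball hr5.le
  obtain ⟨g, hg, hgim, hgX⟩ := exists_cell h F x (by norm_num : (0 : ℝ) < 5) (hfr.1.mono hsub5)
    (fun z hz => ⟨h.U_sub (hfr.2 z (hsub5 hz)).1, (hfr.2 z (hsub5 hz)).2⟩) hx
  have h45 : ball t₁ 4 ⊆ ball t₁ 5 := ball_subset_ball (by norm_num)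
  refine ⟨x, g, hg.mono h45, fun t ht4 => ?_⟩
  obtain ⟨hc1, a, ha, hfa⟩ := hgX t (h45 ht4)
  refine ⟨hc1, ?_, ?_⟩
  · rw [hfa]
    exact Pool.Agent.H62.EF.pr_smul _ ha
  have h1R : (1 : ℝ) ≤ (1 + R) ^ 4 := one_le_pow₀ (by linarith)
  by_cases hex : (F.ch x).ex = true
  · have hX2 : ∀ z, (F.XX x z (g z)).2 = Complex.exp (g z) := fun z => by
      rw [XX_eq]
      simp only [hex, if_true]
    have hre : ∀ z ∈ ball t₁ 5, (g z).re ≤ 1 := fun z hz => by
      have h1 := (hgX z hz).1.2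
      rw [hX2, Complex.norm_exp] at h1
      have h2 : Real.exp (g z).re < Real.exp 0 := by
        rw [Real.exp_zero]
        linarith
      linarith [Real.exp_lt_exp.1 h2]
    have ht₁ : t₁ ∈ ball t₁ 5 := mem_ball_self (by norm_num)
    have hre1 : |(g t₁).re| ≤ C * (1 + R) ^ 4 := by
      obtain ⟨hc2, a', ha', hfa'⟩ := hgX t₁ ht₁
      have h1 := hb c R f t₁ x _ hc hf (ball_subset_ball (by linarith) ht) hT1 hex hc2 ⟨a', ha', hfa'⟩
      rw [hX2, Complex.norm_exp, Real.log_exp] at h1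
      have h2 : (g t₁).re ≤ 0 := by
        have h3 := hc2.2
        rw [hX2, Complex.norm_exp] at h3
        have h4 : Real.exp (g t₁).re < Real.exp 0 := by
          rw [Real.exp_zero]
          linarith
        exact (Real.exp_lt_exp.1 h4).le
      rw [abs_of_nonpos h2]
      exact h1
    have hn1 : ‖g t₁‖ ≤ C * (1 + R) ^ 4 + Real.pi := (Complex.norm_le_abs_re_add_abs_im _).trans (add_le_add hre1 (hgim hex))
    have hbc := Complex.borelCaratheodory (M := 1) (R := 5) (f := fun s => g (t₁ + s)) (z := t - t₁) one_pos ?_ ?_ (by norm_num) ?_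
    · rw [mem_ball, dist_eq_norm] at ht4
      simp only [add_sub_cancel, add_zero, mul_one] at hbc
      have hn := norm_nonneg (t - t₁)
      have h5 : (0 : ℝ) < 5 - ‖t - t₁‖ := by linarith
      have h6 : 2 * ‖t - t₁‖ / (5 - ‖t - t₁‖) ≤ 8 := by
        rw [div_le_iff₀ h5]
        nlinarith
      have h7 : ‖g t₁‖ * (5 + ‖t - t₁‖) / (5 - ‖t - t₁‖) ≤ 9 * ‖g t₁‖ := by
        rw [div_le_iff₀ h5]
        nlinarith [norm_nonneg (g t₁)]
      have h8 := Real.pi_pos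
      nlinarith
    · refine hg.comp (by fun_prop) fun s hs => ?_
      rw [mem_ball, dist_eq_norm, add_sub_cancel_left]
      rwa [mem_ball_zero_iff] at hs
    · intro s hs
      refine hre _ ?_
      rw [mem_ball, dist_eq_norm, add_sub_cancel_left]
      rwa [mem_ball_zero_iff] at hs
    · rw [mem_ball_zero_iff, ← dist_eq_norm]
      exact h45 ht4
  · have hX2 : (F.XX x t (g t)).2 = g t := by
      rw [XX_eq]
      simp only [hex, Bool.false_eq_true, if_false]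
    have h1 := hc1.2
    rw [hX2] at h1
    have h2 := Real.pi_pos
    nlinarith

theorem leftEnd (h : EndData Xb V U D Λ u α) : ∃ X₀ : ℝ, ∀ T₁ : ℝ, X₀ ≤ T₁ → ∀ (II : ℂ → MN N → MN N → ℂ) (r₂ : ℝ), 0 < r₂ →
    HasII U α II r₂ (-T₁ - 10) (-T₁) → Away V U Λ u T₁ r₂ → Nonempty (LEnd (TT U Λ u) II T₁) := by
  obtain ⟨κ, ⟨F⟩⟩ := exists_fam h
  obtain ⟨M, hM⟩ := exists_model h F
  obtain ⟨C₀, hC₀, hB⟩ := bphi h F hM
  obtain ⟨ε, hε, hlink⟩ := Pool.Agent.EG.RL.linkQ M hC₀ hB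
  obtain ⟨X₁, hcells⟩ := cells h F
  have hρ := M.ρ_pos
  refine ⟨max X₁ (4 - Real.log (M.ρ / 2)), fun T₁ hT II r₂ hr₂ hII hA => ?_⟩
  obtain ⟨C, r₁, hC, hr4, hr24, hcell⟩ := hcells T₁ r₂ ((le_max_left _ _).trans hT) hr₂ hA
  have hT4 : Real.exp (-T₁ + 4) ≤ M.ρ / 2 := by
    have h1 := (le_max_right X₁ (4 - Real.log (M.ρ / 2))).trans hT
    rw [← Real.exp_log (half_pos hρ)]
    exact Real.exp_le_exp.2 (by linarith)
  have hT0 : Real.exp (-T₁) < M.ρ := by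
    have h1 : Real.exp (-T₁) ≤ Real.exp (-T₁ + 4) := Real.exp_le_exp.2 (by linarith)
    linarith
  obtain ⟨ε', hε', hseam⟩ := seam h F hM hII hA hT0
  have hmu : ∀ x : Ix F, M.k x * (F.ch x).κ⁻¹ ^ M.a x = 1 := fun x => by
    rw [hM]
    exact k_mu F x
  have hMX : ∀ (x : Ix F) (t w : ℂ), M.X x (F.ch x).κ⁻¹ t w = F.XX x t w := fun x t w => by
    rw [hM]
    rfl
  have hMP : ∀ (x : Ix F) (t w : ℂ), M.P x (F.ch x).κ⁻¹ t w = F.PP x t w := fun x t w => by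
    rw [hM]
    rfl
  have hMs : ∀ (x : Ix F) (t w : ℂ), M.s x (F.XX x t w) = pr (F.Phi x t w) := fun x t w => by
    rw [hM]
    rfl
  have ht4 : ∀ t₁ t : ℂ, t₁.re ≤ -T₁ → t ∈ ball t₁ 4 → ‖Complex.exp t‖ ≤ M.ρ / 2 := fun t₁ t h1 h2 => by
    rw [mem_ball, dist_eq_norm] at h2
    have h3 := (Complex.abs_re_le_norm (t - t₁)).trans_lt h2
    rw [Complex.sub_re, abs_lt] at h3
    rw [Complex.norm_exp]
    exact (Real.exp_le_exp.2 (by linarith [h3.2])).trans hT4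
  refine ⟨{ ι := Ix F, Φ := fun x t w => pr (F.Phi x t w), P := F.PP,
            Cn := fun x => {q | Cen (F.XX x q.1 q.2) ∧ ‖Complex.exp q.1‖ ≤ M.ρ / 2},
            Cs := fun x => {q | CenS (F.XX x q.1 q.2) ∧ ‖Complex.exp q.1‖ ≤ M.ρ / 2},
            C := max (max (2 * C₀) C) 1, k := 4, r₁ := r₁, ε := ε, C_nonneg := ?_, r₁_ge := hr4, ε_pos := hε, sub := ?_, P_an := ?_, P_le := ?_,
            cell := ?_, link := ?_, seam := ?_ }⟩
  · exact zero_le_one.trans (le_max_right _ _)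
  · exact fun x q hq => ⟨cenS_cen hq.1, hq.2⟩
  · intro x O w hO hw hq t ht
    have h1 := hq t ht
    have h2 := Pool.Agent.EG.RL.P_an M (h := w) (hmu x) (t₀ := t) (h1.2.trans_lt (by linarith)) (hw.analyticAt (hO.mem_nhds ht)) (by
      rw [hMX]
      exact Pool.Agent.EG.RL.cen_ball h1.1)
    simp only [hMP] at h2
    exact h2.differentiableAt.differentiableWithinAt
  · intro x t w hq
    have h2 := Pool.Agent.EG.RL.P_le hB (hmu x) (t := t) (h := w) (by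
      rw [hMX]
      exact Pool.Agent.EG.RL.cen_ball hq.1) (hq.2.trans_lt (by linarith))
    rw [hMP, zero_mul, Real.exp_zero, mul_one] at h2
    refine h2.trans (mul_le_mul_of_nonneg_right ?_ (norm_nonneg _))
    exact (by linarith : C₀ ≤ 2 * C₀).trans ((le_max_left _ _).trans (le_max_left _ _))
  · rintro c R hc f ⟨f', hf', hff'⟩ t₁ ht₁ hT1
    obtain ⟨x, w, hw, hx⟩ := hcell c R f' t₁ hc hf' ht₁ hT1
    refine ⟨x, w, hw, fun t ht => ⟨⟨(hx t ht).1, ht4 t₁ t hT1 ht⟩, ?_, ?_⟩⟩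
    · rw [hff' t ?_]
      · exact (hx t ht).2.1
      · rw [mem_ball] at ht ht₁ ⊢
        linarith [dist_triangle t t₁ c]
    · have hR : 0 < R := by
        rw [mem_ball] at ht₁
        have := dist_nonneg.trans_lt ht₁
        linarith
      refine (hx t ht).2.2.trans (mul_le_mul_of_nonneg_right ?_ (by positivity))
      exact (le_max_right _ _).trans (le_max_left _ _)
  · intro x y t₀ h₀ h₁ hT0' hx hy he
    have h1 := hlink x y (F.ch x).κ⁻¹ (F.ch y).κ⁻¹ t₀ h₀ h₁ (hmu x) (hmu y) hx.2 (by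
      rw [hMX]
      exact hx.1) (by
      rw [hMX]
      exact hy.1) (by
      rw [hMX, hMX, hMs, hMs]
      exact he)
    obtain ⟨Df, hD1, hD2, hD3⟩ := h1
    refine ⟨Df, hD1, fun t ht => ?_, fun hi hj hai haj hi0 hj0 hev => ?_⟩
    · have h2 := hD2 t ht
      rw [zero_mul, Real.exp_zero, mul_one] at h2
      refine h2.trans (mul_le_mul_of_nonneg_right ?_ (by positivity))
      exact (le_max_left _ _).trans (le_max_left _ _)
    · have h2 := hD3 hi hj hai haj hi0 hj0 (by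
        filter_upwards [hev] with t ht
        rw [hMX, hMX, hMs, hMs]
        exact ht.2.2)
      filter_upwards [h2] with t ht
      rw [hMP, hMP] at ht
      exact ht
  · refine ⟨ε', hε', ?_⟩
    rintro t₁ x w f g ht1 ht2 ⟨f', hf', hff'⟩ ⟨g', hg', hgg'⟩ hw hfw hd
    have hmem : ∀ t ∈ ball t₁ 4, t ∈ ball t₁ r₁ := fun t ht => ball_subset_ball hr4 ht
    obtain ⟨w', hw', hx⟩ := hseam t₁ x w f' g' r₁ hr24 hr4 ht1 ht2 hf' hg' hw
      (fun t ht => ⟨(hfw t ht).1.1, by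
        rw [← hff' t (hmem t ht)]
        exact (hfw t ht).2⟩)
      (fun t ht => by
        rw [← hff' t (hmem t ht), ← hgg' t (hmem t ht)]
        exact hd t ht)
    have h34 : ball t₁ 3 ⊆ ball t₁ 4 := ball_subset_ball (by norm_num)
    refine ⟨w', hw'.mono h34, fun t ht => ?_⟩
    have ht := h34 ht
    obtain ⟨h1, h2, h3, h4⟩ := hx t ht
    refine ⟨⟨h1, (hfw t ht).1.2⟩, ?_, ?_, ?_⟩
    · rw [hgg' t (hmem t ht)]
      exact h2
    · exact h3.trans (by linarith [le_max_right (max (2 * C₀) C) 1])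
    · rw [hff' t (hmem t ht), hgg' t (hmem t ht)]
      exact h4

end Pool.Agent.EG.LE
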