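import Pool.Agent.EG.LE.Frm

/-!
# EG LE Mk: a chart on a bidisc from a germ of a chart

Proof (helper41):
l y := inner x0 y / ‖x0‖^2 (linear, l x0 = 1).  sigma' p := (l (sigma p))⁻¹ • sigma p, analytic near 0, l (sigma' p) = 1, sigma' 0 = x0.  y in Xb near x0 with l y = 1 is sigma' p, p small
(openness), and tau (sigma' p) = p^k (the pair ((l sigma p)⁻¹, p) is near (1, 0)).  Choose R1 > 0 such that all eventual properties (tau, V, U, exp u, rotations for the finitely many zeta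
with zeta^k = 1, the bound, analyticity of sigma') hold for p in ball 0 R1, an open neighbourhood O1 ⊆ interior O of x0 on which tau is analytic and such that every y in Xb ∩ O1 is c • sigma p with
p in ball 0 R1 and tau y = p^k if l y = 1; then r > 0 with 3 r < R1 and sigma' (ball 0 (3r)) ⊆ O1.
s p := sigma' (r • p), q y := (r^k)⁻¹ • tau ((l y)⁻¹ • y) (componentwise), W := {y | l y ≠ 0, (l y)⁻¹ • y ∈ O1, ‖(q y).1‖ < 3^k, ‖(q y).2‖ < 3^k}, κ := r^(1+b).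
The bound: Lp ex p * cf (s) t p = (Lp ex (r p) * cf sigma' t (r p)) up to the factor r^2 / r^(1 or 2) (chain rule), and cf sigma' = (l sigma)⁻² ... : sigma' = c(p) • sigma p: cf alpha sigma' t p = cf alpha sigma t p
(TForm.scale, add_smul: fderiv (c • sigma) v = c • fderiv sigma v + (c' v) • sigma), see Frm.cf_change with tau = id.
W is open: l, tau, q are continuous there.  surj: y in Xb ∩ W: (l y)⁻¹ • y = sigma' p with p in ball 0 R1, p^k = tau(..), so ‖p.i‖ < 3 r, p = r • p'.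
-/

set_option autoImplicit false

open Topology Filter Metric Set

namespace Pool.Agent.EG.LE

open Pool.Agent.H36.BP (EN fs wd)
open Pool.Agent.H14.PP (IsCone Tan jac)
open Pool.Agent.H62.EF (MN pr)
open Pool.Agent.H62.EL (TForm)
open Pool.Agent.EG.RL (rot)

variable {N : ℕ} {Xb V U D : Set (EN N)} {Λ : AddSubgroup ℂ} {u : EN N → ℂ} {α : TForm V Λ u}

/-- the linear form with `l x₀ = 1` -/
private theorem Mk_lin {x₀ : EN N} (hx : x₀ ≠ 0) : ∃ l : EN N →L[ℂ] ℂ, l x₀ = 1 := by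
  refine ⟨((‖x₀‖ : ℂ) ^ 2)⁻¹ • innerSL ℂ x₀, ?_⟩
  rw [smul_apply, innerSL_apply_apply, inner_self_eq_norm_sq_to_K, smul_eq_mul]
  have h1 : (‖x₀‖ : ℂ) ^ 2 ≠ 0 := pow_ne_zero 2 (by exact_mod_cast norm_ne_zero_iff.mpr hx)
  exact inv_mul_cancel₀ h1

private theorem Mk_norm {l : EN N →L[ℂ] ℂ} {c : ℂ} (hc : c ≠ 0) (x : EN N) :
    (l (c • x))⁻¹ • (c • x) = (l x)⁻¹ • x := by
  rw [map_smul, smul_eq_mul, mul_inv, smul_smul, mul_comm c⁻¹, mul_assoc, inv_mul_cancel₀ hc, mul_one]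

private theorem Mk_rat {Xb V U D : Set (EN N)} {Λ : AddSubgroup ℂ} {u : EN N → ℂ} {α : TForm V Λ u}
    (h : EndData Xb V U D Λ u α) {x : EN N} (hx : x ∈ V) {c : ℂ} (hc : c ≠ 0) :
    Complex.exp (u (c • x)) = Complex.exp (u x) := by
  have h1 := (h.lat _).mp (h.u_smul x hx c hc)
  rw [Complex.exp_sub, div_eq_one_iff_eq (Complex.exp_ne_zero _)] at h1
  exact h1

private theorem Mk_jac (r : ℂ) (p : ℂ × ℂ) : jac (fun y : ℂ × ℂ => r • y) p = r ^ 2 := by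
  have h1 : fderiv ℂ (fun y : ℂ × ℂ => r • y) p = r • ContinuousLinearMap.id ℂ (ℂ × ℂ) :=
    (r • ContinuousLinearMap.id ℂ (ℂ × ℂ)).hasFDerivAt.fderiv
  rw [jac, h1]
  simp
  ring

private theorem Mk_rot (ζ r : ℂ) (p : ℂ × ℂ) : r • rot ζ p = rot ζ (r • p) := by
  refine Prod.ext ?_ ?_
  · change r * (ζ * p.1) = ζ * (r * p.1)
    ring
  · change r * (ζ⁻¹ * p.2) = ζ⁻¹ * (r * p.2)
    ring

theorem mk_ch (h : EndData Xb V U D Λ u α) {x₀ : EN N} (hx : x₀ ∈ D) {T : Typ} (hT : IsEndT Xb V U α T x₀) {O : Set (EN N)}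
    (hO : O ∈ 𝓝 x₀) : ∃ c : LCh Xb V U α, c.toTyp = T ∧ c.Pt {0} x₀ ∧ ∀ x ∈ c.W, ∃ a : ℂ, a ≠ 0 ∧ a • x ∈ O := by
  obtain ⟨σ, τ, hσ, hτ, hσ0, hτσ, hev, hopen, hrot, C, hC⟩ := hT
  have hx₀ : x₀ ≠ 0 := by
    rintro rfl
    exact h.cone.zero_notMem (h.D_sub hx)
  obtain ⟨l, hl⟩ := Mk_lin hx₀
  -- the normalised parametrization
  set σ' : ℂ × ℂ → EN N := fun p => (l (σ p))⁻¹ • σ p with hσ'
  have hlσ : AnalyticAt ℂ (fun p => l (σ p)) 0 := (l.analyticAt _).comp hσ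
  have hlσ0 : l (σ 0) = 1 := by rw [hσ0, hl]
  have hσ'0 : σ' 0 = x₀ := by
    change (l (σ 0))⁻¹ • σ 0 = x₀
    rw [hlσ0, inv_one, one_smul, hσ0]
  have e2 : ∀ᶠ p in 𝓝 (0 : ℂ × ℂ), l (σ p) ≠ 0 := by
    refine hlσ.continuousAt.eventually_ne ?_
    rw [hlσ0]
    exact one_ne_zero
  have e3 : ∀ᶠ p in 𝓝 (0 : ℂ × ℂ), τ (σ' p) = (p.1 ^ T.k, p.2 ^ T.k) := by
    have hc : ContinuousAt (fun p : ℂ × ℂ => ((l (σ p))⁻¹, p)) 0 := by
      refine (hlσ.continuousAt.inv₀ ?_).prodMk continuousAt_id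
      rw [hlσ0]
      exact one_ne_zero
    have hc0 : Tendsto (fun p : ℂ × ℂ => ((l (σ p))⁻¹, p)) (𝓝 0) (𝓝 ((1, 0) : ℂ × ℂ × ℂ)) := by
      have h1 : ((l (σ 0))⁻¹, (0 : ℂ × ℂ)) = ((1, 0) : ℂ × ℂ × ℂ) := by rw [hlσ0, inv_one]
      rw [← h1]
      exact hc
    exact hc0.eventually hτσ
  have e5 : ∀ᶠ p in 𝓝 (0 : ℂ × ℂ), ∀ ζ : ℂ, ζ ^ T.k = 1 → ∃ c : ℂ, c ≠ 0 ∧ σ (rot ζ p) = c • σ p := by
    have hfin : {ζ : ℂ | ζ ^ T.k = 1}.Finite := by
      have h1 : {ζ : ℂ | ζ ^ T.k = 1} ⊆ ((Polynomial.nthRoots T.k (1 : ℂ)).toFinset : Set ℂ) := by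
        intro ζ hζ
        rw [Finset.mem_coe, Multiset.mem_toFinset, Polynomial.mem_nthRoots T.k_pos]
        exact hζ
      exact (Finset.finite_toSet _).subset h1
    exact (hfin.eventually_all (p := fun ζ p => ∃ c : ℂ, c ≠ 0 ∧ σ (rot ζ p) = c • σ p)).mpr
      (fun ζ hζ => hrot ζ hζ)
  obtain ⟨R₁, hR₁, hgood⟩ := Metric.eventually_nhds_iff_ball.mp
    ((hσ.eventually_analyticAt.and e2).and ((e3.and hev).and (e5.and hC)))
  -- the neighbourhood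
  have hOev : ∀ᶠ y in 𝓝 x₀, y ∈ O ∧ AnalyticAt ℂ τ y ∧
      (y ∈ Xb → ∃ p ∈ ball (0 : ℂ × ℂ) R₁, ∃ c : ℂ, c ≠ 0 ∧ y = c • σ p) :=
    Filter.Eventually.and hO (hτ.eventually_analyticAt.and (hopen _ (ball_mem_nhds _ hR₁)))
  obtain ⟨O₁, hO₁s, hO₁o, hO₁x⟩ := _root_.mem_nhds_iff.mp hOev
  have hkey : ∀ y ∈ O₁, y ∈ Xb → l y = 1 → ∃ p ∈ ball (0 : ℂ × ℂ) R₁, y = σ' p := by
    intro y hy hyX hly
    obtain ⟨p, hp, c, hc, hyc⟩ := (hO₁s hy).2.2 hyX
    refine ⟨p, hp, ?_⟩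
    have h1 := Mk_norm (l := l) hc (σ p)
    rw [← hyc, hly, inv_one, one_smul] at h1
    exact h1
  have hσ'c : ContinuousAt σ' 0 := by
    refine (hlσ.continuousAt.inv₀ ?_).smul hσ.continuousAt
    rw [hlσ0]
    exact one_ne_zero
  obtain ⟨R₂, hR₂, hR₂s⟩ := Metric.eventually_nhds_iff_ball.mp
    (hσ'c.eventually (hO₁o.mem_nhds (by rw [hσ'0]; exact hO₁x)))
  obtain ⟨r, hr0, hr1, hr2⟩ : ∃ r : ℝ, 0 < r ∧ 3 * r ≤ R₁ ∧ 3 * r ≤ R₂ := by
    refine ⟨min R₁ R₂ / 3, by positivity, ?_, ?_⟩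
    · have := min_le_left R₁ R₂
      linarith
    · have := min_le_right R₁ R₂
      linarith
  have hrc : (r : ℂ) ≠ 0 := by exact_mod_cast hr0.ne'
  have hrk : ((r : ℂ) ^ T.k) ≠ 0 := pow_ne_zero _ hrc
  have hrn : ‖(r : ℂ)‖ = r := by rw [Complex.norm_real, Real.norm_of_nonneg hr0.le]
  have hball : ∀ p ∈ ball (0 : ℂ × ℂ) 3, ‖(r : ℂ) • p‖ < 3 * r := by
    intro p hp
    rw [mem_ball_zero_iff] at hp
    rw [norm_smul, hrn, mul_comm]
    exact mul_lt_mul_of_pos_right hp hr0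
  have hb1 : ∀ p ∈ ball (0 : ℂ × ℂ) 3, (r : ℂ) • p ∈ ball (0 : ℂ × ℂ) R₁ := by
    intro p hp
    rw [mem_ball_zero_iff]
    exact (hball p hp).trans_le hr1
  have hb2 : ∀ p ∈ ball (0 : ℂ × ℂ) 3, σ' ((r : ℂ) • p) ∈ O₁ := by
    intro p hp
    refine hR₂s _ ?_
    rw [mem_ball_zero_iff]
    exact (hball p hp).trans_le hr2
  have hσ'an : ∀ p ∈ ball (0 : ℂ × ℂ) R₁, AnalyticAt ℂ σ' p := by
    intro p hp
    obtain ⟨⟨g1, g2⟩, -⟩ := hgood p hp
    exact (((l.analyticAt _).comp g1).inv g2).smul g1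
  have hsm : ∀ p : ℂ × ℂ, AnalyticAt ℂ (fun p : ℂ × ℂ => (r : ℂ) • p) p :=
    fun p => ((r : ℂ) • ContinuousLinearMap.id ℂ (ℂ × ℂ)).analyticAt p
  set q : EN N → ℂ × ℂ := fun y => ((((r : ℂ) ^ T.k)⁻¹) • τ ((l y)⁻¹ • y)) with hq
  set W : Set (EN N) := {y | l y ≠ 0 ∧ (l y)⁻¹ • y ∈ O₁ ∧ ‖(q y).1‖ < 3 ^ T.k ∧ ‖(q y).2‖ < 3 ^ T.k} with hW
  have hnan : ∀ y, l y ≠ 0 → AnalyticAt ℂ (fun y => (l y)⁻¹ • y) y := by
    intro y hy
    exact ((l.analyticAt _).inv hy).smul analyticAt_id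
  have hqan : ∀ y, l y ≠ 0 → (l y)⁻¹ • y ∈ O₁ → AnalyticAt ℂ q y := by
    intro y hy hy1
    have h1 : AnalyticAt ℂ (fun y => τ ((l y)⁻¹ • y)) y :=
      AnalyticAt.comp (g := τ) (hO₁s hy1).2.1 (hnan y hy)
    exact AnalyticAt.comp (g := fun w : ℂ × ℂ => (((r : ℂ) ^ T.k)⁻¹) • w)
      (f := fun y => τ ((l y)⁻¹ • y))
      (((((r : ℂ) ^ T.k)⁻¹) • ContinuousLinearMap.id ℂ (ℂ × ℂ)).analyticAt _) h1
  have hqs : ∀ x, ∀ c : ℂ, c ≠ 0 → q (c • x) = q x := by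
    intro x c hc
    change _ • τ ((l (c • x))⁻¹ • (c • x)) = _ • τ ((l x)⁻¹ • x)
    rw [Mk_norm hc]
  have hls : ∀ p ∈ ball (0 : ℂ × ℂ) R₁, l (σ' p) = 1 := by
    intro p hp
    obtain ⟨⟨-, g2⟩, -⟩ := hgood p hp
    change l ((l (σ p))⁻¹ • σ p) = 1
    rw [map_smul, smul_eq_mul, inv_mul_cancel₀ g2]
  have hqσ : ∀ p ∈ ball (0 : ℂ × ℂ) R₁, q (σ' p) = (((r : ℂ) ^ T.k)⁻¹) • (p.1 ^ T.k, p.2 ^ T.k) := by
    intro p hp
    obtain ⟨-, ⟨g3, -⟩, -⟩ := hgood p hp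
    change _ • τ ((l (σ' p))⁻¹ • σ' p) = _
    rw [hls p hp, inv_one, one_smul, g3]
  have hqs' : ∀ p ∈ ball (0 : ℂ × ℂ) 3, q (σ' ((r : ℂ) • p)) = (p.1 ^ T.k, p.2 ^ T.k) := by
    intro p hp
    rw [hqσ _ (hb1 p hp)]
    refine Prod.ext ?_ ?_
    · change ((r : ℂ) ^ T.k)⁻¹ * ((r : ℂ) * p.1) ^ T.k = p.1 ^ T.k
      rw [mul_pow, inv_mul_cancel_left₀ hrk]
    · change ((r : ℂ) ^ T.k)⁻¹ * ((r : ℂ) * p.2) ^ T.k = p.2 ^ T.k
      rw [mul_pow, inv_mul_cancel_left₀ hrk]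
  have hk0 : T.k ≠ 0 := by
    have := T.k_pos
    omega
  have hco : ∀ p ∈ ball (0 : ℂ × ℂ) 3, ‖p.1‖ < 3 ∧ ‖p.2‖ < 3 := by
    intro p hp
    rw [mem_ball_zero_iff] at hp
    exact ⟨(norm_fst_le p).trans_lt hp, (norm_snd_le p).trans_lt hp⟩
  have hVs : ∀ x, ∀ c : ℂ, c ≠ 0 → (c • x ∈ V ↔ x ∈ V) := by
    intro x c hc
    refine ⟨fun hcx => ?_, fun hx => h.V_smul x hx c hc⟩
    have h1 := h.V_smul _ hcx c⁻¹ (inv_ne_zero hc)
    rwa [smul_smul, inv_mul_cancel₀ hc, one_smul] at h1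
  have hUs : ∀ x, ∀ c : ℂ, c ≠ 0 → (c • x ∈ U ↔ x ∈ U) := by
    intro x c hc
    refine ⟨fun hcx => ?_, fun hx => h.U_smul x hx c hc⟩
    have h1 := h.U_smul _ hcx c⁻¹ (inv_ne_zero hc)
    rwa [smul_smul, inv_mul_cancel₀ hc, one_smul] at h1
  have hr1ne : ∀ z : ℂ, (r : ℂ) * z ≠ 0 ↔ z ≠ 0 := by
    intro z
    rw [Ne, mul_eq_zero, not_or]
    exact ⟨fun h => h.2, fun h => ⟨hrc, h⟩⟩
  have hexp : ∀ p ∈ ball (0 : ℂ × ℂ) 3, σ ((r : ℂ) • p) ∈ V →
      Complex.exp (u (σ ((r : ℂ) • p))) = (r : ℂ) ^ (1 + T.b) * p.1 * p.2 ^ T.b := by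
    intro p hp hpV
    obtain ⟨-, ⟨-, -, -, -, g4⟩, -⟩ := hgood _ (hb1 p hp)
    rw [g4 hpV]
    change (r : ℂ) * p.1 * ((r : ℂ) * p.2) ^ T.b = _
    rw [mul_pow, pow_add, pow_one]
    ring
  let c : LCh Xb V U α :=
    { toTyp := T
      s := fun p => σ' ((r : ℂ) • p)
      q := q
      W := W
      κ := (r : ℂ) ^ (1 + T.b)
      κ_ne := pow_ne_zero _ hrc
      isOpen_W := by
        rw [isOpen_iff_mem_nhds]
        rintro y ⟨h1, h2, h3, h4⟩
        have c1 : ContinuousAt l y := l.continuous.continuousAt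
        have c2 := (hnan y h1).continuousAt
        have c3 := (hqan y h1 h2).continuousAt
        filter_upwards [c1.eventually_ne h1, c2.eventually (hO₁o.mem_nhds h2),
          (continuous_norm.continuousAt.comp (continuousAt_fst.comp c3)).eventually_lt
            continuousAt_const h3,
          (continuous_norm.continuousAt.comp (continuousAt_snd.comp c3)).eventually_lt
            continuousAt_const h4] with z z1 z2 z3 z4
        exact ⟨z1, z2, z3, z4⟩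
      smul_W := by
        rintro x ⟨h1, h2, h3, h4⟩ c hc
        refine ⟨?_, ?_, ?_, ?_⟩
        · rw [map_smul, smul_eq_mul]
          exact mul_ne_zero hc h1
        · rw [Mk_norm hc]
          exact h2
        · rw [hqs x c hc]
          exact h3
        · rw [hqs x c hc]
          exact h4
      q_an := fun x hx => hqan x hx.1 hx.2.1
      q_smul := fun x _ c hc => hqs x c hc
      s_an := by
        intro p hp
        exact AnalyticAt.comp (g := σ') (f := fun p : ℂ × ℂ => (r : ℂ) • p) (hσ'an _ (hb1 p hp))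
          (hsm p)
      s_mem := by
        intro p hp
        obtain ⟨⟨g1, g2⟩, ⟨g3, g4, -⟩, -⟩ := hgood _ (hb1 p hp)
        refine ⟨h.cone.smul_mem _ g4 _ (inv_ne_zero g2), ⟨?_, ?_, ?_, ?_⟩, hqs' p hp⟩
        · rw [hls _ (hb1 p hp)]
          exact one_ne_zero
        · rw [hls _ (hb1 p hp), inv_one, one_smul]
          exact hb2 p hp
        · rw [hqs' p hp]
          change ‖p.1 ^ T.k‖ < 3 ^ T.k
          rw [norm_pow]
          exact pow_lt_pow_left₀ (hco p hp).1 (norm_nonneg _) hk0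
        · rw [hqs' p hp]
          change ‖p.2 ^ T.k‖ < 3 ^ T.k
          rw [norm_pow]
          exact pow_lt_pow_left₀ (hco p hp).2 (norm_nonneg _) hk0
      s_V := by
        intro p hp
        obtain ⟨⟨g1, g2⟩, ⟨-, -, g4, -⟩, -⟩ := hgood _ (hb1 p hp)
        change (l (σ ((r : ℂ) • p)))⁻¹ • σ ((r : ℂ) • p) ∈ V ↔ _
        rw [hVs _ _ (inv_ne_zero g2), g4]
        change (r : ℂ) * p.1 ≠ 0 ∧ (T.ex = true → (r : ℂ) * p.2 ≠ 0) ↔ _
        rw [hr1ne, hr1ne]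
      s_U := by
        intro p hp
        obtain ⟨⟨g1, g2⟩, ⟨-, -, -, g4, -⟩, -⟩ := hgood _ (hb1 p hp)
        change (l (σ ((r : ℂ) • p)))⁻¹ • σ ((r : ℂ) • p) ∈ U ↔ _
        rw [hUs _ _ (inv_ne_zero g2), g4]
        change (r : ℂ) * p.1 ≠ 0 ∧ (T.eu = true → (r : ℂ) * p.2 ≠ 0) ↔ _
        rw [hr1ne, hr1ne]
      s_u := by
        intro p hp hpV
        obtain ⟨⟨g1, g2⟩, -⟩ := hgood _ (hb1 p hp)
        have hpV' : σ ((r : ℂ) • p) ∈ V := (hVs _ _ (inv_ne_zero g2)).mp hpV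
        change Complex.exp (u ((l (σ ((r : ℂ) • p)))⁻¹ • σ ((r : ℂ) • p))) = _
        rw [Mk_rat h hpV' (inv_ne_zero g2), hexp p hp hpV']
      surj := by
        rintro x hxX ⟨h1, h2, h3, h4⟩
        have hyX : (l x)⁻¹ • x ∈ Xb := h.cone.smul_mem _ hxX _ (inv_ne_zero h1)
        have hly : l ((l x)⁻¹ • x) = 1 := by rw [map_smul, smul_eq_mul, inv_mul_cancel₀ h1]
        obtain ⟨p, hp, hyp⟩ := hkey _ h2 hyX hly
        have hqx : q x = (((r : ℂ) ^ T.k)⁻¹) • (p.1 ^ T.k, p.2 ^ T.k) := by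
          rw [← hqσ p hp, ← hyp, hqs x _ (inv_ne_zero h1)]
        have hbd : ∀ z : ℂ, ‖((r : ℂ) ^ T.k)⁻¹ * z ^ T.k‖ < 3 ^ T.k → ‖(r : ℂ)⁻¹ * z‖ < 3 := by
          intro z hz
          rw [← inv_pow, ← mul_pow, norm_pow] at hz
          exact lt_of_pow_lt_pow_left₀ _ (by norm_num) hz
        refine ⟨(r : ℂ)⁻¹ • p, ?_, l x, h1, ?_⟩
        · rw [mem_ball_zero_iff, Prod.norm_def, max_lt_iff]
          rw [hqx] at h3 h4
          exact ⟨hbd _ h3, hbd _ h4⟩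
        · have h5 : (r : ℂ) • ((r : ℂ)⁻¹ • p) = p := by
            rw [smul_smul, mul_inv_cancel₀ hrc, one_smul]
          change x = l x • σ' ((r : ℂ) • ((r : ℂ)⁻¹ • p))
          rw [h5, ← hyp, smul_smul, mul_inv_cancel₀ h1, one_smul]
      s_rot := by
        intro ζ hζ p hp
        obtain ⟨-, -, g5, -⟩ := hgood _ (hb1 p hp)
        obtain ⟨c, hc, hcs⟩ := g5 ζ hζ
        refine ⟨1, one_ne_zero, ?_⟩
        change (l (σ ((r : ℂ) • rot ζ p)))⁻¹ • σ ((r : ℂ) • rot ζ p) = (1 : ℂ) • σ' ((r : ℂ) • p)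
        rw [Mk_rot, hcs, Mk_norm hc, one_smul]
      bd := by
        refine ⟨|C| * (1 + r), ?_⟩
        intro p hp hL t ht
        have hLr : Lp T.ex ((r : ℂ) • p) = (if T.ex = true then (r : ℂ) ^ 2 else r) * Lp T.ex p := by
          by_cases hex : T.ex = true
          · rw [Lp, Lp, if_pos hex, if_pos hex, if_pos hex]
            change (r : ℂ) * p.1 * ((r : ℂ) * p.2) = _
            ring
          · rw [Lp, Lp, if_neg hex, if_neg hex, if_neg hex]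
            change (r : ℂ) * p.1 * 1 = _
            ring
        have hLr0 : Lp T.ex ((r : ℂ) • p) ≠ 0 := by
          rw [hLr]
          refine mul_ne_zero ?_ hL
          split_ifs
          · exact pow_ne_zero 2 hrc
          · exact hrc
        have hLV : ∀ y : ℂ × ℂ, Lp T.ex y ≠ 0 → y.1 ≠ 0 ∧ (T.ex = true → y.2 ≠ 0) := by
          intro y hy
          rw [Lp] at hy
          refine ⟨left_ne_zero_of_mul hy, fun hex => ?_⟩
          have := right_ne_zero_of_mul hy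
          rwa [if_pos hex] at this
        obtain ⟨⟨g1, g2⟩, ⟨-, -, g4, -⟩, -, g6⟩ := hgood _ (hb1 p hp)
        have hpV : σ ((r : ℂ) • p) ∈ V := g4.mpr (hLV _ hLr0)
        have hLc : Continuous (fun y : ℂ × ℂ => Lp T.ex y) := by
          by_cases hex : T.ex = true
          · simp only [Lp, if_pos hex]
            exact continuous_fst.mul continuous_snd
          · simp only [Lp, if_neg hex]
            exact continuous_fst.mul continuous_const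
        have hVe : ∀ᶠ y in 𝓝 ((r : ℂ) • p), σ y ∈ V := by
          filter_upwards [isOpen_ball.mem_nhds (hb1 p hp),
            hLc.continuousAt.eventually_ne hLr0] with y hy1 hy2
          obtain ⟨-, ⟨-, -, g4', -⟩, -⟩ := hgood y hy1
          exact g4'.mpr (hLV y hy2)
        have h0V : (0 : EN N) ∉ V := fun h0 => h.cone.zero_notMem (h.V_sub h0)
        have hut : u (σ ((r : ℂ) • p)) - t ∈ Λ := by
          rw [h.lat, Complex.exp_sub, hexp p hp hpV, ht, div_self]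
          rw [← ht]
          exact Complex.exp_ne_zero t
        have hch := cf_change (α := α) (φ := fun p => σ' ((r : ℂ) • p)) (ψ := σ)
          (τ := fun y => (r : ℂ) • y) (p := p) (t := t) h0V h.V_smul
          (AnalyticAt.comp (g := σ') (f := fun p : ℂ × ℂ => (r : ℂ) • p) (hσ'an _ (hb1 p hp))
            (hsm p)) g1 (hsm p) hVe hut (by
            filter_upwards [isOpen_ball.mem_nhds hp] with y hy
            obtain ⟨⟨-, g2'⟩, -⟩ := hgood _ (hb1 y hy)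
            exact ⟨_, inv_ne_zero g2', rfl⟩)
        rw [hch, Mk_jac]
        have hexpt : Complex.exp t = ((r : ℂ) • p).1 * ((r : ℂ) • p).2 ^ T.b := by
          rw [ht]
          change _ = (r : ℂ) * p.1 * ((r : ℂ) * p.2) ^ T.b
          rw [mul_pow, pow_add, pow_one]
          ring
        have hb := g6 hLr0 t hexpt
        rw [hLr] at hb
        have hC0 : 0 ≤ |C| := abs_nonneg C
        have hb' := hb.trans (le_abs_self C)
        by_cases hex : T.ex = true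
        · rw [if_pos hex] at hb'
          have e1 : Lp T.ex p * (cf α σ t ((r : ℂ) • p) * (r : ℂ) ^ 2)
              = (r : ℂ) ^ 2 * Lp T.ex p * cf α σ t ((r : ℂ) • p) := by ring
          rw [e1]
          nlinarith
        · rw [if_neg hex] at hb'
          have e1 : Lp T.ex p * (cf α σ t ((r : ℂ) • p) * (r : ℂ) ^ 2)
              = ((r : ℂ) * Lp T.ex p * cf α σ t ((r : ℂ) • p)) * r := by ring
          rw [e1, norm_mul, hrn]
          nlinarith [norm_nonneg ((r : ℂ) * Lp T.ex p * cf α σ t ((r : ℂ) • p))] }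
  refine ⟨c, rfl, ⟨0, rfl, 1, one_ne_zero, ?_⟩, fun x hx => ⟨(l x)⁻¹, inv_ne_zero hx.1, (hO₁s hx.2.1).1⟩⟩
  change x₀ = (1 : ℂ) • σ' ((r : ℂ) • (0 : ℂ × ℂ))
  rw [smul_zero, one_smul, hσ'0]

end Pool.Agent.EG.LE
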