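import Pool.Agent.EG.LE.Atl
import Pool.Agent.EG.LE.Pt
import Pool.Agent.EG.LE.Frm
import Pool.Agent.H62.EF.PrA

/-!
# EG LE ModB: changes of charts

Proof (helper41): for x, y with x.1.1 ≠ y.1.1 (write i, j for the two charts, kappa_i etc.).  Let p, q be central, pr (sS x p) = pr (sS y q), Lp ≠ 0 for both, ‖u x p‖ < rho.
eps0: pt_close for the chart i with epsilon = 1/64, radius 1 (closedBall 0 1 contains swp p, p central): delta_i.  eta <= 1/4 such that ‖x' - q'‖ < 2 eta, x', q' in closedBall 0 2 imply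
dist (pr (s_j x')) (pr (s_j q')) < delta_i (uniform continuity on the compact set closedBall 0 2) for all i, j (finitely many; eta := minimum), and eta <= 1 / 64.
exp u agrees: u x p = u y q =: v (both sides exp u of points of V on the same line: sS_u, u_smul, lat).
If ex_i = true then ‖p.2‖ ≥ 1/2: otherwise ‖p.1‖, ‖p.2‖ ≤ 1/2 and sep says s_i (swp p) is not in W_j, but it is a multiple of s_j (swp q) in W_j (smul_W).  In the same way ‖q.2‖ ≥ 1/2 if ex_j = true.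
‖q.1‖ ≤ eta / 4: ‖v‖ = ‖kappa_j‖ ‖q.1‖ ‖q.2‖^b_j < rho, b_j = 1 implies ex_j = true; so rho := min over i of (min 1 ‖kappa_i‖) * eta / 8 is small enough (also rho <= ‖kappa_i‖).
tau: write sw for the exchange flag of x, k = k_i, b = b_i, and (Q1, Q2)(x') := swp (q_i (sS y x')), so for x' near q: sS y x' in W_i and Q2 (x') = (second coordinate)^k.
 ex_i = true: T2 x' := p.2 * exp (log (Q2 x' / p.2 ^ k) / k), T1 x' := kappa_j x'.1 x'.2^b_j / (kappa_i T2 x' ^ b); ex_i = false (k = 1, b = 0, sw = false): T2 := Q2, T1 := kappa_j x'.1 x'.2^b_j / kappa_i.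
 tau := (T1, T2).  For x' in ball q eta: by pt_close (for the point swp p, X = sS y x', dist small) sS y x' = a • s_i p'', ‖p'' - swp p‖ ≤ 1/64 (if p'' is near swp p: Q2 x' = (second coordinate of swp p'')^k
 is near p.2^k: Q2 / p.2^k = (1 + small)^k with ‖small‖ ≤ 1/32, so the k-th root chosen by log is the second coordinate of swp p'' itself: log ((1+s)^k) = k log (1+s) requires care: (1+s)^k may wind; use instead
 continuity: both x' ↦ T2 x' and x' ↦ (second coordinate of swp p'') ... simpler: define T2 x' := p.2 * (1 + S x') where S is obtained by the local inverse: the map s ↦ (1+s)^k is injective on ‖s‖ ≤ 1/(4k)?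
 Choose therefore epsilon = 1 / (64 k_i) in pt_close: then ‖s‖ ≤ 1 / (32 k), ‖k log (1 + s)‖ ≤ 1/16 < pi, so log ((1+s)^k) = k log (1+s) and T2 x' = p.2 (1 + s) is the second coordinate of swp p''.)
 Then T1 x' is the first coordinate of swp p'' if x'.1 ≠ 0 (exp u: kappa_i p''.1 p''.2^b = kappa_j x'.1 x'.2^b_j; all points in V because Lp (x') ≠ 0: x'.1 ≠ 0 and ‖x'.2‖ ≥ 1/2 - eta if ex_j = true) and in general
 ‖T1 x'‖ ≤ small (‖x'.1‖ ≤ 2 eta), so tau x' in ball p (1/4); analytic: q_i, sS y analytic, log on the slit plane (Q2 / p.2^k near 1).  tau q = p: p'' for x' = q can be taken = swp p up to rot; T2 q = p.2 because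
 Q2 q = p.2^k, log 1 = 0; T1 q = v / (kappa_i p.2^b) = p.1.
 M.s: pr (sS y x') = pr (sS x (tau x')).  u: by definition of T1 (b = 0 or 1).  g: cf_change with phi = sS y, psi = sS x, tau at x' (the equality up to scalars holds near x' because x'.1 ≠ 0 is open).
-/

set_option autoImplicit false

open Topology Filter Metric Set

namespace Pool.Agent.EG.LE

open Pool.Agent.H36.BP (EN fs wd)
open Pool.Agent.H14.PP (IsCone Tan jac)
open Pool.Agent.H62.EF (MN pr)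
open Pool.Agent.H62.EL (TForm)
open Pool.Agent.EG.RL (rot Cen)

variable {N : ℕ} {Xb V U D : Set (EN N)} {Λ : AddSubgroup ℂ} {u : EN N → ℂ} {α : TForm V Λ u} {κ : Type}

/-- the root of order `k` near `a` -/
private theorem ModB_root {k : ℕ} (hk : 1 ≤ k) {a P : ℂ} (ha : 1 / 2 ≤ ‖a‖) (hP : ‖P - a‖ ≤ 1 / (64 * (k : ℝ))) :
    P ^ k / a ^ k ∈ Complex.slitPlane ∧ a * Complex.exp (Complex.log (P ^ k / a ^ k) / k) = P := by
  have hk0 : (0 : ℝ) < k := by exact_mod_cast hk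
  have hk0' : (k : ℂ) ≠ 0 := by exact_mod_cast (by omega : k ≠ 0)
  have hk1 : (1 : ℝ) ≤ k := by exact_mod_cast hk
  have ha0 : a ≠ 0 := norm_pos_iff.1 (by linarith)
  obtain ⟨s, hs⟩ : ∃ s : ℂ, s = (P - a) / a := ⟨_, rfl⟩
  have hPs : P = a * (1 + s) := by
    rw [hs, mul_add, mul_div_cancel₀ _ ha0]
    ring
  have hsn : ‖s‖ ≤ 1 / (32 * (k : ℝ)) := by
    rw [hs, norm_div, div_le_iff₀ (by linarith)]
    calc ‖P - a‖ ≤ 1 / (64 * (k : ℝ)) := hP
      _ = 1 / (32 * (k : ℝ)) * (1 / 2) := by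
          field_simp
          norm_num
      _ ≤ 1 / (32 * (k : ℝ)) * ‖a‖ := mul_le_mul_of_nonneg_left ha (by positivity)
  have hs32 : ‖s‖ ≤ 1 / 32 := hsn.trans (one_div_le_one_div_of_le (by norm_num) (by linarith))
  have h1s : 1 + s ≠ 0 := by
    intro h
    have h2 : s = -1 := by linear_combination h
    rw [h2, norm_neg, norm_one] at hs32
    norm_num at hs32
  obtain ⟨z, hz⟩ : ∃ z : ℂ, z = (k : ℂ) * Complex.log (1 + s) := ⟨_, rfl⟩
  have hzn : ‖z‖ ≤ 3 / 64 := by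
    rw [hz, norm_mul, Complex.norm_natCast]
    have h2 := Complex.norm_log_one_add_half_le_self (z := s) (by linarith)
    calc (k : ℝ) * ‖Complex.log (1 + s)‖ ≤ k * (3 / 2 * (1 / (32 * (k : ℝ)))) := by
          refine mul_le_mul_of_nonneg_left (h2.trans ?_) hk0.le
          exact mul_le_mul_of_nonneg_left hsn (by norm_num)
      _ = 3 / 64 := by
          field_simp
          norm_num
  have hexp : Complex.exp z = (1 + s) ^ k := by rw [hz, Complex.exp_nat_mul, Complex.exp_log h1s]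
  have hq : P ^ k / a ^ k = Complex.exp z := by
    rw [hPs, mul_pow, mul_div_cancel_left₀ _ (pow_ne_zero _ ha0), hexp]
  have him : |z.im| ≤ 3 / 64 := (Complex.abs_im_le_norm z).trans hzn
  rw [abs_le] at him
  have hpi := Real.pi_gt_three
  rw [hq]
  constructor
  · rw [Complex.mem_slitPlane_iff]
    left
    rw [Complex.exp_re]
    exact mul_pos (Real.exp_pos _) (Real.cos_pos_of_mem_Ioo ⟨by linarith [him.1], by linarith [him.2]⟩)
  · rw [Complex.log_exp (by linarith [him.1]) (by linarith [him.2]), hz, mul_div_cancel_left₀ _ hk0', Complex.exp_log h1s, hPs]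

/-- the root of order `k` near `a`, or the identity -/
private noncomputable def ModB_rt (e : Bool) (k : ℕ) (a w : ℂ) : ℂ :=
  if e = true then a * Complex.exp (Complex.log (w / a ^ k) / k) else w

private theorem ModB_rt_spec {e : Bool} {k : ℕ} (hk : 1 ≤ k) (hk1 : e ≠ true → k = 1) {a P : ℂ} (ha : e = true → 1 / 2 ≤ ‖a‖)
    (hP : ‖P - a‖ ≤ 1 / (64 * (k : ℝ))) : ModB_rt e k a (P ^ k) = P ∧ AnalyticAt ℂ (ModB_rt e k a) (P ^ k) := by
  by_cases he : e = true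
  · obtain ⟨h1, h2⟩ := ModB_root hk (ha he) hP
    have ha0 : a ≠ 0 := norm_pos_iff.1 (by linarith [ha he])
    have hk0' : (k : ℂ) ≠ 0 := by exact_mod_cast (by omega : k ≠ 0)
    have h3 : ModB_rt e k a = fun w : ℂ => a * Complex.exp (Complex.log (w / a ^ k) / k) := by
      funext w
      unfold ModB_rt
      rw [if_pos he]
    rw [h3]
    refine ⟨h2, ?_⟩
    have h4 : AnalyticAt ℂ (fun w : ℂ => w / a ^ k) (P ^ k) := analyticAt_id.div analyticAt_const (pow_ne_zero _ ha0)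
    exact analyticAt_const.mul ((h4.clog h1).div analyticAt_const hk0').cexp
  · have h3 : ModB_rt e k a = fun w : ℂ => w := by
      funext w
      unfold ModB_rt
      rw [if_neg he]
    rw [h3, hk1 he, pow_one]
    exact ⟨rfl, analyticAt_id⟩

private theorem ModB_swp_swp (sw : Bool) (p : ℂ × ℂ) : swp sw (swp sw p) = p := by
  unfold swp
  split_ifs <;> rfl

private theorem ModB_swp_norm (sw : Bool) (v w : ℂ × ℂ) : ‖swp sw v - w‖ = ‖v - swp sw w‖ := by
  unfold swp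
  split_ifs
  · rw [Prod.norm_def, Prod.norm_def, max_comm]
    rfl
  · rfl

private theorem ModB_swp_an (sw : Bool) (p : ℂ × ℂ) : AnalyticAt ℂ (swp sw) p := by
  cases sw
  · have h1 : swp false = fun p : ℂ × ℂ => p := rfl
    rw [h1]
    exact analyticAt_id
  · have h1 : swp true = fun p : ℂ × ℂ => (p.2, p.1) := rfl
    rw [h1]
    exact analyticAt_snd.prod analyticAt_fst

private theorem ModB_an (F : LFam Xb V U D α κ) (x : Ix F) {p : ℂ × ℂ} (hp : p ∈ ball (0 : ℂ × ℂ) 3) : AnalyticAt ℂ (F.sS x) p := by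
  have h1 : AnalyticAt ℂ (F.ch x).s (swp x.1.2 p) := (F.ch x).s_an _ (swp_ball _ hp)
  exact h1.comp (ModB_swp_an x.1.2 p)

private theorem ModB_q (F : LFam Xb V U D α κ) (x : Ix F) {P : ℂ × ℂ} (hP : P ∈ ball (0 : ℂ × ℂ) 3) :
    F.sS x P ∈ Xb ∧ F.sS x P ∈ (F.ch x).W ∧ swp x.1.2 ((F.ch x).q (F.sS x P)) = (P.1 ^ (F.ch x).k, P.2 ^ (F.ch x).k) := by
  obtain ⟨h1, h2, h3⟩ := (F.ch x).s_mem _ (swp_ball x.1.2 hP)
  refine ⟨h1, h2, ?_⟩
  unfold LFam.sS
  rw [h3]
  unfold swp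
  split_ifs <;> rfl

private theorem ModB_exp_u (h : EndData Xb V U D Λ u α) {x y : EN N} (hx : x ∈ V) {a : ℂ} (ha : a ≠ 0) (hy : y = a • x) :
    y ∈ V ∧ Complex.exp (u y) = Complex.exp (u x) := by
  rw [hy]
  refine ⟨h.V_smul x hx a ha, ?_⟩
  have h1 := (h.lat _).1 (h.u_smul x hx a ha)
  rw [Complex.exp_sub, div_eq_one_iff_eq (Complex.exp_ne_zero _)] at h1
  exact h1

private theorem ModB_u (h : EndData Xb V U D Λ u α) (F : LFam Xb V U D α κ) (x y : Ix F) {P x' : ℂ × ℂ} (hx' : x' ∈ ball (0 : ℂ × ℂ) 3)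
    (hP : P ∈ ball (0 : ℂ × ℂ) 3) {a : ℂ} (ha : a ≠ 0) (he : F.sS y x' = a • F.sS x P) (hP2 : (F.ch x).ex = true → P.2 ≠ 0)
    (hx2 : (F.ch y).ex = true → x'.2 ≠ 0) : F.atl.u x P = F.atl.u y x' := by
  have he' : F.sS x P = a⁻¹ • F.sS y x' := by rw [he, smul_smul, inv_mul_cancel₀ ha, one_smul]
  by_cases hV : F.sS y x' ∈ V
  · obtain ⟨h1, h2⟩ := ModB_exp_u h hV (inv_ne_zero ha) he'
    rw [← sS_u F x hP h1, ← sS_u F y hx' hV, h2]
  · have hV' : F.sS x P ∉ V := fun h1 => hV (ModB_exp_u h h1 ha he).1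
    rw [sS_V F y hx', not_not] at hV
    rw [sS_V F x hP, not_not] at hV'
    have h1 : x'.1 = 0 := by
      unfold Lp at hV
      rcases mul_eq_zero.1 hV with h2 | h2
      · exact h2
      · split_ifs at h2 with h3
        · exact absurd h2 (hx2 h3)
        · exact absurd h2 one_ne_zero
    have h4 : P.1 = 0 := by
      unfold Lp at hV'
      rcases mul_eq_zero.1 hV' with h2 | h2
      · exact h2
      · split_ifs at h2 with h3
        · exact absurd h2 (hP2 h3)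
        · exact absurd h2 one_ne_zero
    rw [atl_u, atl_u, h1, h4, mul_zero, mul_zero, zero_mul, zero_mul]

/-- the change of coordinates -/
private noncomputable def ModB_tau (F : LFam Xb V U D α κ) (x y : Ix F) (p x' : ℂ × ℂ) : ℂ × ℂ :=
  (F.atl.u y x' / ((F.ch x).κ * ModB_rt (F.ch x).ex (F.ch x).k p.2 (swp x.1.2 ((F.ch x).q (F.sS y x'))).2 ^ (F.ch x).b),
    ModB_rt (F.ch x).ex (F.ch x).k p.2 (swp x.1.2 ((F.ch x).q (F.sS y x'))).2)

private theorem ModB_tau_spec (h : EndData Xb V U D Λ u α) (F : LFam Xb V U D α κ) (x y : Ix F) {p P x' : ℂ × ℂ}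
    (hx' : x' ∈ ball (0 : ℂ × ℂ) 3) (hP : P ∈ ball (0 : ℂ × ℂ) 3) {a : ℂ} (ha : a ≠ 0) (he : F.sS y x' = a • F.sS x P)
    (hPp : ‖P - p‖ ≤ 1 / (64 * ((F.ch x).k : ℝ))) (hex : (F.ch x).ex = true → 1 / 2 ≤ ‖p.2‖) (hx2 : (F.ch y).ex = true → x'.2 ≠ 0) :
    ModB_tau F x y p x' = P ∧ AnalyticAt ℂ (ModB_tau F x y p) x' ∧ F.atl.u x P = F.atl.u y x' := by
  have hk := (F.ch x).k_pos
  have hk1 : (1 : ℝ) ≤ ((F.ch x).k : ℝ) := by exact_mod_cast hk
  have hP2p : ‖P.2 - p.2‖ ≤ 1 / (64 * ((F.ch x).k : ℝ)) := (norm_snd_le (P - p)).trans hPp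
  have h64 : 1 / (64 * ((F.ch x).k : ℝ)) ≤ 1 / 64 := one_div_le_one_div_of_le (by norm_num) (by linarith)
  have hP2 : (F.ch x).ex = true → P.2 ≠ 0 := by
    intro h1 h2
    have h3 := hex h1
    rw [h2, zero_sub, norm_neg] at hP2p
    linarith
  have hkk : (F.ch x).ex ≠ true → (F.ch x).k = 1 := by
    intro h1
    rcases (F.ch x).k_eq with h2 | h2
    · exact h2
    · exact absurd ((F.ch x).b_ex h2) h1
  obtain ⟨hr1, hr2⟩ := ModB_rt_spec hk hkk hex hP2p
  obtain ⟨-, hW, hq⟩ := ModB_q F x hP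
  have hqa : (swp x.1.2 ((F.ch x).q (F.sS y x'))).2 = P.2 ^ (F.ch x).k := by
    rw [he, (F.ch x).q_smul _ hW a ha, hq]
  have hPb : P.2 ^ (F.ch x).b ≠ 0 := by
    have h1 := (F.ch x).b_le
    rcases Nat.eq_zero_or_pos (F.ch x).b with h2 | h2
    · rw [h2, pow_zero]
      exact one_ne_zero
    · exact pow_ne_zero _ (hP2 ((F.ch x).b_ex (by omega)))
  have hu := ModB_u h F x y hx' hP ha he hP2 hx2
  refine ⟨?_, ?_, hu⟩
  · unfold ModB_tau
    rw [hqa, hr1, ← hu, atl_u]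
    refine Prod.ext ?_ rfl
    show (F.ch x).κ * P.1 * P.2 ^ (F.ch x).b / ((F.ch x).κ * P.2 ^ (F.ch x).b) = P.1
    have h1 := (F.ch x).κ_ne
    field_simp
  · have h1 : AnalyticAt ℂ (fun z => (swp x.1.2 ((F.ch x).q (F.sS y z))).2) x' := by
      have h2 : F.sS y x' ∈ (F.ch x).W := by
        rw [he]
        exact (F.ch x).smul_W _ hW a ha
      have h3 : AnalyticAt ℂ (fun z => (F.ch x).q (F.sS y z)) x' := ((F.ch x).q_an _ h2).comp (ModB_an F y hx')
      have h4 : AnalyticAt ℂ (fun z => swp x.1.2 ((F.ch x).q (F.sS y z))) x' := (ModB_swp_an x.1.2 _).comp h3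
      exact analyticAt_snd.comp h4
    have h5 : AnalyticAt ℂ (fun z => ModB_rt (F.ch x).ex (F.ch x).k p.2 (swp x.1.2 ((F.ch x).q (F.sS y z))).2) x' := by
      have h6 : AnalyticAt ℂ (ModB_rt (F.ch x).ex (F.ch x).k p.2) ((fun z => (swp x.1.2 ((F.ch x).q (F.sS y z))).2) x') := by
        show AnalyticAt ℂ (ModB_rt (F.ch x).ex (F.ch x).k p.2) ((swp x.1.2 ((F.ch x).q (F.sS y x'))).2)
        rw [hqa]
        exact hr2
      exact AnalyticAt.comp (g := ModB_rt (F.ch x).ex (F.ch x).k p.2) (f := fun z => (swp x.1.2 ((F.ch x).q (F.sS y z))).2) h6 h1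
    have h7 : AnalyticAt ℂ (fun z => F.atl.u y z) x' := by
      have h8 : (fun z => F.atl.u y z) = fun z : ℂ × ℂ => (F.ch y).κ * z.1 * z.2 ^ (F.ch y).b := by
        funext z
        exact atl_u F y z
      rw [h8]
      exact (analyticAt_const.mul analyticAt_fst).mul (analyticAt_snd.pow _)
    have h9 : AnalyticAt ℂ (fun z => (F.ch x).κ * ModB_rt (F.ch x).ex (F.ch x).k p.2 (swp x.1.2 ((F.ch x).q (F.sS y z))).2 ^ (F.ch x).b) x' :=
      analyticAt_const.mul (h5.pow _)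
    refine (h7.div h9 ?_).prod h5
    rw [hqa, hr1]
    exact mul_ne_zero (F.ch x).κ_ne hPb

/-- a positive lower bound -/
private theorem ModB_min {ι : Type} [Finite ι] (f : ι → ℝ) (hf : ∀ i, 0 < f i) {b : ℝ} (hb : 0 < b) : ∃ η : ℝ, 0 < η ∧ η ≤ b ∧ ∀ i, η ≤ f i := by
  have h1 : ∀ᶠ η : ℝ in 𝓝[>] 0, ∀ i, η ≤ f i := by
    rw [eventually_all]
    intro i
    filter_upwards [Ioo_mem_nhdsGT (hf i)] with η hη
    exact hη.2.le
  have h2 : ∀ᶠ η : ℝ in 𝓝[>] 0, 0 < η ∧ η ≤ b := by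
    filter_upwards [Ioo_mem_nhdsGT hb] with η hη
    exact ⟨hη.1, hη.2.le⟩
  obtain ⟨η, h3, h4⟩ := (h1.and h2).exists
  exact ⟨η, h4.1, h4.2, h3⟩

theorem atl_trans (h : EndData Xb V U D Λ u α) (F : LFam Xb V U D α κ) : ∃ ρ η : ℝ, 0 < ρ ∧ (∀ x : Ix F, ρ ≤ ‖(F.ch x).κ‖) ∧ 0 < η ∧ η ≤ 1 / 4 ∧
    ∀ (x y : Ix F) (p q : ℂ × ℂ), x.1.1 ≠ y.1.1 → Cen p → Cen q → F.atl.s x p = F.atl.s y q → F.atl.L x p ≠ 0 → F.atl.L y q ≠ 0 →
      ‖F.atl.u x p‖ < ρ → F.atl.Rg η x y p q := by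
  have hkpos : ∀ x : Ix F, (0 : ℝ) < ((F.ch x).k : ℝ) := fun x => by exact_mod_cast (F.ch x).k_pos
  choose δ hδ hδ' using fun x : Ix F => pt_close h (F.ch x) (ε := 1 / (64 * ((F.ch x).k : ℝ)))
    (div_pos one_pos (mul_pos (by norm_num) (hkpos x))) (r := 1) (by norm_num)
  have hcont : ∀ y : Ix F, UniformContinuousOn (fun z => pr (F.sS y z)) (closedBall (0 : ℂ × ℂ) 2) := by
    intro y
    apply (isCompact_closedBall _ _).uniformContinuousOn_of_continuous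
    intro z hz
    have hz3 : z ∈ ball (0 : ℂ × ℂ) 3 := closedBall_subset_ball (by norm_num) hz
    have h1 : F.sS y z ≠ 0 := s_ne h (F.ch y) (swp_ball _ hz3)
    exact ((Pool.Agent.H62.EF.continuousAt_pr h1).comp (ModB_an F y hz3).continuousAt).continuousWithinAt
  choose θ hθ hθ' using fun z : Ix F × Ix F => Metric.uniformContinuousOn_iff.1 (hcont z.2) (δ z.1) (hδ z.1)
  obtain ⟨η, hη, hη64, hηθ⟩ := ModB_min θ hθ (b := 1 / 64) (by norm_num)
  have hκpos : ∀ x : Ix F, 0 < ‖(F.ch x).κ‖ := fun x => norm_pos_iff.2 (F.ch x).κ_ne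
  obtain ⟨ρ, hρ, -, hρκ⟩ := ModB_min (fun x : Ix F => ‖(F.ch x).κ‖ * (η / 8)) (fun x => mul_pos (hκpos x) (by linarith)) (b := 1) one_pos
  refine ⟨ρ, η, hρ, fun x => (hρκ x).trans ?_, hη, by linarith, ?_⟩
  · have h1 := hκpos x
    nlinarith
  intro x y p q hxy hp hq he hLp hLq hu
  have hCen : ∀ r : ℂ × ℂ, Cen r → ‖r‖ ≤ 1 := by
    intro r hr
    rw [Prod.norm_def]
    exact max_le (by linarith [hr.1]) hr.2.le
  have hp3 : p ∈ ball (0 : ℂ × ℂ) 3 := by
    rw [mem_ball_zero_iff]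
    linarith [hCen p hp]
  have hq3 : q ∈ ball (0 : ℂ × ℂ) 3 := by
    rw [mem_ball_zero_iff]
    linarith [hCen q hq]
  have hpne : F.sS x p ≠ 0 := s_ne h (F.ch x) (swp_ball _ hp3)
  have hqne : F.sS y q ≠ 0 := s_ne h (F.ch y) (swp_ball _ hq3)
  have hpr : pr (F.sS x p) = pr (F.sS y q) := he
  obtain ⟨a, ha, hae⟩ := (Pool.Agent.H62.EF.pr_eq_iff hqne hpne).1 hpr.symm
  have hae' : F.sS x p = a⁻¹ • F.sS y q := by rw [hae, smul_smul, inv_mul_cancel₀ ha, one_smul]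
  have hswp : ∀ (sw : Bool) (r : ℂ × ℂ), ‖r.1‖ ≤ 1 / 2 → ‖r.2‖ ≤ 1 / 2 → ‖(swp sw r).1‖ ≤ 1 / 2 ∧ ‖(swp sw r).2‖ ≤ 1 / 2 := by
    intro sw r h1 h2
    unfold swp
    split_ifs
    · exact ⟨h2, h1⟩
    · exact ⟨h1, h2⟩
  have hexp : (F.ch x).ex = true → 1 / 2 ≤ ‖p.2‖ := by
    intro h1
    by_contra h2
    push Not at h2
    obtain ⟨h3, h4⟩ := hswp x.1.2 p hp.1.le h2.le
    refine F.sep x.1.1 y.1.1 hxy h1 (swp x.1.2 p) h3 h4 ?_
    have h5 : F.sS x p ∈ (F.ch y).W := by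
      rw [hae']
      exact (F.ch y).smul_W _ (ModB_q F y hq3).2.1 _ (inv_ne_zero ha)
    exact h5
  have hexq : (F.ch y).ex = true → 1 / 2 ≤ ‖q.2‖ := by
    intro h1
    by_contra h2
    push Not at h2
    obtain ⟨h3, h4⟩ := hswp y.1.2 q hq.1.le h2.le
    refine F.sep y.1.1 x.1.1 (Ne.symm hxy) h1 (swp y.1.2 q) h3 h4 ?_
    have h5 : F.sS y q ∈ (F.ch x).W := by
      rw [hae]
      exact (F.ch x).smul_W _ (ModB_q F x hp3).2.1 _ ha
    exact h5
  have hq2 : (F.ch y).ex = true → q.2 ≠ 0 := by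
    intro h1 h2
    have h3 := hexq h1
    rw [h2, norm_zero] at h3
    norm_num at h3
  have hp2 : (F.ch x).ex = true → p.2 ≠ 0 := by
    intro h1 h2
    have h3 := hexp h1
    rw [h2, norm_zero] at h3
    norm_num at h3
  have huu : F.atl.u x p = F.atl.u y q := ModB_u h F x y hq3 hp3 ha hae hp2 hq2
  have hq1 : ‖q.1‖ ≤ η / 4 := by
    rw [huu, atl_u, norm_mul, norm_mul, norm_pow] at hu
    have h1 : 1 / 2 ≤ ‖q.2‖ ^ (F.ch y).b := by
      have h2 := (F.ch y).b_le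
      rcases Nat.eq_zero_or_pos (F.ch y).b with h3 | h3
      · rw [h3, pow_zero]
        norm_num
      · have h4 : (F.ch y).b = 1 := by omega
        rw [h4, pow_one]
        exact hexq ((F.ch y).b_ex h4)
    have h5 := hκpos y
    have h6 : ‖(F.ch y).κ‖ * ‖q.1‖ * (1 / 2) < ‖(F.ch y).κ‖ * (η / 8) :=
      (mul_le_mul_of_nonneg_left h1 (by positivity)).trans_lt (hu.trans_le (hρκ y))
    have h7 : ‖(F.ch y).κ‖ * (‖q.1‖ * (1 / 2)) < ‖(F.ch y).κ‖ * (η / 8) := by rwa [← mul_assoc]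
    have h8 := lt_of_mul_lt_mul_left h7 h5.le
    linarith
  -- the points near `q`
  have key : ∀ x' ∈ ball q η, x' ∈ ball (0 : ℂ × ℂ) 3 ∧ ((F.ch y).ex = true → x'.2 ≠ 0) ∧
      ∃ P ∈ ball (0 : ℂ × ℂ) 3, ‖P - p‖ ≤ 1 / (64 * ((F.ch x).k : ℝ)) ∧ ∃ c : ℂ, c ≠ 0 ∧ F.sS y x' = c • F.sS x P := by
    intro x' hx'
    have hd : ‖x' - q‖ < η := by rwa [mem_ball, dist_eq_norm] at hx'
    have hx'n : ‖x'‖ ≤ 2 := by
      have h1 := norm_add_le (x' - q) q
      rw [sub_add_cancel] at h1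
      linarith [hCen q hq]
    have hx'3 : x' ∈ ball (0 : ℂ × ℂ) 3 := by
      rw [mem_ball_zero_iff]
      linarith
    refine ⟨hx'3, ?_, ?_⟩
    · intro h1 h2
      have h3 := hexq h1
      have h4 : ‖x'.2 - q.2‖ ≤ ‖x' - q‖ := norm_snd_le (x' - q)
      rw [h2, zero_sub, norm_neg] at h4
      linarith
    · have h1 : dist (pr (F.sS y x')) (pr (F.sS y q)) < δ x := by
        refine hθ' (x, y) x' (by rw [mem_closedBall_zero_iff]; exact hx'n) q (by rw [mem_closedBall_zero_iff]; linarith [hCen q hq]) ?_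
        rw [dist_eq_norm]
        exact hd.trans_le (hηθ (x, y))
      rw [← hpr] at h1
      have h2 : swp x.1.2 p ∈ closedBall (0 : ℂ × ℂ) 1 := by
        rw [mem_closedBall_zero_iff]
        have h3 := ModB_swp_norm x.1.2 p 0
        have h4 : swp x.1.2 (0 : ℂ × ℂ) = 0 := by
          unfold swp
          split_ifs <;> rfl
        rw [h4, sub_zero, sub_zero] at h3
        rw [h3]
        exact hCen p hp
      obtain ⟨-, p'', hp'', hpp, c, hc, hxc⟩ := hδ' x (swp x.1.2 p) h2 (F.sS y x') (ModB_q F y hx'3).1 h1.le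
      refine ⟨swp x.1.2 p'', swp_ball _ hp'', ?_, c, hc, ?_⟩
      · rw [ModB_swp_norm]
        exact hpp
      · unfold LFam.sS at hxc ⊢
        rw [ModB_swp_swp]
        exact hxc
  refine ⟨ModB_tau F x y p, ?_, ?_, hexp, hexq, hq1⟩
  · refine (ModB_tau_spec h F x y hq3 hp3 ha hae ?_ hexp hq2).1
    rw [sub_self, norm_zero]
    exact (div_pos one_pos (mul_pos (by norm_num) (hkpos x))).le
  intro x' hx'
  obtain ⟨hx'3, hx'2, P, hP3, hPp, c, hc, hxc⟩ := key x' hx'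
  obtain ⟨ht1, ht2, ht3⟩ := ModB_tau_spec h F x y hx'3 hP3 hc hxc hPp hexp hx'2
  refine ⟨ht2, ?_, ?_⟩
  · rw [ht1, mem_ball, dist_eq_norm]
    have hk1 : (1 : ℝ) ≤ ((F.ch x).k : ℝ) := by exact_mod_cast (F.ch x).k_pos
    have h64 : 1 / (64 * ((F.ch x).k : ℝ)) ≤ 1 / 64 := one_div_le_one_div_of_le (by norm_num) (by linarith)
    linarith
  intro hx1
  have hLx' : Lp (F.ch y).ex x' ≠ 0 := by
    unfold Lp
    split_ifs with h1
    · exact mul_ne_zero hx1 (hx'2 h1)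
    · exact mul_ne_zero hx1 one_ne_zero
  have hVy : F.sS y x' ∈ V := (sS_V F y hx'3).2 hLx'
  have hxc' : F.sS x P = c⁻¹ • F.sS y x' := by rw [hxc, smul_smul, inv_mul_cancel₀ hc, one_smul]
  have hVP : F.sS x P ∈ V := (ModB_exp_u h hVy (inv_ne_zero hc) hxc').1
  refine ⟨?_, by rw [ht1]; exact ht3, ?_⟩
  · show pr (F.sS y x') = pr (F.sS x (ModB_tau F x y p x'))
    rw [ht1, hxc, Pool.Agent.H62.EF.pr_smul _ hc]
  intro t ht
  show Lp (F.ch y).ex x' * cf α (F.sS y) t x' * Lp (F.ch x).ex (ModB_tau F x y p x') =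
    Lp (F.ch x).ex (ModB_tau F x y p x') * cf α (F.sS x) t (ModB_tau F x y p x') * jac (ModB_tau F x y p) x' * Lp (F.ch y).ex x'
  have hcf : cf α (F.sS y) t x' = cf α (F.sS x) t (ModB_tau F x y p x') * jac (ModB_tau F x y p) x' := by
    refine cf_change (fun h0 => h.cone.zero_notMem (h.V_sub h0)) h.V_smul (ModB_an F y hx'3) ?_ ht2 ?_ ?_ ?_
    · rw [ht1]
      exact ModB_an F x hP3
    · rw [ht1]
      have h1 := (ModB_an F x hP3).continuousAt.eventually (h.V_open _ hVP)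
      filter_upwards [h1, isOpen_ball.mem_nhds hP3] with z hz1 hz2
      exact hz1 (ModB_q F x hz2).1
    · rw [ht1, h.lat, Complex.exp_sub, sS_u F x hP3 hVP, ht3, ht]
      exact div_self (by rw [← ht]; exact Complex.exp_ne_zero t)
    · filter_upwards [isOpen_ball.mem_nhds hx'] with z hz
      obtain ⟨hz3, hz2, P', hP3', hPp', c', hc', hzc'⟩ := key z hz
      refine ⟨c', hc', ?_⟩
      rw [(ModB_tau_spec h F x y hz3 hP3' hc' hzc' hPp' hexp hz2).1]
      exact hzc'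
  rw [hcf]
  ring

end Pool.Agent.EG.LE
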