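import Pool.Agent.EG.LE.ModA
import Pool.Agent.EG.LE.ModB
import Pool.Agent.EG.RL.Bd

/-!
# EG LE Mod: the model of a family
-/

set_option autoImplicit false

open Topology Filter Metric Set

namespace Pool.Agent.EG.LE

open Pool.Agent.H36.BP (EN fs wd)
open Pool.Agent.H14.PP (IsCone Tan jac)
open Pool.Agent.H62.EF (MN pr)
open Pool.Agent.H62.EL (TForm)
open Pool.Agent.EG.RL (rot Cen Model Bphi)

variable {N : ℕ} {Xb V U D : Set (EN N)} {Λ : AddSubgroup ℂ} {u : EN N → ℂ} {α : TForm V Λ u} {κ : Type}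

theorem exists_model (h : EndData Xb V U D Λ u α) (F : LFam Xb V U D α κ) : ∃ M : Model (Ix F) (MN N), M.toAtl = F.atl := by
  obtain ⟨ρ, η, hρ, hρκ, hη, hη4, htr⟩ := atl_trans h F
  refine ⟨{ toAtl := F.atl, ρ := ρ, η := η, orb := fun x => (F.ch x).k, ρ_pos := hρ, ρ_le := hρκ, η_pos := hη, η_le := hη4, a_pos := fun _ => le_rfl,
            b_ex := ?_, orb_pos := fun x => (F.ch x).k_pos, orb_eq := ?_, inj := ?_, rot_eq := ?_, g_an := ?_, trans := ?_ }, rfl⟩
  · intro x hx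
    show ((F.ch x).b : ℤ) = 0
    have h1 := (F.ch x).b_le
    have h2 : (F.ch x).b ≠ 1 := fun hb => by
      have h3 := (F.ch x).b_ex hb
      have h4 : (F.ch x).ex = false := hx
      rw [h3] at h4
      exact absurd h4 (by simp)
    have h3 : (F.ch x).b = 0 := by omega
    rw [h3]
    rfl
  · intro x
    rcases (F.ch x).k_eq with h1 | h1
    · exact Or.inl h1
    · exact Or.inr ((F.ch x).b_ex h1)
  · intro x p q hp hq _ _ he
    exact atl_inj h F x hp hq he
  · intro x ζ hζ p hp hL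
    exact atl_rot h F x hζ hp hL
  · intro x p hp hL t ht he
    exact atl_gan h F x hp hL ht he
  · intro x y p q hp hq he hLp hLq hu
    by_cases h1 : x.1.1 = y.1.1
    · by_cases h2 : x.1.2 = y.1.2
      · exact Or.inl (Subtype.ext (Prod.ext h1 h2))
      · exact Or.inr (Or.inl (atl_sw h F h1 h2))
    · exact Or.inr (Or.inr (htr x y p q h1 hp hq he hLp hLq hu))

theorem bphi (h : EndData Xb V U D Λ u α) (F : LFam Xb V U D α κ) {M : Model (Ix F) (MN N)} (hM : M.toAtl = F.atl) :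
    ∃ C₀ : ℝ, 0 ≤ C₀ ∧ Bphi M C₀ 0 := by
  refine Pool.Agent.EG.RL.bphi_end M fun x => ?_
  rw [hM]
  exact atl_bd h F x

end Pool.Agent.EG.LE
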