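import Pool.Agent.EG.LE.Atl
import Pool.Agent.EG.LE.Pt
import Pool.Agent.EG.LE.Frm
import Pool.Agent.H62.EF.PrA

/-!
# EG LE ModA: the atlas of a family, properties of one chart

Proof (helper41):
atl_inj: pr (sS x p) = pr (sS x q) gives sS x q = a • sS x p (pr determines the line, both ≠ 0); fib for swp p, swp q: swp q = rot zeta (swp p); exchange back: q = rot zeta⁻¹ p if sw = true.
atl_rot: s_rot for swp p (with zeta⁻¹ if sw = true): pr equal.  The coefficient: near p, sS x (rot zeta p') = c(p') • sS x p' (p' near p); cf_change with phi = fun p' => sS x (rot zeta p'),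
psi = sS x, tau = id: cf phi t p = cf (sS x) t p; and cf_change with psi = sS x, tau = rot zeta (equality phi p' = 1 • psi (tau p')), jac (rot zeta) = 1: cf phi t p = cf (sS x) t (rot zeta p).
Lp ex (rot zeta p) = Lp ex p if ex = true; if ex = false then b = 0, k = 1, zeta = 1.
atl_gan: TForm.analytic with phi = sS x, upsilon = t: near p the points sS x q are in V (Lp ≠ 0 is open), exp (u (sS x q)) = u x q = exp (t q) (sS_u), so u (sS x q) - t q in Lambda (lat).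
atl_bd: LCh.bd; for sw = true: cf (sS x) t p = - cf s t p.swap (cf_change with tau = swap, jac = -1), Lp true p = Lp true p.swap.
atl_sw: the exchanged chart: sS (i, true) p = sS (i, false) p.swap.
-/

set_option autoImplicit false

open Topology Filter Metric Set

namespace Pool.Agent.EG.LE

open Pool.Agent.H36.BP (EN fs wd)
open Pool.Agent.H14.PP (IsCone Tan jac)
open Pool.Agent.H62.EF (MN pr)
open Pool.Agent.H62.EL (TForm)
open Pool.Agent.EG.RL (rot)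

variable {N : ℕ} {Xb V U D : Set (EN N)} {Λ : AddSubgroup ℂ} {u : EN N → ℂ} {α : TForm V Λ u} {κ : Type}

private theorem ModA_zero (h : EndData Xb V U D Λ u α) : (0 : EN N) ∉ V := fun h0 => h.cone.zero_notMem (h.V_sub h0)

private theorem ModA_norm {ζ : ℂ} {k : ℕ} (hk : 1 ≤ k) (hζ : ζ ^ k = 1) : ‖ζ‖ = 1 :=
  Complex.norm_eq_one_of_pow_eq_one hζ (by omega)

private theorem ModA_rot_ball {ζ : ℂ} (h1 : ‖ζ‖ = 1) {p : ℂ × ℂ} {r : ℝ} (hp : p ∈ ball (0 : ℂ × ℂ) r) : rot ζ p ∈ ball (0 : ℂ × ℂ) r := by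
  rw [mem_ball_zero_iff, Prod.norm_def] at hp ⊢
  unfold rot
  simp only [norm_mul, norm_inv, h1, inv_one, one_mul]
  exact hp

private theorem ModA_ball {p : ℂ × ℂ} (hp : p ∈ ball (0 : ℂ × ℂ) 2) : p ∈ ball (0 : ℂ × ℂ) 3 :=
  ball_subset_ball (by norm_num) hp

private theorem ModA_swp_rot (sw : Bool) (ζ : ℂ) (p : ℂ × ℂ) :
    swp sw (rot ζ p) = rot (if sw = true then ζ⁻¹ else ζ) (swp sw p) := by
  unfold swp rot
  split_ifs
  · simp
  · rfl

private theorem ModA_swp_swp (sw : Bool) (p : ℂ × ℂ) : swp sw (swp sw p) = p := by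
  unfold swp
  split_ifs
  · simp
  · rfl

private theorem ModA_pow {sw : Bool} {ζ : ℂ} {k : ℕ} (hζ : ζ ^ k = 1) : (if sw = true then ζ⁻¹ else ζ) ^ k = 1 := by
  split_ifs
  · rw [inv_pow, hζ, inv_one]
  · exact hζ

private theorem ModA_swp_an (sw : Bool) (p : ℂ × ℂ) : AnalyticAt ℂ (swp sw) p := by
  unfold swp
  split_ifs
  · exact analyticAt_snd.prod analyticAt_fst
  · exact analyticAt_id

private theorem ModA_an (F : LFam Xb V U D α κ) (x : Ix F) {p : ℂ × ℂ} (hp : p ∈ ball (0 : ℂ × ℂ) 3) : AnalyticAt ℂ (F.sS x) p := by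
  have h1 := (F.ch x).s_an _ (swp_ball x.1.2 hp)
  exact h1.fun_comp (ModA_swp_an x.1.2 p)

private theorem ModA_Lp_an (e : Bool) (p : ℂ × ℂ) : AnalyticAt ℂ (Lp e) p := by
  unfold Lp
  split_ifs
  · exact analyticAt_fst.mul analyticAt_snd
  · exact analyticAt_fst.mul analyticAt_const

private theorem ModA_near (F : LFam Xb V U D α κ) (x : Ix F) {p : ℂ × ℂ} (hp : p ∈ ball (0 : ℂ × ℂ) 3) (hL : Lp (F.ch x).ex p ≠ 0) :
    ∀ᶠ y in 𝓝 p, y ∈ ball (0 : ℂ × ℂ) 3 ∧ Lp (F.ch x).ex y ≠ 0 := by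
  filter_upwards [isOpen_ball.mem_nhds hp, (ModA_Lp_an (F.ch x).ex p).continuousAt.eventually_ne hL] with y h1 h2
  exact ⟨h1, h2⟩

private theorem ModA_V (F : LFam Xb V U D α κ) (x : Ix F) {p : ℂ × ℂ} (hp : p ∈ ball (0 : ℂ × ℂ) 3) (hL : Lp (F.ch x).ex p ≠ 0) :
    ∀ᶠ y in 𝓝 p, F.sS x y ∈ V := by
  filter_upwards [ModA_near F x hp hL] with y hy
  exact (sS_V F x hy.1).2 hy.2

private theorem ModA_lat (h : EndData Xb V U D Λ u α) (F : LFam Xb V U D α κ) (x : Ix F) {p : ℂ × ℂ} (hp : p ∈ ball (0 : ℂ × ℂ) 3)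
    (hL : Lp (F.ch x).ex p ≠ 0) {t : ℂ} (ht : Complex.exp t = F.atl.u x p) : u (F.sS x p) - t ∈ Λ := by
  rw [h.lat, Complex.exp_sub, sS_u F x hp ((sS_V F x hp).2 hL), ht, div_self]
  rw [← ht]
  exact Complex.exp_ne_zero t

private theorem ModA_jac_swap (p : ℂ × ℂ) : jac Prod.swap p = -1 := by
  have h1 : HasFDerivAt (Prod.swap : ℂ × ℂ → ℂ × ℂ)
      ((ContinuousLinearMap.snd ℂ ℂ ℂ).prod (ContinuousLinearMap.fst ℂ ℂ ℂ)) p :=
    (hasFDerivAt_snd (𝕜 := ℂ) (p := p)).prodMk (hasFDerivAt_fst (𝕜 := ℂ) (p := p))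
  unfold jac
  rw [h1.fderiv]
  simp

private theorem ModA_jac_id (p : ℂ × ℂ) : jac (fun q => q) p = 1 := by
  unfold jac
  rw [fderiv_fun_id]
  simp

private theorem ModA_jac_rot {ζ : ℂ} (hζ : ζ ≠ 0) (p : ℂ × ℂ) : jac (rot ζ) p = 1 := by
  have h1 : HasFDerivAt (rot ζ)
      ((ζ • ContinuousLinearMap.fst ℂ ℂ ℂ).prod (ζ⁻¹ • ContinuousLinearMap.snd ℂ ℂ ℂ)) p :=
    ((hasFDerivAt_fst (𝕜 := ℂ) (p := p)).const_mul ζ).prodMk ((hasFDerivAt_snd (𝕜 := ℂ) (p := p)).const_mul ζ⁻¹)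
  unfold jac
  rw [h1.fderiv]
  simp [hζ]

private theorem ModA_rot_an (ζ : ℂ) (p : ℂ × ℂ) : AnalyticAt ℂ (rot ζ) p :=
  (analyticAt_const.mul analyticAt_fst).prod (analyticAt_const.mul analyticAt_snd)

private theorem ModA_swap_an (p : ℂ × ℂ) : AnalyticAt ℂ (Prod.swap : ℂ × ℂ → ℂ × ℂ) p :=
  analyticAt_snd.prod analyticAt_fst

private theorem ModA_cf_swap (h : EndData Xb V U D Λ u α) {φ ψ : ℂ × ℂ → EN N} {p : ℂ × ℂ} {t : ℂ} (hφ : AnalyticAt ℂ φ p)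
    (hψ : AnalyticAt ℂ ψ p.swap) (hV : ∀ᶠ y in 𝓝 p.swap, ψ y ∈ V) (hu : u (ψ p.swap) - t ∈ Λ) (he : ∀ y, φ y = ψ y.swap) :
    cf α φ t p = -cf α ψ t p.swap := by
  have h1 := cf_change (α := α) (ModA_zero h) h.V_smul hφ hψ (ModA_swap_an p) hV hu
    (Eventually.of_forall fun y => ⟨1, one_ne_zero, by rw [one_smul, he]⟩)
  rw [h1, ModA_jac_swap, mul_neg, mul_one]

private theorem ModA_Lp_swap {e : Bool} (he : e = true) (p : ℂ × ℂ) : Lp e p.swap = Lp e p := by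
  unfold Lp
  rw [if_pos he, if_pos he, Prod.fst_swap, Prod.snd_swap, mul_comm]

private theorem ModA_u_swap {F : LFam Xb V U D α κ} {x : Ix F} (hb : (F.ch x).b = 1) (p : ℂ × ℂ) :
    F.atl.u x p.swap = F.atl.u x p := by
  rw [atl_u, atl_u, hb, pow_one, pow_one, Prod.fst_swap, Prod.snd_swap]
  ring

private theorem ModA_swap_ball {p : ℂ × ℂ} {r : ℝ} (hp : p ∈ ball (0 : ℂ × ℂ) r) : p.swap ∈ ball (0 : ℂ × ℂ) r :=
  swp_ball true hp

theorem atl_inj (h : EndData Xb V U D Λ u α) (F : LFam Xb V U D α κ) (x : Ix F) {p q : ℂ × ℂ} (hp : p ∈ ball (0 : ℂ × ℂ) 2)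
    (hq : q ∈ ball (0 : ℂ × ℂ) 2) (he : F.atl.s x p = F.atl.s x q) : ∃ ζ : ℂ, ζ ^ (F.ch x).k = 1 ∧ q = rot ζ p := by
  have hp' := swp_ball x.1.2 (ModA_ball hp)
  have hq' := swp_ball x.1.2 (ModA_ball hq)
  have h1 : pr ((F.ch x).s (swp x.1.2 q)) = pr ((F.ch x).s (swp x.1.2 p)) := he.symm
  obtain ⟨c, hc, hcc⟩ := (Pool.Agent.H62.EF.pr_eq_iff (s_ne h (F.ch x) hq') (s_ne h (F.ch x) hp')).1 h1
  obtain ⟨ζ, hζ, h2⟩ := fib h (F.ch x) hq' hp' hc hcc
  refine ⟨if x.1.2 = true then ζ⁻¹ else ζ, ModA_pow hζ, ?_⟩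
  have h3 : q = swp x.1.2 (rot ζ (swp x.1.2 p)) := by rw [← h2, ModA_swp_swp]
  rw [h3, ModA_swp_rot, ModA_swp_swp]

theorem atl_rot (h : EndData Xb V U D Λ u α) (F : LFam Xb V U D α κ) (x : Ix F) {ζ : ℂ} (hζ : ζ ^ (F.ch x).k = 1) {p : ℂ × ℂ}
    (hp : p ∈ ball (0 : ℂ × ℂ) 2) (hL : F.atl.L x p ≠ 0) :
    F.atl.s x (rot ζ p) = F.atl.s x p ∧ ∀ t, Complex.exp t = F.atl.u x p → F.atl.g x t (rot ζ p) = F.atl.g x t p := by
  have hL' : Lp (F.ch x).ex p ≠ 0 := hL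
  have hn := ModA_norm (F.ch x).k_pos hζ
  have hζ0 : ζ ≠ 0 := by
    intro h0
    rw [h0, norm_zero] at hn
    exact zero_ne_one hn
  have hp3 := ModA_ball hp
  have hr3 := ModA_rot_ball hn hp3
  have hrot : ∀ y ∈ ball (0 : ℂ × ℂ) 3, ∃ c : ℂ, c ≠ 0 ∧ F.sS x (rot ζ y) = c • F.sS x y := by
    intro y hy
    obtain ⟨c, hc, hcc⟩ := (F.ch x).s_rot _ (ModA_pow (sw := x.1.2) hζ) _ (swp_ball x.1.2 hy)
    refine ⟨c, hc, ?_⟩
    unfold LFam.sS
    rw [ModA_swp_rot, hcc]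
  constructor
  · obtain ⟨c, hc, hcc⟩ := hrot p hp3
    show pr (F.sS x (rot ζ p)) = pr (F.sS x p)
    rw [hcc, Pool.Agent.H62.EF.pr_smul _ hc]
  intro t ht
  rcases (F.ch x).k_eq with hk | hb
  · have hk' : (F.ch x).k = 1 := hk
    rw [hk', pow_one] at hζ
    subst hζ
    have h1 : rot 1 p = p := by
      unfold rot
      simp
    rw [h1]
  have hb' : (F.ch x).b = 1 := hb
  have hex : (F.ch x).ex = true := (F.ch x).b_ex hb'
  have hLr : Lp (F.ch x).ex (rot ζ p) = Lp (F.ch x).ex p := by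
    unfold Lp rot
    rw [if_pos hex, if_pos hex]
    field_simp
  have hur : F.atl.u x (rot ζ p) = F.atl.u x p := by
    rw [atl_u, atl_u, hb', pow_one, pow_one]
    unfold rot
    field_simp
  have hLr' : Lp (F.ch x).ex (rot ζ p) ≠ 0 := by rw [hLr]; exact hL'
  have hφ : AnalyticAt ℂ (fun y => F.sS x (rot ζ y)) p := (ModA_an F x hr3).fun_comp (ModA_rot_an ζ p)
  have h1 := cf_change (α := α) (φ := fun y => F.sS x (rot ζ y)) (ψ := F.sS x) (τ := fun q => q) (p := p) (t := t)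
    (ModA_zero h) h.V_smul hφ (ModA_an F x hp3) analyticAt_id (ModA_V F x hp3 hL') (ModA_lat h F x hp3 hL' ht)
    (by
      filter_upwards [isOpen_ball.mem_nhds hp3] with y hy
      exact hrot y hy)
  have h2 := cf_change (α := α) (φ := fun y => F.sS x (rot ζ y)) (ψ := F.sS x) (τ := rot ζ) (p := p) (t := t)
    (ModA_zero h) h.V_smul hφ (ModA_an F x hr3) (ModA_rot_an ζ p) (ModA_V F x hr3 hLr')
    (ModA_lat h F x hr3 hLr' (by rw [ht, hur]))
    (Eventually.of_forall fun y => ⟨1, one_ne_zero, by rw [one_smul]⟩)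
  rw [ModA_jac_id, mul_one] at h1
  rw [ModA_jac_rot hζ0, mul_one] at h2
  show Lp (F.ch x).ex (rot ζ p) * cf α (F.sS x) t (rot ζ p) = Lp (F.ch x).ex p * cf α (F.sS x) t p
  rw [hLr, ← h2, h1]

theorem atl_gan (h : EndData Xb V U D Λ u α) (F : LFam Xb V U D α κ) (x : Ix F) {p : ℂ × ℂ} (hp : p ∈ ball (0 : ℂ × ℂ) 2)
    (hL : F.atl.L x p ≠ 0) {t : ℂ × ℂ → ℂ} (ht : AnalyticAt ℂ t p) (he : ∀ᶠ q in 𝓝 p, Complex.exp (t q) = F.atl.u x q) :
    AnalyticAt ℂ (fun q => F.atl.g x (t q) q) p := by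
  have hL' : Lp (F.ch x).ex p ≠ 0 := hL
  have hp3 := ModA_ball hp
  have h1 := α.analytic (F.sS x) t p (ModA_an F x hp3) ht (by
    filter_upwards [ModA_near F x hp3 hL', he] with y hy hy'
    exact ⟨(sS_V F x hy.1).2 hy.2, ModA_lat h F x hy.1 hy.2 hy'⟩)
  exact (ModA_Lp_an (F.ch x).ex p).mul h1

theorem atl_bd (h : EndData Xb V U D Λ u α) (F : LFam Xb V U D α κ) (x : Ix F) :
    ∃ C : ℝ, ∀ p ∈ ball (0 : ℂ × ℂ) 2, F.atl.L x p ≠ 0 → ∀ t, Complex.exp t = F.atl.u x p → ‖F.atl.g x t p‖ ≤ C := by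
  obtain ⟨C, hC⟩ := (F.ch x).bd
  refine ⟨C, fun p hp hL t ht => ?_⟩
  have hL' : Lp (F.ch x).ex p ≠ 0 := hL
  have hp3 := ModA_ball hp
  show ‖Lp (F.ch x).ex p * cf α (F.sS x) t p‖ ≤ C
  by_cases hs : x.1.2 = true
  · have hb : (F.ch x).b = 1 := x.2 hs
    have hex : (F.ch x).ex = true := (F.ch x).b_ex hb
    have hsS : ∀ y, F.sS x y = (F.ch x).s y.swap := by
      intro y
      unfold LFam.sS swp
      rw [if_pos hs]
    have hps := ModA_swap_ball hp3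
    have hLs : Lp (F.ch x).ex p.swap ≠ 0 := by rw [ModA_Lp_swap hex]; exact hL'
    have hus : Complex.exp t = (F.ch x).κ * p.swap.1 * p.swap.2 ^ (F.ch x).b := by
      rw [← atl_u, ModA_u_swap hb, ht]
    have h1 : cf α (F.sS x) t p = -cf α (F.ch x).s t p.swap := by
      refine ModA_cf_swap h (ModA_an F x hp3) ((F.ch x).s_an _ hps) ?_ ?_ hsS
      · filter_upwards [ModA_near F x hps hLs] with y hy
        have hy2 := hy.2
        unfold Lp at hy2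
        rw [if_pos hex, mul_ne_zero_iff] at hy2
        exact ((F.ch x).s_V y hy.1).2 ⟨hy2.1, fun _ => hy2.2⟩
      · rw [← hsS]
        exact ModA_lat h F x hp3 hL' ht
    rw [h1, mul_neg, norm_neg, ← ModA_Lp_swap hex]
    exact hC _ hps hLs t hus
  · have hsS : F.sS x = (F.ch x).s := by
      funext y
      unfold LFam.sS swp
      rw [if_neg hs]
    rw [hsS]
    exact hC p hp3 hL' t (by rw [← atl_u, ht])

theorem atl_sw (h : EndData Xb V U D Λ u α) (F : LFam Xb V U D α κ) {x y : Ix F} (hxy : x.1.1 = y.1.1) (hne : x.1.2 ≠ y.1.2) :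
    F.atl.Sw x y := by
  have hc : F.ch x = F.ch y := by
    unfold LFam.ch
    rw [hxy]
  have hb : (F.ch x).b = 1 := by
    by_cases hs : x.1.2 = true
    · exact x.2 hs
    · have hs' : y.1.2 = true := by
        revert hne hs
        cases x.1.2 <;> cases y.1.2 <;> simp
      rw [hc]
      exact y.2 hs'
  have hex : (F.ch x).ex = true := (F.ch x).b_ex hb
  have hex' : (F.ch y).ex = true := by rw [← hc]; exact hex
  have hb' : (F.ch y).b = 1 := by rw [← hc]; exact hb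
  have hsS : ∀ p, F.sS y p = F.sS x p.swap := by
    intro p
    unfold LFam.sS swp
    rw [hc]
    revert hne
    cases x.1.2 <;> cases y.1.2 <;> simp
  refine ⟨hex, hex', ?_, ?_, ?_, ?_, ?_⟩
  · show (1 : ℤ) ≤ ((F.ch x).b : ℤ)
    rw [hb]
    norm_num
  · show ((1 : ℕ) : ℤ) = ((F.ch x).b : ℤ)
    rw [hb]
  · show ((F.ch y).b : ℤ) = ((1 : ℕ) : ℤ)
    rw [hb']
  · show (F.ch y).κ = (F.ch x).κ
    rw [hc]
  intro p hp hL
  have hL' : Lp (F.ch y).ex p ≠ 0 := hL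
  have hp3 := ModA_ball hp
  have hps := ModA_swap_ball hp3
  have hLs : Lp (F.ch x).ex p.swap ≠ 0 := by
    rw [ModA_Lp_swap hex, hc]
    exact hL'
  refine ⟨?_, fun t ht => ?_⟩
  · show pr (F.sS y p) = pr (F.sS x p.swap)
    rw [hsS]
  · have hu' : Complex.exp t = F.atl.u x p.swap := by
      rw [ModA_u_swap hb, ht, atl_u, atl_u, hc]
    have h1 := ModA_cf_swap h (ModA_an F y hp3) (ModA_an F x hps) (ModA_V F x hps hLs) (ModA_lat h F x hps hLs hu') hsS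
    show Lp (F.ch y).ex p * cf α (F.sS y) t p = -(Lp (F.ch x).ex p.swap * cf α (F.sS x) t p.swap)
    rw [h1, ModA_Lp_swap hex, hc, mul_neg]

end Pool.Agent.EG.LE
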