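import Pool.Agent.EG.LE.Mod
import Pool.Agent.EG.LE.Frm

/-!
# EG LE PhiC: the parametrization of a cell
-/

set_option autoImplicit false

open Topology Filter Metric Set

namespace Pool.Agent.EG.LE

open Pool.Agent.H36.BP (EN fs wd)
open Pool.Agent.H14.PP (IsCone Tan jac)
open Pool.Agent.H62.EF (MN pr)
open Pool.Agent.H62.EL (TForm)
open Pool.Agent.EG.RL (rot Cen Model Bphi)

variable {N : ℕ} {Xb V U D : Set (EN N)} {Λ : AddSubgroup ℂ} {u : EN N → ℂ} {α : TForm V Λ u} {κ : Type}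

/-- the coordinates of a point of the cell -/
noncomputable def LFam.XX (F : LFam Xb V U D α κ) (x : Ix F) (t w : ℂ) : ℂ × ℂ := F.atl.X x (F.ch x).κ⁻¹ t w

/-- the parametrization of the cell -/
noncomputable def LFam.Phi (F : LFam Xb V U D α κ) (x : Ix F) (t w : ℂ) : EN N := F.sS x (F.XX x t w)

/-- the density -/
noncomputable def LFam.phi (F : LFam Xb V U D α κ) (x : Ix F) (t w : ℂ) : ℂ := F.atl.phi x (F.ch x).κ⁻¹ t w

/-- its primitive -/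
noncomputable def LFam.PP (F : LFam Xb V U D α κ) (x : Ix F) (t w : ℂ) : ℂ := F.atl.P x (F.ch x).κ⁻¹ t w

theorem k_mu (F : LFam Xb V U D α κ) (x : Ix F) : F.atl.k x * (F.ch x).κ⁻¹ ^ F.atl.a x = 1 := by
  show (F.ch x).κ * (F.ch x).κ⁻¹ ^ 1 = 1
  rw [pow_one, mul_inv_cancel₀ (F.ch x).κ_ne]

theorem XX_eq (F : LFam Xb V U D α κ) (x : Ix F) (t w : ℂ) :
    F.XX x t w = ((F.ch x).κ⁻¹ * Complex.exp (t - (F.ch x).b * w), if (F.ch x).ex = true then Complex.exp w else w) := by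
  show ((F.ch x).κ⁻¹ * Complex.exp ((t - (((F.ch x).b : ℤ) : ℂ) * w) / ((1 : ℕ) : ℂ)), Pool.Agent.EG.RL.yb (F.ch x).ex w) = _
  rw [Nat.cast_one, div_one, Int.cast_natCast]
  rfl

theorem XX_an (h : EndData Xb V U D Λ u α) (F : LFam Xb V U D α κ) (x : Ix F) (q : ℂ × ℂ) : AnalyticAt ℂ (fun q : ℂ × ℂ => F.XX x q.1 q.2) q := by
  obtain ⟨M, hM⟩ := exists_model h F
  have h1 := Pool.Agent.EG.RL.X_an M x (F.ch x).κ⁻¹ q
  rw [hM] at h1
  exact h1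

theorem XX_L (h : EndData Xb V U D Λ u α) (F : LFam Xb V U D α κ) (x : Ix F) (t w : ℂ) : Lp (F.ch x).ex (F.XX x t w) ≠ 0 := by
  obtain ⟨M, hM⟩ := exists_model h F
  have h0 := k_mu F x
  rw [← hM] at h0
  have h1 := Pool.Agent.EG.RL.L_X_ne M h0 t w
  rw [hM] at h1
  exact h1

theorem XX_u (h : EndData Xb V U D Λ u α) (F : LFam Xb V U D α κ) (x : Ix F) (t w : ℂ) :
    (F.ch x).κ * (F.XX x t w).1 * (F.XX x t w).2 ^ (F.ch x).b = Complex.exp t := by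
  obtain ⟨M, hM⟩ := exists_model h F
  have h0 := k_mu F x
  rw [← hM] at h0
  have h1 := Pool.Agent.EG.RL.u_X M h0 t w
  rw [hM, atl_u] at h1
  exact h1

theorem ball23 {p : ℂ × ℂ} (hp : p ∈ ball (0 : ℂ × ℂ) 2) : p ∈ ball (0 : ℂ × ℂ) 3 := ball_subset_ball (by norm_num) hp

theorem sS_an (F : LFam Xb V U D α κ) (x : Ix F) {p : ℂ × ℂ} (hp : p ∈ ball (0 : ℂ × ℂ) 3) : AnalyticAt ℂ (F.sS x) p := by
  have h1 := (F.ch x).s_an _ (swp_ball x.1.2 hp)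
  have h2 : AnalyticAt ℂ (swp x.1.2) p := by
    unfold swp
    by_cases hs : x.1.2 = true
    · rw [hs]
      simp only [if_true]
      exact analyticAt_snd.prod analyticAt_fst
    · have hs' : x.1.2 = false := by simpa using hs
      rw [hs']
      simp only [Bool.false_eq_true, if_false]
      exact analyticAt_id
  exact AnalyticAt.fun_comp (g := (F.ch x).s) (f := swp x.1.2) h1 h2

theorem sS_Xb (F : LFam Xb V U D α κ) (x : Ix F) {p : ℂ × ℂ} (hp : p ∈ ball (0 : ℂ × ℂ) 3) : F.sS x p ∈ Xb :=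
  ((F.ch x).s_mem _ (swp_ball x.1.2 hp)).1

theorem Phi_an (h : EndData Xb V U D Λ u α) (F : LFam Xb V U D α κ) (x : Ix F) {q : ℂ × ℂ} (hX : F.XX x q.1 q.2 ∈ ball (0 : ℂ × ℂ) 2) :
    AnalyticAt ℂ (fun q : ℂ × ℂ => F.Phi x q.1 q.2) q :=
  AnalyticAt.fun_comp (g := F.sS x) (f := fun q : ℂ × ℂ => F.XX x q.1 q.2) (sS_an F x (ball23 hX)) (XX_an h F x q)

theorem Phi_V (h : EndData Xb V U D Λ u α) (F : LFam Xb V U D α κ) (x : Ix F) {t w : ℂ} (hX : F.XX x t w ∈ ball (0 : ℂ × ℂ) 2) :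
    F.Phi x t w ∈ V ∧ u (F.Phi x t w) - t ∈ Λ := by
  have h1 : F.Phi x t w ∈ V := (sS_V F x (ball23 hX)).2 (XX_L h F x t w)
  refine ⟨h1, ?_⟩
  rw [h.lat, Complex.exp_sub]
  have h2 := sS_u F x (ball23 hX) h1
  rw [atl_u, XX_u h F x] at h2
  have h3 : Complex.exp (u (F.Phi x t w)) = Complex.exp t := h2
  rw [h3, div_self (Complex.exp_ne_zero _)]

theorem Phi_V_ev (h : EndData Xb V U D Λ u α) (F : LFam Xb V U D α κ) (x : Ix F) {q₀ : ℂ × ℂ} (hX : F.XX x q₀.1 q₀.2 ∈ ball (0 : ℂ × ℂ) 2) :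
    ∀ᶠ q in 𝓝 q₀, F.Phi x q.1 q.2 ∈ V ∧ u (F.Phi x q.1 q.2) - q.1 ∈ Λ := by
  have h1 := (XX_an h F x q₀).continuousAt
  have h2 := h1.eventually_mem (isOpen_ball.mem_nhds hX)
  filter_upwards [h2] with q hq
  exact Phi_V h F x hq

/-- the coefficient of the form in the parametrization of the cell -/
theorem cf_cell (h : EndData Xb V U D Λ u α) (F : LFam Xb V U D α κ) (x : Ix F) {t w : ℂ} (hX : F.XX x t w ∈ ball (0 : ℂ × ℂ) 2) :
    cf α (fun q : ℂ × ℂ => F.Phi x q.1 q.2) t (t, w) = F.phi x t w := by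
  obtain ⟨M, hM⟩ := exists_model h F
  have h0 : (0 : EN N) ∉ V := fun h0 => h.cone.zero_notMem (h.V_sub h0)
  have hX3 := ball23 hX
  have hψV : ∀ᶠ y in 𝓝 (F.XX x t w), F.sS x y ∈ V := by
    have h1 : ContinuousAt (fun p : ℂ × ℂ => Lp (F.ch x).ex p) (F.XX x t w) := by
      unfold Lp
      split_ifs <;> fun_prop
    filter_upwards [isOpen_ball.mem_nhds hX3, h1.eventually_ne (XX_L h F x t w)] with y hy hL
    exact (sS_V F x hy).2 hL
  have hcf := cf_change (α := α) h0 h.V_smul (φ := fun q : ℂ × ℂ => F.Phi x q.1 q.2) (ψ := F.sS x) (τ := fun q : ℂ × ℂ => F.XX x q.1 q.2)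
    (p := (t, w)) (t := t) (Phi_an h F x hX) (sS_an F x hX3) (XX_an h F x (t, w)) hψV (Phi_V h F x hX).2
    (Eventually.of_forall fun y => ⟨1, one_ne_zero, (one_smul _ _).symm⟩)
  rw [hcf]
  have hj := Pool.Agent.EG.RL.jac_X M x (F.ch x).κ⁻¹ (t, w)
  rw [hM] at hj
  have hj' : jac (fun q : ℂ × ℂ => F.XX x q.1 q.2) (t, w) = Lp (F.ch x).ex (F.XX x t w) / ((1 : ℕ) : ℂ) := hj
  rw [hj', Nat.cast_one, div_one]
  show _ = (Lp (F.ch x).ex (F.XX x t w) * cf α (F.sS x) t (F.XX x t w)) / ((1 : ℕ) : ℂ)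
  rw [Nat.cast_one, div_one, mul_comm]

end Pool.Agent.EG.LE
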