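import Pool.Agent.EG.LE.SeamA
import Pool.Agent.H62.EF.PrA

/-!
# EG LE Seam: the seam of the end and the middle part
-/

set_option autoImplicit false

open Topology Filter Metric Set

namespace Pool.Agent.EG.LE

open Pool.Agent.H36.BP (EN fs wd)
open Pool.Agent.H14.PP (IsCone Tan jac)
open Pool.Agent.H62.EF (MN pr)
open Pool.Agent.H62.EL (TForm)
open Pool.Agent.EG.RL (rot Cen Model Bphi)

variable {N : ℕ} {Xb V U D : Set (EN N)} {Λ : AddSubgroup ℂ} {u : EN N → ℂ} {α : TForm V Λ u} {κ : Type}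

/-- the integral of the density is the difference of the primitives -/
theorem seam_int (h : EndData Xb V U D Λ u α) (F : LFam Xb V U D α κ) {M : Model (Ix F) (MN N)} (hM : M.toAtl = F.atl) (x : Ix F)
    {t w₀ w₁ : ℂ} (ht : ‖Complex.exp t‖ < M.ρ) (hX : ∀ θ ∈ Icc (0 : ℝ) 1, F.XX x t (w₀ + θ * (w₁ - w₀)) ∈ ball (0 : ℂ × ℂ) 2) :
    (∫ θ in (0 : ℝ)..1, (w₁ - w₀) * cf α (fun q : ℂ × ℂ => F.Phi x q.1 q.2) t (t, w₀ + θ * (w₁ - w₀))) = F.PP x t w₁ - F.PP x t w₀ := by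
  have hk := k_mu F x
  rw [← hM] at hk
  have hder : ∀ θ ∈ Icc (0 : ℝ) 1, HasDerivAt (fun θ : ℝ => F.PP x t (w₀ + θ * (w₁ - w₀)))
      ((w₁ - w₀) * F.phi x t (w₀ + θ * (w₁ - w₀))) θ := by
    intro θ hθ
    have h1 : M.X x (F.ch x).κ⁻¹ t (w₀ + θ * (w₁ - w₀)) ∈ ball (0 : ℂ × ℂ) 2 := by
      rw [hM]
      exact hX θ hθ
    have h2 := Pool.Agent.EG.RL.P_deriv M hk ht h1
    rw [hM] at h2
    have h3 : HasDerivAt (fun θ : ℝ => w₀ + (θ : ℂ) * (w₁ - w₀)) (w₁ - w₀) θ := by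
      have h4 : HasDerivAt (fun θ : ℝ => (θ : ℂ)) 1 θ := Complex.ofRealCLM.hasDerivAt
      have h5 := (h4.mul_const (w₁ - w₀)).const_add w₀
      rwa [one_mul] at h5
    have h6 := HasDerivAt.comp (𝕜 := ℝ) (𝕜' := ℂ) (h := fun θ : ℝ => w₀ + (θ : ℂ) * (w₁ - w₀)) θ h2 h3
    have h7 : F.atl.phi x (F.ch x).κ⁻¹ t (w₀ + θ * (w₁ - w₀)) * (w₁ - w₀) = (w₁ - w₀) * F.phi x t (w₀ + θ * (w₁ - w₀)) := by
      rw [mul_comm]
      rfl
    rw [h7] at h6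
    exact h6
  have hcont : ContinuousOn (fun θ : ℝ => (w₁ - w₀) * F.phi x t (w₀ + θ * (w₁ - w₀))) (Icc 0 1) := by
    intro θ hθ
    have h1 : M.X x (F.ch x).κ⁻¹ (t, w₀ + (θ : ℂ) * (w₁ - w₀)).1 (t, w₀ + (θ : ℂ) * (w₁ - w₀)).2 ∈ ball (0 : ℂ × ℂ) 2 := by
      rw [hM]
      exact hX θ hθ
    have h2 := (Pool.Agent.EG.RL.phi_an M hk h1).continuousAt
    rw [hM] at h2
    have h3 : ContinuousAt (fun θ : ℝ => ((t, w₀ + (θ : ℂ) * (w₁ - w₀)) : ℂ × ℂ)) θ := by fun_prop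
    have h4 : ContinuousAt (fun θ : ℝ => F.phi x t (w₀ + θ * (w₁ - w₀))) θ :=
      ContinuousAt.comp (g := fun p : ℂ × ℂ => F.atl.phi x (F.ch x).κ⁻¹ p.1 p.2) (f := fun θ : ℝ => ((t, w₀ + (θ : ℂ) * (w₁ - w₀)) : ℂ × ℂ)) h2 h3
    exact (continuousAt_const.mul h4).continuousWithinAt
  have h1 : (∫ θ in (0 : ℝ)..1, (w₁ - w₀) * cf α (fun q : ℂ × ℂ => F.Phi x q.1 q.2) t (t, w₀ + θ * (w₁ - w₀))) =
      ∫ θ in (0 : ℝ)..1, (w₁ - w₀) * F.phi x t (w₀ + θ * (w₁ - w₀)) := by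
    refine intervalIntegral.integral_congr fun θ hθ => ?_
    rw [uIcc_of_le zero_le_one] at hθ
    show (w₁ - w₀) * _ = (w₁ - w₀) * _
    rw [cf_cell h F x (hX θ hθ)]
  rw [h1, intervalIntegral.integral_eq_sub_of_hasDerivAt (f := fun θ : ℝ => F.PP x t (w₀ + θ * (w₁ - w₀)))]
  · simp only [Complex.ofReal_one, one_mul, add_sub_cancel, Complex.ofReal_zero, zero_mul, add_zero]
  · intro θ hθ
    rw [uIcc_of_le zero_le_one] at hθ
    exact hder θ hθ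
  · exact (hcont.mono (by rw [uIcc_of_le zero_le_one])).intervalIntegrable

theorem seam (h : EndData Xb V U D Λ u α) (F : LFam Xb V U D α κ) {M : Model (Ix F) (MN N)} (hM : M.toAtl = F.atl)
    {II : ℂ → MN N → MN N → ℂ} {T₁ r₂ : ℝ} (hII : HasII U α II r₂ (-T₁ - 10) (-T₁)) (hA : Away V U Λ u T₁ r₂) (hρ : Real.exp (-T₁) < M.ρ) :
    ∃ ε' : ℝ, 0 < ε' ∧ ∀ (t₁ : ℂ) (x : Ix F) (w : ℂ → ℂ) (f g : ℂ → EN N) (r₁ : ℝ), r₂ + 4 ≤ r₁ → 4 ≤ r₁ → -T₁ - 6 ≤ t₁.re → t₁.re ≤ -T₁ - 4 →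
      SecOn U Λ u (ball t₁ r₁) f → SecOn U Λ u (ball t₁ r₁) g → DifferentiableOn ℂ w (ball t₁ 4) →
      (∀ t ∈ ball t₁ 4, CenS (F.XX x t (w t)) ∧ pr (f t) = pr (F.Phi x t (w t))) → (∀ t ∈ ball t₁ 4, dist (pr (f t)) (pr (g t)) ≤ ε') →
      ∃ w' : ℂ → ℂ, DifferentiableOn ℂ w' (ball t₁ 4) ∧ ∀ t ∈ ball t₁ 4, Cen (F.XX x t (w' t)) ∧ pr (g t) = pr (F.Phi x t (w' t)) ∧
        ‖w' t‖ ≤ ‖w t‖ + 1 ∧ II t (pr (f t)) (pr (g t)) = F.PP x t (w' t) - F.PP x t (w t) := by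
  obtain ⟨ε₁, hε₁, hII⟩ := hII
  obtain ⟨𝒦, hK, hKV, hA⟩ := hA
  obtain ⟨c₀, hc₀, hlow⟩ := away_low h F hK hKV
  obtain ⟨ε', hε', hpt⟩ := seam_pt h F hc₀ hε₁
  refine ⟨ε', hε', fun t₁ x w f g r₁ hr hr4 ht1 ht2 hf hg hw hfw hd => ?_⟩
  have hre : ∀ t ∈ ball t₁ 4, -T₁ - 10 ≤ t.re ∧ t.re ≤ -T₁ := fun t ht => by
    rw [mem_ball, dist_eq_norm] at ht
    have h1 := (Complex.abs_re_le_norm (t - t₁)).trans_lt ht
    rw [Complex.sub_re, abs_lt] at h1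
    exact ⟨by linarith [h1.1], by linarith [h1.2]⟩
  have hball : ∀ t ∈ ball t₁ 4, ball t r₂ ⊆ ball t₁ r₁ := fun t ht => by
    rw [mem_ball] at ht
    exact ball_subset_ball' (by linarith)
  have hmem : ∀ t ∈ ball t₁ 4, t ∈ ball t₁ r₁ := fun t ht => ball_subset_ball hr4 ht
  have hsec : ∀ t ∈ ball t₁ 4, ∀ f' : ℂ → EN N, SecOn U Λ u (ball t₁ r₁) f' → pr (f' t) ∈ 𝒦 := fun t ht f' hf' =>
    hA t f' (hre t ht).1 (hre t ht).2 ⟨hf'.1.mono (hball t ht), fun s hs => hf'.2 s (hball t ht hs)⟩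
  have key : ∀ t ∈ ball t₁ 4, _ := fun t ht => hpt x t (w t) (g t) (hfw t ht).1 (fun hex => by
    refine hlow x _ hex ?_ ?_
    · rw [mem_closedBall_zero_iff, Prod.norm_def, max_le_iff]
      exact ⟨by linarith [(hfw t ht).1.1], by linarith [(hfw t ht).1.2]⟩
    · have h1 := hsec t ht f hf
      rw [(hfw t ht).2] at h1
      exact h1) (h.U_sub (hg.2 t (hmem t ht)).1) (hg.2 t (hmem t ht)).2 (by
    rw [← (hfw t ht).2]
    exact hd t ht)
  refine ⟨fun t => F.nx x (w t) (g t), ?_, fun t ht => ?_⟩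
  · intro t ht
    have hgd : DifferentiableAt ℂ g t := (hg.1.mono (ball_subset_ball hr4)).differentiableAt (isOpen_ball.mem_nhds ht)
    have hwd : DifferentiableAt ℂ w t := hw.differentiableAt (isOpen_ball.mem_nhds ht)
    have hq : DifferentiableAt ℂ (fun t => (F.ch x).q (g t)) t :=
      DifferentiableAt.fun_comp' t ((F.ch x).q_an _ (key t ht).1).differentiableAt hgd
    have hq2 : DifferentiableAt ℂ (fun t => (swp x.1.2 ((F.ch x).q (g t))).2) t := by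
      unfold swp
      by_cases hs : x.1.2 = true
      · simp only [hs, if_true]
        exact hq.fst
      · have hs' : x.1.2 = false := by simpa using hs
        simp only [hs', Bool.false_eq_true, if_false]
        exact hq.snd
    refine DifferentiableAt.differentiableWithinAt ?_
    unfold LFam.nx
    by_cases hex : (F.ch x).ex = true
    · simp only [hex, if_true]
      have h1 := (key t ht).2.1 hex
      have h2 : (swp x.1.2 ((F.ch x).q (g t))).2 / Complex.exp ((F.ch x).k * w t) ∈ Complex.slitPlane := by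
        left
        have h3 := (Complex.abs_re_le_norm _).trans_lt h1
        rw [Complex.sub_re, Complex.one_re, abs_lt] at h3
        linarith [h3.1]
      have h4 : DifferentiableAt ℂ (fun t => (swp x.1.2 ((F.ch x).q (g t))).2 / Complex.exp ((F.ch x).k * w t)) t :=
        hq2.div ((hwd.const_mul _).cexp) (Complex.exp_ne_zero _)
      exact hwd.add ((h4.clog h2).div_const _)
    · simp only [hex, Bool.false_eq_true, if_false]
      exact hq2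
  · obtain ⟨_, _, h3, ⟨a, ha, hya⟩, h5, h6⟩ := key t ht
    have hpr : pr (g t) = pr (F.Phi x t (F.nx x (w t) (g t))) := (congrArg pr hya).trans (Pool.Agent.H62.EF.pr_smul _ ha)
    refine ⟨h3, hpr, h5, ?_⟩
    have ht' : ‖Complex.exp t‖ < M.ρ := by
      rw [Complex.norm_exp]
      exact (Real.exp_le_exp.2 (hre t ht).2).trans_lt hρ
    have h7 := hII t (w t) (F.nx x (w t) (g t)) (fun q : ℂ × ℂ => F.Phi x q.1 q.2) f g (hre t ht).1 (hre t ht).2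
      ⟨hf.1.mono (hball t ht), fun s hs => hf.2 s (hball t ht hs)⟩ ⟨hg.1.mono (hball t ht), fun s hs => hg.2 s (hball t ht hs)⟩ (hfw t ht).2 hpr
      (fun θ hθ => ⟨Phi_an h F x (q := (t, w t + θ * (F.nx x (w t) (g t) - w t))) (h6 θ hθ).1,
        Phi_V_ev h F x (q₀ := (t, w t + θ * (F.nx x (w t) (g t) - w t))) (h6 θ hθ).1⟩)
      (fun θ hθ => (h6 θ hθ).2)
    rw [seam_int h F hM x ht' fun θ hθ => (h6 θ hθ).1] at h7
    rw [(hfw t ht).2, hpr]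
    exact h7

end Pool.Agent.EG.LE
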