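import Pool.Agent.EG.LE.GrowA
import Pool.Agent.H62.EF.PrA

/-!
# EG LE SeamA: two near sections in a cell, away from the boundary

Proof (helper41):
One x suffices (finitely many x: the minimum of the epsilons).  c := F.ch x, k := c.k, b := c.b, sw := x.1.2, G := F.sS x.
eps3: p, p' in closedBall 0 (3/2), ‖p - p'‖ ≤ eps3 imply dist (pr (sS x p)) (pr (sS x p')) ≤ eps1 (uniform continuity on a compact set).
eps := min (1/8) (min (eps3 / 8) (c0 / (64 k) * min 1 eps3)) or smaller; eps' := delta of pt_close (chart c, r = 1, this eps).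
ε'-closeness: dist (pr (sS x (XX t w0))) (pr y) ≤ eps', XX t w0 = p with CenS p, ‖p.2‖ ≥ c0 if ex = true; y in V, u y - t in Λ.
pt_close: y in W, y = a • c.s p'', ‖p'' - swp sw p‖ ≤ eps; p1 := swp sw p'': ‖p1 - p‖ ≤ eps, y = a • sS x p1, (swp sw (c.q y)).2 = p1.2 ^ k.
κ p1.1 p1.2 ^ b = exp t (sS_u, u_smul, lat).
ex = false (b = 0, k = 1): w1 := p1.2 = (swp sw (c.q y)).2, XX x t w1 = (κ⁻¹ exp t, p1.2) = p1; on the segment XX x t w = (κ⁻¹ exp t, w), distance ≤ eps from p.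
ex = true: p.2 = exp w0, ‖p.2‖ ≥ c0; p1.2 = p.2 (1 + s), ‖s‖ ≤ eps / c0 ≤ 1 / (64 k); (c.q y)-component / (p.2)^k = (1 + s)^k, log ((1 + s)^k) = k log (1 + s) (‖log (1 + s)‖ ≤ 2 ‖s‖, so |k Im log (1 + s)| < π:
Complex.log_pow or log_exp), w1 := w0 + (1 / k) log ((swp sw (c.q y)).2 / exp (k w0)) = w0 + log (1 + s), exp w1 = p1.2, XX x t w1 = p1; ‖w1 - w0‖ ≤ 2 ‖s‖ ≤ 1.
 On the segment w = w0 + θ (w1 - w0): XX x t w = (p.1 exp (- b θ (w1 - w0)), p.2 exp (θ (w1 - w0))), distance from p ≤ 2 ‖w1 - w0‖ ≤ 4 ‖s‖ ≤ 4 eps / c0 ≤ eps3.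
The conclusion of seam_pt is for the function nx x t w0 y (the next coordinate), defined below by the same formula in both cases.
-/

set_option autoImplicit false

open Topology Filter Metric Set

namespace Pool.Agent.EG.LE

open Pool.Agent.H36.BP (EN fs wd)
open Pool.Agent.H14.PP (IsCone Tan jac)
open Pool.Agent.H62.EF (MN pr)
open Pool.Agent.H62.EL (TForm)
open Pool.Agent.EG.RL (rot Cen Model Bphi)

variable {N : ℕ} {Xb V U D : Set (EN N)} {Λ : AddSubgroup ℂ} {u : EN N → ℂ} {α : TForm V Λ u} {κ : Type}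

/-- the coordinate of the point `y` of the cell, near `w₀` -/
noncomputable def LFam.nx (F : LFam Xb V U D α κ) (x : Ix F) (w₀ : ℂ) (y : EN N) : ℂ :=
  if (F.ch x).ex = true then w₀ + Complex.log ((swp x.1.2 ((F.ch x).q y)).2 / Complex.exp ((F.ch x).k * w₀)) / (F.ch x).k
  else (swp x.1.2 ((F.ch x).q y)).2

private theorem SeamA_inv (sw : Bool) (p : ℂ × ℂ) : swp sw (swp sw p) = p := by
  unfold swp
  split_ifs
  · simp
  · rfl

private theorem SeamA_norm (sw : Bool) (p : ℂ × ℂ) : ‖swp sw p‖ = ‖p‖ := by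
  unfold swp
  split_ifs
  · rw [Prod.norm_def, Prod.norm_def, Prod.fst_swap, Prod.snd_swap, max_comm]
  · rfl

private theorem SeamA_sub (sw : Bool) (p q : ℂ × ℂ) : swp sw (p - q) = swp sw p - swp sw q := by
  unfold swp
  split_ifs
  · rfl
  · rfl

private theorem SeamA_pow (sw : Bool) (p : ℂ × ℂ) (k : ℕ) :
    swp sw (p.1 ^ k, p.2 ^ k) = ((swp sw p).1 ^ k, (swp sw p).2 ^ k) := by
  unfold swp
  split_ifs
  · rfl
  · rfl

private theorem SeamA_fst {p q : ℂ × ℂ} {r : ℝ} (h : ‖p - q‖ ≤ r) : ‖p.1‖ ≤ ‖q.1‖ + r ∧ ‖p.2‖ ≤ ‖q.2‖ + r := by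
  have h1 : ‖p.1 - q.1‖ ≤ r := (norm_fst_le (p - q)).trans h
  have h2 : ‖p.2 - q.2‖ ≤ r := (norm_snd_le (p - q)).trans h
  have h3 := norm_sub_norm_le p.1 q.1
  have h4 := norm_sub_norm_le p.2 q.2
  constructor <;> linarith

private theorem SeamA_mem {p : ℂ × ℂ} {r : ℝ} (h1 : ‖p.1‖ < r) (h2 : ‖p.2‖ < r) : p ∈ ball (0 : ℂ × ℂ) r := by
  rw [mem_ball_zero_iff, Prod.norm_def, max_lt_iff]
  exact ⟨h1, h2⟩

private theorem SeamA_fin {ι : Type} [Finite ι] (f : ι → ℝ) (hf : ∀ i, 0 < f i) : ∃ δ : ℝ, 0 < δ ∧ ∀ i, δ ≤ f i := by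
  rcases isEmpty_or_nonempty ι with he | he
  · exact ⟨1, one_pos, fun i => (he.false i).elim⟩
  · obtain ⟨i0, hi0⟩ := Finite.exists_min f
    exact ⟨f i0, hf i0, hi0⟩

private theorem SeamA_unif (h : EndData Xb V U D Λ u α) (F : LFam Xb V U D α κ) (x : Ix F) {ε₁ : ℝ} (hε : 0 < ε₁) :
    ∃ δ : ℝ, 0 < δ ∧ ∀ p ∈ closedBall (0 : ℂ × ℂ) (3 / 2), ∀ p' ∈ closedBall (0 : ℂ × ℂ) (3 / 2), ‖p - p'‖ ≤ δ →
      dist (pr (F.sS x p)) (pr (F.sS x p')) ≤ ε₁ := by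
  have h1 : ContinuousOn (fun p => pr (F.sS x p)) (closedBall (0 : ℂ × ℂ) (3 / 2)) := by
    intro p hp
    have hp3 : p ∈ ball (0 : ℂ × ℂ) 3 := closedBall_subset_ball (by norm_num) hp
    have h2 : F.sS x p ≠ 0 := s_ne h (F.ch x) (swp_ball x.1.2 hp3)
    have h3 := (sS_an F x hp3).continuousAt
    have h4 : ContinuousAt pr (F.sS x p) := Pool.Agent.H62.EF.continuousAt_pr h2
    exact (ContinuousAt.comp (g := pr) (f := F.sS x) h4 h3).continuousWithinAt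
  have h2 := (isCompact_closedBall (0 : ℂ × ℂ) (3 / 2)).uniformContinuousOn_of_continuous h1
  rw [Metric.uniformContinuousOn_iff] at h2
  obtain ⟨δ, hδ, h3⟩ := h2 ε₁ hε
  refine ⟨δ / 2, by positivity, fun p hp p' hp' hpp => ?_⟩
  refine (h3 p hp p' hp' ?_).le
  rw [dist_eq_norm]
  linarith

/-- the exchanged coordinates of the near point -/
private theorem SeamA_point (h : EndData Xb V U D Λ u α) (F : LFam Xb V U D α κ) (x : Ix F) {ε δ : ℝ} (hε : ε ≤ 1 / 64)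
    (hδ : ∀ p ∈ closedBall (0 : ℂ × ℂ) 1, ∀ y ∈ Xb, dist (pr y) (pr ((F.ch x).s p)) ≤ δ →
      y ∈ (F.ch x).W ∧ ∃ p' ∈ ball (0 : ℂ × ℂ) 3, ‖p' - p‖ ≤ ε ∧ ∃ a : ℂ, a ≠ 0 ∧ y = a • (F.ch x).s p')
    {t w₀ : ℂ} {y : EN N} (hC : CenS (F.XX x t w₀)) (hy : y ∈ V) (hut : u y - t ∈ Λ)
    (hd : dist (pr (F.Phi x t w₀)) (pr y) ≤ δ) :
    y ∈ (F.ch x).W ∧ ∃ p₁ : ℂ × ℂ, ‖p₁ - F.XX x t w₀‖ ≤ ε ∧ Cen p₁ ∧ (∃ a : ℂ, a ≠ 0 ∧ y = a • F.sS x p₁) ∧
      (swp x.1.2 ((F.ch x).q y)).2 = p₁.2 ^ (F.ch x).k ∧ (F.ch x).κ * p₁.1 * p₁.2 ^ (F.ch x).b = Complex.exp t := by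
  have hp1 : swp x.1.2 (F.XX x t w₀) ∈ closedBall (0 : ℂ × ℂ) 1 := by
    rw [mem_closedBall_zero_iff, SeamA_norm, Prod.norm_def]
    exact max_le (by linarith [hC.1]) (by linarith [hC.2])
  have hd' : dist (pr y) (pr ((F.ch x).s (swp x.1.2 (F.XX x t w₀)))) ≤ δ := by
    rw [dist_comm]
    exact hd
  obtain ⟨hW, p', hp', hpp, a, ha, hya⟩ := hδ _ hp1 y (h.V_sub hy) hd'
  refine ⟨hW, swp x.1.2 p', ?_, ?_, ⟨a, ha, ?_⟩, ?_, ?_⟩
  · have h1 : swp x.1.2 p' - F.XX x t w₀ = swp x.1.2 (p' - swp x.1.2 (F.XX x t w₀)) := by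
      rw [SeamA_sub, SeamA_inv]
    rw [h1, SeamA_norm]
    exact hpp
  · have h1 : swp x.1.2 p' - F.XX x t w₀ = swp x.1.2 (p' - swp x.1.2 (F.XX x t w₀)) := by
      rw [SeamA_sub, SeamA_inv]
    have h2 : ‖swp x.1.2 p' - F.XX x t w₀‖ ≤ 1 / 64 := by
      rw [h1, SeamA_norm]
      exact hpp.trans hε
    have h3 := SeamA_fst h2
    exact ⟨by linarith [h3.1, hC.1], by linarith [h3.2, hC.2]⟩
  · unfold LFam.sS
    rw [SeamA_inv]
    exact hya
  · have h1 := (F.ch x).s_mem p' hp'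
    rw [hya, (F.ch x).q_smul _ h1.2.1 a ha, h1.2.2, SeamA_pow]
  · have hs : F.sS x (swp x.1.2 p') = (F.ch x).s p' := by
      unfold LFam.sS
      rw [SeamA_inv]
    have hb3 : swp x.1.2 p' ∈ ball (0 : ℂ × ℂ) 3 := swp_ball x.1.2 hp'
    have hsV : F.sS x (swp x.1.2 p') ∈ V := by
      rw [hs]
      have h1 := h.V_smul y hy a⁻¹ (inv_ne_zero ha)
      rw [hya, smul_smul, inv_mul_cancel₀ ha, one_smul] at h1
      exact h1
    have h1 := sS_u F x hb3 hsV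
    rw [atl_u] at h1
    rw [← h1]
    have h2 := h.u_smul _ hsV a ha
    rw [hs] at h2 ⊢
    rw [← hya] at h2
    have h3 := (h.lat _).1 h2
    have h4 := (h.lat _).1 hut
    rw [Complex.exp_sub, div_eq_one_iff_eq (Complex.exp_ne_zero _)] at h3 h4
    rw [← h3, h4]

private theorem SeamA_one (h : EndData Xb V U D Λ u α) (F : LFam Xb V U D α κ) {c₀ ε₁ : ℝ} (hc : 0 < c₀) (hε : 0 < ε₁) (x : Ix F) :
    ∃ ε' : ℝ, 0 < ε' ∧ ∀ (t w₀ : ℂ) (y : EN N), CenS (F.XX x t w₀) → ((F.ch x).ex = true → c₀ ≤ ‖(F.XX x t w₀).2‖) →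
      y ∈ V → u y - t ∈ Λ → dist (pr (F.Phi x t w₀)) (pr y) ≤ ε' →
      y ∈ (F.ch x).W ∧ ((F.ch x).ex = true → ‖(swp x.1.2 ((F.ch x).q y)).2 / Complex.exp ((F.ch x).k * w₀) - 1‖ < 1 / 2) ∧
      Cen (F.XX x t (F.nx x w₀ y)) ∧ (∃ a : ℂ, a ≠ 0 ∧ y = a • F.Phi x t (F.nx x w₀ y)) ∧ ‖F.nx x w₀ y‖ ≤ ‖w₀‖ + 1 ∧
      ∀ θ ∈ Icc (0 : ℝ) 1, F.XX x t (w₀ + θ * (F.nx x w₀ y - w₀)) ∈ ball (0 : ℂ × ℂ) 2 ∧
        dist (pr (F.Phi x t (w₀ + θ * (F.nx x w₀ y - w₀)))) (pr (F.Phi x t w₀)) ≤ ε₁ := by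
  obtain ⟨ε₃, hε₃, hun⟩ := SeamA_unif h F x hε
  have hk : (1 : ℝ) ≤ ((F.ch x).k : ℝ) := by exact_mod_cast (F.ch x).k_pos
  have hk0 : (0 : ℝ) < ((F.ch x).k : ℝ) := by linarith
  set m : ℝ := min 1 c₀ with hm
  set n : ℝ := min 1 ε₃ with hn
  have hm0 : 0 < m := lt_min one_pos hc
  have hn0 : 0 < n := lt_min one_pos hε₃
  have hm1 : m ≤ 1 := min_le_left _ _
  have hmc : m ≤ c₀ := min_le_right _ _
  have hn1 : n ≤ 1 := min_le_left _ _
  have hn3 : n ≤ ε₃ := min_le_right _ _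
  set ε : ℝ := m * n / (64 * (F.ch x).k) with hεd
  have hε0 : 0 < ε := by positivity
  have hεk : ε * (F.ch x).k = m * n / 64 := by
    rw [hεd]
    field_simp
  have hmn : m * n ≤ n := by nlinarith
  have hεn : ε ≤ n / 64 := by
    have h1 : ε ≤ ε * (F.ch x).k := by nlinarith
    rw [hεk] at h1
    linarith
  obtain ⟨δ, hδ0, hδ⟩ := pt_close h (F.ch x) hε0 (show (1 : ℝ) < 3 by norm_num)
  refine ⟨δ, hδ0, fun t w₀ y hC hlow hy hut hd => ?_⟩
  obtain ⟨hW, p₁, hp1, hCen, ⟨a, ha, hya⟩, hq, hu1⟩ := SeamA_point h F x (by linarith) hδ hC hy hut hd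
  have hCn := SeamA_fst hp1
  -- the end of the proof from the facts on the coordinate
  have hend : F.XX x t (F.nx x w₀ y) = p₁ → ‖F.nx x w₀ y‖ ≤ ‖w₀‖ + 1 →
      (∀ θ ∈ Icc (0 : ℝ) 1, ‖F.XX x t (w₀ + θ * (F.nx x w₀ y - w₀)) - F.XX x t w₀‖ ≤ n / 2) →
      Cen (F.XX x t (F.nx x w₀ y)) ∧ (∃ a : ℂ, a ≠ 0 ∧ y = a • F.Phi x t (F.nx x w₀ y)) ∧ ‖F.nx x w₀ y‖ ≤ ‖w₀‖ + 1 ∧
      ∀ θ ∈ Icc (0 : ℝ) 1, F.XX x t (w₀ + θ * (F.nx x w₀ y - w₀)) ∈ ball (0 : ℂ × ℂ) 2 ∧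
        dist (pr (F.Phi x t (w₀ + θ * (F.nx x w₀ y - w₀)))) (pr (F.Phi x t w₀)) ≤ ε₁ := by
    intro h1 h2 h3
    refine ⟨by rw [h1]; exact hCen, ⟨a, ha, ?_⟩, h2, fun θ hθ => ?_⟩
    · unfold LFam.Phi
      rw [h1]
      exact hya
    · have h4 := h3 θ hθ
      have h5 := SeamA_fst h4
      have h6 : F.XX x t (w₀ + θ * (F.nx x w₀ y - w₀)) ∈ closedBall (0 : ℂ × ℂ) (3 / 2) := by
        rw [mem_closedBall_zero_iff, Prod.norm_def]
        exact max_le (by linarith [hC.1, h5.1]) (by linarith [hC.2, h5.2])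
      have h7 : F.XX x t w₀ ∈ closedBall (0 : ℂ × ℂ) (3 / 2) := by
        rw [mem_closedBall_zero_iff, Prod.norm_def]
        exact max_le (by linarith [hC.1]) (by linarith [hC.2])
      exact ⟨closedBall_subset_ball (by norm_num) h6, hun _ h6 _ h7 (by linarith)⟩
  by_cases hex : (F.ch x).ex = true
  · -- the chart at a point of a boundary component
    have hX0 : (F.XX x t w₀).2 = Complex.exp w₀ := by
      rw [XX_eq]
      simp only [if_pos hex]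
    have hlow' := hlow hex
    rw [hX0] at hlow'
    have he0 : Complex.exp w₀ ≠ 0 := Complex.exp_ne_zero _
    set s : ℂ := (p₁.2 - Complex.exp w₀) / Complex.exp w₀ with hs
    have hs1 : p₁.2 = Complex.exp w₀ * (1 + s) := by
      rw [hs]
      field_simp
      ring
    have hsn : ‖s‖ * (F.ch x).k ≤ n / 64 := by
      have h1 : ‖p₁.2 - Complex.exp w₀‖ ≤ ε := by
        rw [← hX0]
        exact (norm_snd_le (p₁ - F.XX x t w₀)).trans hp1
      have h2 : ‖s‖ * c₀ ≤ ε := by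
        have h3 : ‖s‖ * ‖Complex.exp w₀‖ = ‖p₁.2 - Complex.exp w₀‖ := by
          rw [hs, norm_div, div_mul_cancel₀ _ (norm_ne_zero_iff.2 he0)]
        nlinarith [norm_nonneg s]
      have h4 : ‖s‖ * c₀ * (F.ch x).k ≤ m * n / 64 := by
        rw [← hεk]
        exact mul_le_mul_of_nonneg_right h2 hk0.le
      have h5 : m * n / 64 ≤ c₀ * (n / 64) := by nlinarith
      have h6 : c₀ * (‖s‖ * (F.ch x).k) ≤ c₀ * (n / 64) := by nlinarith
      exact le_of_mul_le_mul_left h6 hc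
    have hsn' : ‖s‖ ≤ n / 64 := by nlinarith [norm_nonneg s]
    have hs64 : ‖s‖ ≤ 1 / 2 := by linarith
    have hL := Complex.norm_log_one_add_half_le_self hs64
    set L : ℂ := Complex.log (1 + s) with hLd
    have h1s : (1 : ℂ) + s ≠ 0 := by
      intro h0
      have h1 : s = -1 := by linear_combination h0
      rw [h1, norm_neg, norm_one] at hs64
      norm_num at hs64
    have hexpL : Complex.exp L = 1 + s := by
      rw [hLd, Complex.exp_log h1s]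
    have hkL : ‖((F.ch x).k : ℂ) * L‖ ≤ 3 / 128 := by
      rw [norm_mul, Complex.norm_natCast]
      nlinarith [norm_nonneg s]
    have hratio : (swp x.1.2 ((F.ch x).q y)).2 / Complex.exp ((F.ch x).k * w₀) = Complex.exp ((F.ch x).k * L) := by
      rw [hq, hs1, ← hexpL, mul_pow, ← Complex.exp_nat_mul, ← Complex.exp_nat_mul, mul_comm (Complex.exp _) (Complex.exp _),
        mul_div_assoc, div_self (Complex.exp_ne_zero _), mul_one]
    have hlog : Complex.log (Complex.exp ((F.ch x).k * L)) = (F.ch x).k * L := by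
      have h1 := Complex.abs_im_le_norm (((F.ch x).k : ℂ) * L)
      have h2 := abs_le.1 (h1.trans hkL)
      have h3 := Real.pi_gt_three
      exact Complex.log_exp (by linarith) (by linarith)
    have hkc : ((F.ch x).k : ℂ) ≠ 0 := by
      have h1 := (F.ch x).k_pos
      exact_mod_cast (show (F.ch x).k ≠ 0 by omega)
    have hnx : F.nx x w₀ y = w₀ + L := by
      unfold LFam.nx
      rw [if_pos hex, hratio, hlog, mul_div_cancel_left₀ _ hkc]
    have hLn : ‖L‖ ≤ n / 32 := by linarith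
    have hb1 : ((F.ch x).b : ℝ) ≤ 1 := by exact_mod_cast (F.ch x).b_le
    have hXn : F.XX x t (w₀ + L) = p₁ := by
      have h1 : (F.XX x t (w₀ + L)).2 = p₁.2 := by
        rw [XX_eq]
        simp only [if_pos hex]
        rw [Complex.exp_add, hexpL, hs1]
      have h2 := XX_u h F x t (w₀ + L)
      rw [h1, ← hu1] at h2
      have h3 : p₁.2 ^ (F.ch x).b ≠ 0 := by
        apply pow_ne_zero
        rw [hs1]
        exact mul_ne_zero he0 h1s
      have h4 : (F.XX x t (w₀ + L)).1 = p₁.1 := mul_left_cancel₀ (F.ch x).κ_ne (mul_right_cancel₀ h3 h2)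
      exact Prod.ext h4 h1
    refine ⟨hW, fun _ => ?_, ?_⟩
    · rw [hratio]
      have h1 := Complex.norm_exp_sub_one_le (x := ((F.ch x).k : ℂ) * L) (by linarith)
      linarith
    · apply hend
      · rw [hnx, hXn]
      · rw [hnx]
        have h1 := norm_add_le w₀ L
        linarith
      · intro θ hθ
        rw [hnx, add_sub_cancel_left]
        have hθn : ‖(θ : ℂ)‖ ≤ 1 := by
          rw [Complex.norm_real, Real.norm_eq_abs, abs_of_nonneg hθ.1]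
          exact hθ.2
        have hθL : ‖(θ : ℂ) * L‖ ≤ n / 32 := by
          rw [norm_mul]
          nlinarith [norm_nonneg L, norm_nonneg (θ : ℂ)]
        have hbL : ‖-(((F.ch x).b : ℂ) * (θ * L))‖ ≤ n / 32 := by
          rw [norm_neg, norm_mul, Complex.norm_natCast]
          nlinarith [norm_nonneg ((θ : ℂ) * L), Nat.cast_nonneg (α := ℝ) (F.ch x).b]
        have h1 := Complex.norm_exp_sub_one_le (x := (θ : ℂ) * L) (by linarith)
        have h2 := Complex.norm_exp_sub_one_le (x := -(((F.ch x).b : ℂ) * (θ * L))) (by linarith)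
        rw [XX_eq, XX_eq]
        simp only [if_pos hex]
        rw [Prod.norm_def]
        have hC1 := hC.1
        have hC2 := hC.2
        rw [XX_eq] at hC1 hC2
        simp only [if_pos hex] at hC1 hC2
        apply max_le
        · show ‖(F.ch x).κ⁻¹ * Complex.exp (t - (F.ch x).b * (w₀ + θ * L)) - (F.ch x).κ⁻¹ * Complex.exp (t - (F.ch x).b * w₀)‖ ≤ n / 2
          have h3 : (F.ch x).κ⁻¹ * Complex.exp (t - (F.ch x).b * (w₀ + θ * L)) - (F.ch x).κ⁻¹ * Complex.exp (t - (F.ch x).b * w₀) =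
              ((F.ch x).κ⁻¹ * Complex.exp (t - (F.ch x).b * w₀)) * (Complex.exp (-(((F.ch x).b : ℂ) * (θ * L))) - 1) := by
            rw [mul_sub, mul_one, mul_assoc, ← Complex.exp_add]
            congr 3
            ring
          rw [h3, norm_mul]
          nlinarith [norm_nonneg ((F.ch x).κ⁻¹ * Complex.exp (t - (F.ch x).b * w₀)),
            norm_nonneg (Complex.exp (-(((F.ch x).b : ℂ) * (θ * L))) - 1)]
        · show ‖Complex.exp (w₀ + θ * L) - Complex.exp w₀‖ ≤ n / 2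
          have h3 : Complex.exp (w₀ + θ * L) - Complex.exp w₀ = Complex.exp w₀ * (Complex.exp (θ * L) - 1) := by
            rw [Complex.exp_add]
            ring
          rw [h3, norm_mul]
          nlinarith [norm_nonneg (Complex.exp w₀), norm_nonneg (Complex.exp ((θ : ℂ) * L) - 1)]
  · -- the chart at a point outside of the boundary components
    have hb : (F.ch x).b = 0 := by
      have h1 := (F.ch x).b_le
      by_contra h0
      exact hex ((F.ch x).b_ex (by omega))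
    have hk1 : (F.ch x).k = 1 := by
      rcases (F.ch x).k_eq with h1 | h1
      · exact h1
      · exact absurd ((F.ch x).b_ex h1) hex
    have hXX : ∀ w, F.XX x t w = ((F.ch x).κ⁻¹ * Complex.exp t, w) := by
      intro w
      rw [XX_eq, if_neg hex, hb, Nat.cast_zero, zero_mul, sub_zero]
    have hnx : F.nx x w₀ y = p₁.2 := by
      unfold LFam.nx
      rw [if_neg hex, hq, hk1, pow_one]
    have hu1' : (F.ch x).κ * p₁.1 = Complex.exp t := by
      rw [← hu1, hb, pow_zero, mul_one]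
    have hp11 : (F.ch x).κ⁻¹ * Complex.exp t = p₁.1 := by
      rw [← hu1', ← mul_assoc, inv_mul_cancel₀ (F.ch x).κ_ne, one_mul]
    have hdw : ‖p₁.2 - w₀‖ ≤ n / 64 := by
      have h1 := (norm_snd_le (p₁ - F.XX x t w₀)).trans hp1
      rw [hXX] at h1
      have h2 : ‖p₁.2 - w₀‖ ≤ ε := h1
      linarith
    refine ⟨hW, fun h0 => absurd h0 hex, ?_⟩
    apply hend
    · rw [hnx, hXX, hp11]
    · rw [hnx]
      have h1 := norm_sub_norm_le p₁.2 w₀
      linarith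
    · intro θ hθ
      rw [hnx, hXX, hXX]
      have h1 : ((F.ch x).κ⁻¹ * Complex.exp t, w₀ + θ * (p₁.2 - w₀)) - ((F.ch x).κ⁻¹ * Complex.exp t, w₀) = (0, θ * (p₁.2 - w₀)) := by
        rw [Prod.mk_sub_mk, sub_self, add_sub_cancel_left]
      have hθn : ‖(θ : ℂ)‖ ≤ 1 := by
        rw [Complex.norm_real, Real.norm_eq_abs, abs_of_nonneg hθ.1]
        exact hθ.2
      rw [h1, Prod.norm_def]
      apply max_le
      · show ‖(0 : ℂ)‖ ≤ n / 2
        rw [norm_zero]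
        linarith
      · show ‖(θ : ℂ) * (p₁.2 - w₀)‖ ≤ n / 2
        rw [norm_mul]
        nlinarith [norm_nonneg (p₁.2 - w₀), norm_nonneg (θ : ℂ)]

theorem seam_pt (h : EndData Xb V U D Λ u α) (F : LFam Xb V U D α κ) {c₀ ε₁ : ℝ} (hc : 0 < c₀) (hε : 0 < ε₁) :
    ∃ ε' : ℝ, 0 < ε' ∧ ∀ (x : Ix F) (t w₀ : ℂ) (y : EN N), CenS (F.XX x t w₀) → ((F.ch x).ex = true → c₀ ≤ ‖(F.XX x t w₀).2‖) →
      y ∈ V → u y - t ∈ Λ → dist (pr (F.Phi x t w₀)) (pr y) ≤ ε' →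
      y ∈ (F.ch x).W ∧ ((F.ch x).ex = true → ‖(swp x.1.2 ((F.ch x).q y)).2 / Complex.exp ((F.ch x).k * w₀) - 1‖ < 1 / 2) ∧
      Cen (F.XX x t (F.nx x w₀ y)) ∧ (∃ a : ℂ, a ≠ 0 ∧ y = a • F.Phi x t (F.nx x w₀ y)) ∧ ‖F.nx x w₀ y‖ ≤ ‖w₀‖ + 1 ∧
      ∀ θ ∈ Icc (0 : ℝ) 1, F.XX x t (w₀ + θ * (F.nx x w₀ y - w₀)) ∈ ball (0 : ℂ × ℂ) 2 ∧
        dist (pr (F.Phi x t (w₀ + θ * (F.nx x w₀ y - w₀)))) (pr (F.Phi x t w₀)) ≤ ε₁ := by
  choose f hf0 hf using SeamA_one h F hc hε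
  obtain ⟨δ, hδ, hδf⟩ := SeamA_fin f hf0
  exact ⟨δ, hδ, fun x t w₀ y h1 h2 h3 h4 h5 => hf x t w₀ y h1 h2 h3 h4 (h5.trans (hδf x))⟩

end Pool.Agent.EG.LE
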